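import Mathlib

/-!
# Permutations are determined up to conjugacy by the numbers of fixed points of their powers
-/

set_option autoImplicit false

open Function Classical

namespace Pool.Agent.Q90.WR

theorem iter_eq_iff {X : Type} {s : X → X} {x : X} (hx : x ∈ periodicPts s) (i j : ℕ) :
    s^[i] x = s^[j] x ↔ i % minimalPeriod s x = j % minimalPeriod s x := by
  have hd : 0 < minimalPeriod s x := minimalPeriod_pos_of_mem_periodicPts hx
  constructor
  · intro h
    rw [← iterate_mod_minimalPeriod_eq (n := i), ← iterate_mod_minimalPeriod_eq (n := j)] at h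
    exact iterate_injOn_Iio_minimalPeriod (Set.mem_Iio.mpr (Nat.mod_lt i hd))
      (Set.mem_Iio.mpr (Nat.mod_lt j hd)) h
  · intro h
    rw [← iterate_mod_minimalPeriod_eq (n := i), ← iterate_mod_minimalPeriod_eq (n := j), h]

/-- the orbit -/
noncomputable def orb {X : Type} (s : X → X) (x : X) : Finset X :=
  (Finset.range (minimalPeriod s x)).image fun i => s^[i] x

theorem mem_orb {X : Type} {s : X → X} {x z : X} (hx : x ∈ periodicPts s) :
    z ∈ orb s x ↔ ∃ i : ℕ, s^[i] x = z := by
  unfold orb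
  simp only [Finset.mem_image, Finset.mem_range]
  constructor
  · rintro ⟨i, -, h⟩
    exact ⟨i, h⟩
  · rintro ⟨i, h⟩
    exact ⟨i % minimalPeriod s x, Nat.mod_lt _ (minimalPeriod_pos_of_mem_periodicPts hx), by
      rw [iterate_mod_minimalPeriod_eq, h]⟩

theorem card_orb {X : Type} {s : X → X} {x : X} : (orb s x).card = minimalPeriod s x := by
  unfold orb
  rw [Finset.card_image_of_injOn, Finset.card_range]
  intro i hi j hj h
  rw [Finset.coe_range] at hi hj
  exact iterate_injOn_Iio_minimalPeriod hi hj h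

theorem orb_inv {X : Type} {s : X → X} (hs : Injective s) {x z : X} (hx : x ∈ periodicPts s)
    (h : s z ∈ orb s x) : z ∈ orb s x := by
  rw [mem_orb hx] at h ⊢
  obtain ⟨i, hi⟩ := h
  have hd : 0 < minimalPeriod s x := minimalPeriod_pos_of_mem_periodicPts hx
  refine ⟨i + (minimalPeriod s x - 1), hs ?_⟩
  rw [← hi, ← iterate_succ_apply' s]
  rw [iter_eq_iff hx]
  have : (i + (minimalPeriod s x - 1)).succ = i + minimalPeriod s x := by omega
  rw [this, Nat.add_mod_right]

theorem fix_orb {X : Type} {s : X → X} {x z : X} (hx : x ∈ periodicPts s) (h : z ∈ orb s x)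
    (k : ℕ) : s^[k] z = z ↔ minimalPeriod s x ∣ k := by
  rw [mem_orb hx] at h
  obtain ⟨i, rfl⟩ := h
  rw [← minimalPeriod_apply_iterate hx i]
  exact isPeriodicPt_iff_minimalPeriod_dvd

theorem count_orb {X : Type} {s : X → X} {x : X} (hx : x ∈ periodicPts s) (k : ℕ) :
    ((orb s x).filter fun z => s^[k] z = z).card =
      if minimalPeriod s x ∣ k then minimalPeriod s x else 0 := by
  split_ifs with h
  · rw [Finset.filter_true_of_mem fun z hz => (fix_orb hx hz k).mpr h, card_orb]
  · rw [Finset.filter_false_of_mem fun z hz h' => h ((fix_orb hx hz k).mp h'), Finset.card_empty]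

theorem count_sdiff {X : Type} {s : X → X} {x : X} {A : Finset X} (hx : x ∈ periodicPts s)
    (hA : orb s x ⊆ A) (k : ℕ) :
    ((A \ orb s x).filter fun z => s^[k] z = z).card +
      (if minimalPeriod s x ∣ k then minimalPeriod s x else 0) =
      (A.filter fun z => s^[k] z = z).card := by
  rw [← count_orb hx k, ← Finset.card_union_of_disjoint, ← Finset.filter_union,
    Finset.sdiff_union_of_subset hA]
  exact Finset.disjoint_filter_filter Finset.sdiff_disjoint

theorem orb_subset {X : Type} {s : X → X} {x : X} {A : Finset X} (hA : ∀ z ∈ A, s z ∈ A)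
    (hx : x ∈ A) : orb s x ⊆ A := by
  have h : ∀ i : ℕ, s^[i] x ∈ A := by
    intro i
    induction i with
    | zero => exact hx
    | succ i ih => rw [iterate_succ_apply']; exact hA _ ih
  intro z hz
  unfold orb at hz
  obtain ⟨i, -, rfl⟩ := Finset.mem_image.mp hz
  exact h i

theorem perm_iso {X Y : Type} [Nonempty Y] {s : X → X} {t : Y → Y} (hs : Injective s)
    (ht : Injective t) :
    ∀ (n : ℕ) (A : Finset X) (B : Finset Y), A.card = n → (∀ x ∈ A, s x ∈ A) →
      (∀ y ∈ B, t y ∈ B) → (∀ x ∈ A, x ∈ periodicPts s) → (∀ y ∈ B, y ∈ periodicPts t) →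
      (∀ k : ℕ, 0 < k → (A.filter fun x => s^[k] x = x).card = (B.filter fun y => t^[k] y = y).card) →
      ∃ f : X → Y, Set.BijOn f A B ∧ ∀ x ∈ A, f (s x) = t (f x) := by
  intro n
  induction n using Nat.strong_induction_on with
  | _ n ih =>
  intro A B hn hA hB pA pB hk
  rcases A.eq_empty_or_nonempty with rfl | hne
  · -- `B` is empty as well
    have hB0 : B = ∅ := by
      by_contra hB0
      obtain ⟨y, hy⟩ := Finset.nonempty_iff_ne_empty.mpr hB0
      have h1 := hk (minimalPeriod t y) (minimalPeriod_pos_of_mem_periodicPts (pB y hy))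
      rw [Finset.filter_empty, Finset.card_empty] at h1
      have h2 : y ∈ B.filter fun z => t^[minimalPeriod t y] z = z :=
        Finset.mem_filter.mpr ⟨hy, iterate_minimalPeriod⟩
      have h3 := Finset.card_pos.mpr ⟨y, h2⟩
      omega
    subst hB0
    exact ⟨fun _ => Classical.arbitrary Y, by simp, by simp⟩
  · obtain ⟨x, hx, hmin⟩ := Finset.exists_min_image A (minimalPeriod s) hne
    have hpx := pA x hx
    have hd := minimalPeriod_pos_of_mem_periodicPts hpx
    -- a point of `B` with the same minimal period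
    obtain ⟨y, hy, hyd⟩ : ∃ y ∈ B, t^[minimalPeriod s x] y = y := by
      have h1 : 0 < (A.filter fun z => s^[minimalPeriod s x] z = z).card :=
        Finset.card_pos.mpr ⟨x, Finset.mem_filter.mpr ⟨hx, iterate_minimalPeriod⟩⟩
      rw [hk _ hd] at h1
      obtain ⟨y, hy⟩ := Finset.card_pos.mp h1
      exact ⟨y, (Finset.mem_filter.mp hy).1, (Finset.mem_filter.mp hy).2⟩
    have hpy := pB y hy
    have hd' := minimalPeriod_pos_of_mem_periodicPts hpy
    have hle : minimalPeriod t y ≤ minimalPeriod s x := IsPeriodicPt.minimalPeriod_le hd hyd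
    have heq : minimalPeriod t y = minimalPeriod s x := by
      refine le_antisymm hle ?_
      have h1 : 0 < (B.filter fun z => t^[minimalPeriod t y] z = z).card :=
        Finset.card_pos.mpr ⟨y, Finset.mem_filter.mpr ⟨hy, iterate_minimalPeriod⟩⟩
      rw [← hk _ hd'] at h1
      obtain ⟨z, hz⟩ := Finset.card_pos.mp h1
      have h2 := hmin z (Finset.mem_filter.mp hz).1
      exact h2.trans (IsPeriodicPt.minimalPeriod_le hd' (Finset.mem_filter.mp hz).2)
    have sA := orb_subset hA hx
    have sB := orb_subset hB hy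
    -- remove the two orbits
    have hk' : ∀ k : ℕ, 0 < k → ((A \ orb s x).filter fun x => s^[k] x = x).card =
        ((B \ orb t y).filter fun y => t^[k] y = y).card := by
      intro k hk0
      have e1 := count_sdiff hpx sA k
      have e2 := count_sdiff hpy sB k
      rw [hk k hk0, ← e2, heq] at e1
      omega
    have hcard : (A \ orb s x).card < n := by
      rw [← hn]
      refine Finset.card_lt_card ?_
      refine Finset.ssubset_iff_subset_ne.mpr ⟨Finset.sdiff_subset, fun h => ?_⟩
      have h1 : x ∈ A \ orb s x := by rw [h]; exact hx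
      exact (Finset.mem_sdiff.mp h1).2 ((mem_orb hpx).mpr ⟨0, rfl⟩)
    obtain ⟨f, hf, hfs⟩ := ih _ hcard (A \ orb s x) (B \ orb t y) rfl
      (fun z hz => by
        rw [Finset.mem_sdiff] at hz ⊢
        exact ⟨hA z hz.1, fun h => hz.2 (orb_inv hs hpx h)⟩)
      (fun z hz => by
        rw [Finset.mem_sdiff] at hz ⊢
        exact ⟨hB z hz.1, fun h => hz.2 (orb_inv ht hpy h)⟩)
      (fun z hz => pA z (Finset.mem_sdiff.mp hz).1)
      (fun z hz => pB z (Finset.mem_sdiff.mp hz).1) hk'
    let F : X → Y := fun z => if h : ∃ i : ℕ, s^[i] x = z then t^[h.choose] y else f z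
    have F1 : ∀ i : ℕ, F (s^[i] x) = t^[i] y := by
      intro i
      have h : ∃ j : ℕ, s^[j] x = s^[i] x := ⟨i, rfl⟩
      change (if h : ∃ j : ℕ, s^[j] x = s^[i] x then t^[h.choose] y else f (s^[i] x)) = _
      rw [dif_pos h, iter_eq_iff hpy, heq]
      exact (iter_eq_iff hpx _ _).mp h.choose_spec
    have F2 : ∀ z ∈ A \ orb s x, F z = f z := by
      intro z hz
      have h : ¬ ∃ i : ℕ, s^[i] x = z := fun h =>
        (Finset.mem_sdiff.mp hz).2 ((mem_orb hpx).mpr h)
      exact dif_neg h
    have cases : ∀ z ∈ A, (∃ i : ℕ, s^[i] x = z) ∨ z ∈ A \ orb s x := by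
      intro z hz
      by_cases h : z ∈ orb s x
      · exact Or.inl ((mem_orb hpx).mp h)
      · exact Or.inr (Finset.mem_sdiff.mpr ⟨hz, h⟩)
    have casesB : ∀ z ∈ B, (∃ i : ℕ, t^[i] y = z) ∨ z ∈ B \ orb t y := by
      intro z hz
      by_cases h : z ∈ orb t y
      · exact Or.inl ((mem_orb hpy).mp h)
      · exact Or.inr (Finset.mem_sdiff.mpr ⟨hz, h⟩)
    have inB : ∀ i : ℕ, t^[i] y ∈ B := fun i => sB ((mem_orb hpy).mpr ⟨i, rfl⟩)
    have inO : ∀ i : ℕ, t^[i] y ∈ orb t y := fun i => (mem_orb hpy).mpr ⟨i, rfl⟩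
    refine ⟨F, ⟨?_, ?_, ?_⟩, ?_⟩
    · intro z hz
      rcases cases z hz with ⟨i, rfl⟩ | h
      · rw [F1]; exact inB i
      · rw [F2 z h]; exact (Finset.mem_sdiff.mp (hf.mapsTo h)).1
    · intro z hz w hw h
      rcases cases z hz with ⟨i, rfl⟩ | h1
      · rcases cases w hw with ⟨j, rfl⟩ | h2
        · rw [F1, F1, iter_eq_iff hpy, heq] at h
          exact (iter_eq_iff hpx _ _).mpr h
        · rw [F1, F2 w h2] at h
          exact absurd (h ▸ inO i) (Finset.mem_sdiff.mp (hf.mapsTo h2)).2
      · rcases cases w hw with ⟨j, rfl⟩ | h2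
        · rw [F1, F2 z h1] at h
          exact absurd (h.symm ▸ inO j) (Finset.mem_sdiff.mp (hf.mapsTo h1)).2
        · rw [F2 z h1, F2 w h2] at h
          exact hf.injOn h1 h2 h
    · intro w hw
      rcases casesB w hw with ⟨i, rfl⟩ | h
      · exact ⟨s^[i] x, sA ((mem_orb hpx).mpr ⟨i, rfl⟩), F1 i⟩
      · obtain ⟨z, hz, hzw⟩ := hf.surjOn h
        exact ⟨z, (Finset.mem_sdiff.mp hz).1, by rw [F2 z hz, hzw]⟩
    · intro z hz
      rcases cases z hz with ⟨i, rfl⟩ | h
      · rw [← iterate_succ_apply' s, F1, F1, iterate_succ_apply']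
      · have h1 : s z ∈ A \ orb s x := by
          rw [Finset.mem_sdiff] at h ⊢
          exact ⟨hA z h.1, fun h' => h.2 (orb_inv hs hpx h')⟩
        rw [F2 _ h1, F2 z h, hfs z h]

end Pool.Agent.Q90.WR
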