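import Pool.Agent.Q90.WR.Tower
import Pool.Agent.Q90.WR.Perm

/-!
# Equivariant bijections
-/

set_option autoImplicit false

open scoped BigOperators Classical

noncomputable section

namespace Pool.Agent.Q90.WR

open Pool.Agent.Helper884.IC

/-- The irreducible characters of `G` of degree prime to `p`. -/
def IrrPrime (p : ℕ) (G : Type) [Group G] : Set (G → ℂ) := {χ | IsIrrChar χ ∧ PrimeDeg p χ}

/-- There is a bijection from the irreducible characters of `G` of degree prime to `p` onto those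
of `H` that commutes with the action of `σ`. -/
def EquivariantBijection (p : ℕ) (σ : ℂ ≃+* ℂ) (G H : Type) [Group G] [Group H] : Prop :=
  ∃ f : IrrPrime p G ≃ IrrPrime p H, ∀ χ : IrrPrime p G,
    ∃ h : (fun g => σ ((χ : G → ℂ) g)) ∈ IrrPrime p G,
      (f ⟨fun g => σ ((χ : G → ℂ) g), h⟩ : H → ℂ) = fun g => σ ((f χ : H → ℂ) g)

theorem oddOn_pow {σ : ℂ ≃+* ℂ} {G : Type} [Group G] (h : OddOn σ G) (k : ℕ) :
    OddOn (σ ^ k) G := by
  obtain ⟨m, hm, hf⟩ := h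
  refine ⟨m, hm, fun χ hχ => ?_⟩
  rw [← pow_mul, mul_comm, pow_mul]
  exact fixedBy_pow (hf χ hχ) k

/-- the action on functions -/
def gal (σ : ℂ ≃+* ℂ) {G : Type} (χ : G → ℂ) : G → ℂ := fun g => σ (χ g)

theorem gal_inj (σ : ℂ ≃+* ℂ) {G : Type} : Function.Injective (gal σ : (G → ℂ) → G → ℂ) := by
  intro a b h
  funext g
  exact σ.injective (congrFun h g)

theorem gal_iter (σ : ℂ ≃+* ℂ) {G : Type} (k : ℕ) (χ : G → ℂ) :
    (gal σ)^[k] χ = gal (σ ^ k) χ := by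
  induction k with
  | zero => rfl
  | succ k ih =>
    rw [Function.iterate_succ_apply', ih, pow_succ']
    rfl

theorem fixedBy_iff' {σ : ℂ ≃+* ℂ} {G : Type} {χ : G → ℂ} : FixedBy σ χ ↔ gal σ χ = χ :=
  funext_iff.symm

theorem gal_prime {σ : ℂ ≃+* ℂ} {p : ℕ} {G : Type} [Group G] {χ : G → ℂ} (h : PrimeDeg p χ) :
    PrimeDeg p (gal σ χ) := by
  obtain ⟨n, hn, hp⟩ := h
  exact ⟨n, by rw [gal, ← hn, map_natCast], hp⟩

variable {p : ℕ} [hp : Fact p.Prime] {σ : ℂ ≃+* ℂ}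

theorem odd_levels (hp2 : p ≠ 2) : ∀ (a : ℕ) (G : Type) [Group G] [Finite G] (P : Sylow p G),
    OddOn σ G → OddOn σ (Subgroup.normalizer ((P : Subgroup G) : Set G)) →
    ∀ Q : Sylow p (WrN a G), OddOn σ (WrN a G) ∧
      OddOn σ (Subgroup.normalizer ((Q : Subgroup (WrN a G)) : Set (WrN a G))) := by
  intro a
  induction a with
  | zero =>
    intro G _ _ P h1 h2 Q
    obtain ⟨e⟩ := norm_equiv P Q
    exact ⟨h1, oddOn_congr e.symm h2⟩
  | succ a ih =>
    intro G _ _ P h1 h2 Q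
    obtain ⟨R, o1, o2, e1, e2⟩ := wr_pair hp2 G P h1 h2
    exact ih (Wr G) R o1 o2 Q

omit hp in
theorem bij_of_numFixed (G H : Type) [Group G] [Finite G] [Group H] [Finite H] (h1 : OddOn σ G)
    (h2 : OddOn σ H) (h : ∀ k : ℕ, 0 < k → numFixed p (σ ^ k) G = numFixed p (σ ^ k) H) :
    EquivariantBijection p σ G H := by
  have := Fintype.ofFinite G
  have := Fintype.ofFinite H
  have key : ∀ (K : Type) [Group K] [Fintype K] (k : ℕ)
      (d : DecidablePred fun χ : K → ℂ => (gal σ)^[k] χ = χ),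
      (@Finset.filter _ _ d ((Irr K).filter fun χ => PrimeDeg p χ)).card =
        numFixed p (σ ^ k) K := by
    intro K _ _ k d
    unfold numFixed
    rw [card_filter_eq]
    congr 1
    ext χ
    simp only [Finset.mem_filter, and_assoc]
    refine and_congr_right fun _ => and_congr_right fun _ => ?_
    rw [gal_iter, fixedBy_iff']
  have per : ∀ (K : Type) [Group K] [Fintype K], OddOn σ K → ∀ χ ∈ (Irr K).filter fun χ => PrimeDeg p χ,
      χ ∈ Function.periodicPts (gal σ) := by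
    intro K _ _ ho χ hχ
    obtain ⟨m, hm, hf⟩ := ho
    refine ⟨m, hm.pos, ?_⟩
    change (gal σ)^[m] χ = χ
    rw [gal_iter]
    exact fixedBy_iff'.mp (hf χ (mem_Irr.mp (Finset.mem_filter.mp hχ).1))
  have inv : ∀ (K : Type) [Group K] [Fintype K], ∀ χ ∈ (Irr K).filter fun χ => PrimeDeg p χ,
      gal σ χ ∈ (Irr K).filter fun χ => PrimeDeg p χ := by
    intro K _ _ χ hχ
    rw [Finset.mem_filter, mem_Irr] at hχ ⊢
    exact ⟨irr_gal σ hχ.1, gal_prime hχ.2⟩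
  obtain ⟨f, hf, hfs⟩ := perm_iso (gal_inj σ (G := G)) (gal_inj σ (G := H)) _
    ((Irr G).filter fun χ => PrimeDeg p χ) ((Irr H).filter fun χ => PrimeDeg p χ) rfl
    (inv G) (inv H) (per G h1) (per H h2) (fun k hk => by rw [key G k, key H k, h k hk])
  have eA : ∀ (K : Type) [Group K] [Fintype K],
      (((Irr K).filter fun χ => PrimeDeg p χ : Finset (K → ℂ)) : Set (K → ℂ)) = IrrPrime p K := by
    intro K _ _
    ext χ
    simp only [Finset.coe_filter, mem_Irr, Set.mem_ofPred_eq, IrrPrime]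
  rw [eA G, eA H] at hf
  refine ⟨hf.equiv f, fun χ => ⟨⟨irr_gal σ χ.2.1, gal_prime χ.2.2⟩, ?_⟩⟩
  exact hfs χ (by rw [Finset.mem_filter, mem_Irr]; exact χ.2)

omit hp in
theorem numFixed_of_bij (G H : Type) [Group G] [Group H] (h : EquivariantBijection p σ G H)
    (k : ℕ) : numFixed p (σ ^ k) G = numFixed p (σ ^ k) H := by
  obtain ⟨f, hf⟩ := h
  -- the bijection commutes with all powers
  have hk : ∀ (k : ℕ) (χ : IrrPrime p G), ∃ h : gal (σ ^ k) (χ : G → ℂ) ∈ IrrPrime p G,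
      (f ⟨gal (σ ^ k) (χ : G → ℂ), h⟩ : H → ℂ) = gal (σ ^ k) (f χ : H → ℂ) := by
    intro k
    induction k with
    | zero => exact fun χ => ⟨χ.2, rfl⟩
    | succ k ih =>
      intro χ
      obtain ⟨h1, h2⟩ := ih χ
      obtain ⟨h3, h4⟩ := hf ⟨_, h1⟩
      have e1 : gal (σ ^ (k + 1)) (χ : G → ℂ) = fun g => σ (gal (σ ^ k) (χ : G → ℂ) g) := by
        rw [pow_succ']; rfl
      refine ⟨e1 ▸ h3, ?_⟩
      have e2 : (⟨gal (σ ^ (k + 1)) (χ : G → ℂ), e1 ▸ h3⟩ : IrrPrime p G) =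
          ⟨fun g => σ (gal (σ ^ k) (χ : G → ℂ) g), h3⟩ := Subtype.ext e1
      rw [e2, h4, h2, pow_succ']
      rfl
  unfold numFixed
  refine Nat.card_congr
    { toFun := fun χ => ⟨f ⟨χ.1, χ.2.1, χ.2.2.1⟩, (f ⟨χ.1, χ.2.1, χ.2.2.1⟩).2.1,
        (f ⟨χ.1, χ.2.1, χ.2.2.1⟩).2.2, ?_⟩
      invFun := fun χ => ⟨f.symm ⟨χ.1, χ.2.1, χ.2.2.1⟩, (f.symm ⟨χ.1, χ.2.1, χ.2.2.1⟩).2.1,
        (f.symm ⟨χ.1, χ.2.1, χ.2.2.1⟩).2.2, ?_⟩
      left_inv := fun χ => by
        have h := f.symm_apply_apply ⟨χ.1, χ.2.1, χ.2.2.1⟩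
        exact Subtype.ext (congrArg (fun z : IrrPrime p G => (z : G → ℂ)) h)
      right_inv := fun χ => by
        have h := f.apply_symm_apply ⟨χ.1, χ.2.1, χ.2.2.1⟩
        exact Subtype.ext (congrArg (fun z : IrrPrime p H => (z : H → ℂ)) h) }
  · rw [fixedBy_iff']
    obtain ⟨h1, h2⟩ := hk k ⟨χ.1, χ.2.1, χ.2.2.1⟩
    change gal (σ ^ k) _ = _
    rw [← h2]
    congr 2
    exact Subtype.ext (fixedBy_iff'.mp χ.2.2.2)
  · rw [fixedBy_iff']
    obtain ⟨h1, h2⟩ := hk k (f.symm ⟨χ.1, χ.2.1, χ.2.2.1⟩)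
    rw [Equiv.apply_symm_apply] at h2
    have h3 : f ⟨gal (σ ^ k) (f.symm ⟨χ.1, χ.2.1, χ.2.2.1⟩ : G → ℂ), h1⟩ =
        ⟨χ.1, χ.2.1, χ.2.2.1⟩ := Subtype.ext (h2.trans (fixedBy_iff'.mp χ.2.2.2))
    have h4 := congrArg f.symm h3
    rw [Equiv.symm_apply_apply] at h4
    exact congrArg Subtype.val h4

/-- the criterion for one group -/
theorem one_group (hp2 : p ≠ 2) (G : Type) [Group G] [Finite G] (P : Sylow p G) (h1 : OddOn σ G)
    (h2 : OddOn σ (Subgroup.normalizer ((P : Subgroup G) : Set G))) :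
    EquivariantBijection p σ G (Subgroup.normalizer ((P : Subgroup G) : Set G)) ↔
      ∀ k j : ℕ, 2 ^ j ≤ Nat.card G → ∀ Q : Sylow p (WrN j G),
        numFixed p (σ ^ k) (WrN j G) ≡
          numFixed p (σ ^ k) (Subgroup.normalizer ((Q : Subgroup (WrN j G)) : Set (WrN j G)))
          [MOD 2] := by
  constructor
  · intro h k j _ Q
    rw [eq_levels hp2 j G P (oddOn_pow h1 k) (oddOn_pow h2 k) (numFixed_of_bij _ _ h k) Q]
  · intro H
    exact bij_of_numFixed _ _ h1 h2 fun k _ =>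
      criterion hp2 G P (oddOn_pow h1 k) (oddOn_pow h2 k) (H k)

theorem all_groups (hp2 : p ≠ 2) :
    (∀ (G : Type) [Group G] [Finite G] (P : Sylow p G), OddOn σ G →
      OddOn σ (Subgroup.normalizer ((P : Subgroup G) : Set G)) →
      EquivariantBijection p σ G (Subgroup.normalizer ((P : Subgroup G) : Set G))) ↔
    (∀ (G : Type) [Group G] [Finite G] (P : Sylow p G), OddOn σ G →
      OddOn σ (Subgroup.normalizer ((P : Subgroup G) : Set G)) → ∀ k : ℕ,
      numFixed p (σ ^ k) G ≡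
        numFixed p (σ ^ k) (Subgroup.normalizer ((P : Subgroup G) : Set G)) [MOD 2]) := by
  constructor
  · intro H G _ _ P h1 h2 k
    rw [numFixed_of_bij _ _ (H G P h1 h2) k]
  · intro H G _ _ P h1 h2
    rw [one_group hp2 G P h1 h2]
    intro k j _ Q
    obtain ⟨o1, o2⟩ := odd_levels hp2 j G P h1 h2 Q
    exact H (WrN j G) Q o1 o2 k

end Pool.Agent.Q90.WR
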