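import Pool.Agent.Q90.WR.Dae

/-!
# Dade's sums are determined by parities
-/

set_option autoImplicit false

open scoped BigOperators Classical

noncomputable section

namespace Pool.Agent.Q90.WR

open Pool.Agent.Y63.KR Pool.Agent.Helper884.IC
open Pool.Agent.Y63.AWC (IsIrreducibleCharacter)

variable {p : ℕ} [hp : Fact p.Prime]

theorem dade_step (hp2 : p ≠ 2) {a : ℕ} {G : Type} [Group G] [Fintype G]
    (h : ∀ d, 0 < d → (2 : ℤ) ^ (a + 1) ∣ dadeSum p d G)
    (hw : ∀ d, 0 < d → (2 : ℤ) ^ (a + 1) ∣ dadeSum p d (Wr G)) (d : ℕ) (hd : 0 < d) :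
    (2 : ℤ) ^ (a + 2) ∣ dadeSum p d G := by
  obtain ⟨m, hm⟩ : ∃ m, 2 * d = m + 1 + 1 := ⟨2 * d - 2, by omega⟩
  have h1 := dade_wr (p := p) (G := G) hp2 (2 * d)
  rw [if_pos (dvd_mul_right 2 d), Nat.mul_div_cancel_left d two_pos, hm,
    Finset.Nat.sum_antidiagonal_succ, Finset.Nat.sum_antidiagonal_succ'] at h1
  simp only at h1
  have h2 : (2 : ℤ) ^ (a + 2) ∣ 2 * dadeSum p (m + 1 + 1) (Wr G) := by
    obtain ⟨c, hc⟩ := hw (m + 1 + 1) (by omega)
    exact ⟨c, by rw [hc]; ring⟩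
  have h3 : (2 : ℤ) ^ (a + 2) ∣ ∑ t ∈ Finset.HasAntidiagonal.antidiagonal m,
      dadeSum p (t.1 + 1) G * dadeSum p (t.2 + 1) G := by
    refine Finset.dvd_sum fun t _ => ?_
    obtain ⟨c, hc⟩ := h (t.1 + 1) (by omega)
    obtain ⟨c', hc'⟩ := h (t.2 + 1) (by omega)
    exact ⟨2 ^ a * (c * c'), by rw [hc, hc']; ring⟩
  have h4 : (2 : ℤ) ^ (a + 2) ∣ 2 * (dadeSum p 0 G * dadeSum p (m + 1 + 1) G) := by
    obtain ⟨c, hc⟩ := h (m + 1 + 1) (by omega)
    exact ⟨c * dadeSum p 0 G, by rw [hc]; ring⟩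
  have h5 : (2 : ℤ) ^ (a + 2) ∣ 3 * dadeSum p d G := by
    have h6 : 3 * dadeSum p d G = 2 * dadeSum p (m + 1 + 1) (Wr G) -
        (∑ t ∈ Finset.HasAntidiagonal.antidiagonal m,
          dadeSum p (t.1 + 1) G * dadeSum p (t.2 + 1) G) -
        2 * (dadeSum p 0 G * dadeSum p (m + 1 + 1) G) := by
      linarith
    rw [h6]
    exact (h2.sub h3).sub h4
  exact (IsCoprime.dvd_of_dvd_mul_left (IsCoprime.pow_left (by norm_num)) h5)

theorem dade_zero_wr (hp2 : p ≠ 2) {G : Type} [Group G] [Fintype G]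
    (h : ∀ d, 0 < d → dadeSum p d G = 0) (d : ℕ) (hd : 0 < d) : dadeSum p d (Wr G) = 0 := by
  have h1 := dade_wr (p := p) (G := G) hp2 d
  rw [Finset.sum_eq_zero] at h1
  · have h2 : (if 2 ∣ d then dadeSum p (d / 2) G else 0) = 0 := by
      split_ifs with h3
      · exact h _ (by obtain ⟨c, rfl⟩ := h3; omega)
      · rfl
    rw [h2] at h1
    omega
  · intro t ht
    rw [Finset.HasAntidiagonal.mem_antidiagonal] at ht
    by_cases c : t.1 = 0
    · rw [h t.2 (by omega), mul_zero]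
    · rw [h t.1 (by omega), zero_mul]

theorem dade_dvd (hp2 : p ≠ 2) : ∀ (a : ℕ) (G : Type) [Group G] [Finite G],
    (∀ j ≤ a, ∀ d, 0 < d → (2 : ℤ) ∣ dadeSum p d (WrN j G)) →
    ∀ d, 0 < d → (2 : ℤ) ^ (a + 1) ∣ dadeSum p d G := by
  intro a
  induction a with
  | zero =>
    intro G _ _ H
    rw [zero_add, pow_one]
    exact H 0 le_rfl
  | succ a ih =>
    intro G _ _ H
    have := Fintype.ofFinite G
    exact dade_step hp2 (ih G fun j hj => H j (by omega))
      (ih (Wr G) fun j hj => H (j + 1) (by omega))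

theorem dade_levels (hp2 : p ≠ 2) : ∀ (a : ℕ) (G : Type) [Group G] [Finite G],
    (∀ d, 0 < d → dadeSum p d G = 0) → ∀ d, 0 < d → dadeSum p d (WrN a G) = 0 := by
  intro a
  induction a with
  | zero => exact fun G _ _ h => h
  | succ a ih =>
    intro G _ _ h
    have := Fintype.ofFinite G
    exact ih (Wr G) (dade_zero_wr hp2 h)

/-! ### real characters -/

omit hp in
theorem numDef_mod (d : ℕ) (G : Type) [Group G] [Finite G] :
    numDef p d G ≡ numRealDef p d G [MOD 2] := by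
  have := Fintype.ofFinite G
  let Q : (G → ℂ) → Prop := fun χ =>
    ∃ n : ℕ, χ 1 = (n : ℂ) ∧ n.factorization p + d = (Nat.card G).factorization p
  have hfin : Finite {χ : G → ℂ // IsIrreducibleCharacter χ ∧ Q χ} := by
    have : Finite {χ : G → ℂ // χ ∈ Irr G} := inferInstance
    exact Finite.of_injective
      (fun χ : {χ : G → ℂ // IsIrreducibleCharacter χ ∧ Q χ} =>
        (⟨χ.1, mem_Irr.mpr χ.2.1⟩ : {χ : G → ℂ // χ ∈ Irr G}))
      (fun a b hab => Subtype.ext (congrArg (fun z : {χ : G → ℂ // χ ∈ Irr G} => z.1) hab))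
  let σ : ℂ ≃+* ℂ := starRingAut
  have hσ : ∀ z : ℂ, σ z = (starRingEnd ℂ) z := fun _ => rfl
  let f : {χ : G → ℂ // IsIrreducibleCharacter χ ∧ Q χ} →
      {χ : G → ℂ // IsIrreducibleCharacter χ ∧ Q χ} := fun χ =>
    ⟨fun g => σ (χ.1 g), irr_gal σ χ.2.1, by
      obtain ⟨n, hn, h⟩ := χ.2.2
      exact ⟨n, by change σ (χ.1 1) = _; rw [hn, map_natCast], h⟩⟩
  have h := invol_mod f (by
    intro χ
    apply Subtype.ext
    funext g
    change σ (σ (χ.1 g)) = χ.1 g
    rw [hσ, hσ, Complex.conj_conj])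
  refine h.trans ?_
  unfold numRealDef
  rw [show Nat.card {x // f x = x} = Nat.card {χ : G → ℂ // IsIrreducibleCharacter χ ∧
    (∃ n : ℕ, χ 1 = (n : ℂ) ∧ n.factorization p + d = (Nat.card G).factorization p) ∧
    ∀ g, (χ g).im = 0} from Nat.card_congr
      { toFun := fun x => ⟨x.1.1, x.1.2.1, x.1.2.2, fun g => by
          have h1 := congrFun (congrArg Subtype.val x.2) g
          exact Complex.conj_eq_iff_im.mp h1⟩
        invFun := fun y => ⟨⟨y.1, y.2.1, y.2.2.1⟩, by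
          apply Subtype.ext
          funext g
          exact Complex.conj_eq_iff_im.mpr (y.2.2.2 g)⟩
        left_inv := fun x => rfl
        right_inv := fun y => rfl }]

omit hp in
theorem dade_mod (d : ℕ) (G : Type) [Group G] [Finite G] :
    dadeSum p d G ≡ realDadeSum p d G [ZMOD 2] := by
  have : Fintype (Quotient (chainSetoid p G)) := Fintype.ofFinite _
  unfold dadeSum realDadeSum alternatingSum
  rw [finsum_eq_sum_of_fintype, finsum_eq_sum_of_fintype, Nat.cast_sum]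
  refine Int.ModEq.sum fun c _ => ?_
  have h1 := (Int.natCast_modEq_iff).mpr (numDef_mod (p := p) d (chainStabilizer c.out.1))
  have h2 : ((-1 : ℤ)) ^ c.out.1.ncard ≡ 1 [ZMOD 2] := by
    rcases neg_one_pow_eq_or ℤ c.out.1.ncard with h | h
    · rw [h]
    · rw [h]; decide
  have h3 := h2.mul h1
  rw [one_mul] at h3
  exact h3

omit hp in
theorem dade_parity (d : ℕ) (G : Type) [Group G] [Finite G] :
    Even (realDadeSum p d G) ↔ (2 : ℤ) ∣ dadeSum p d G := by
  have h := dade_mod (p := p) d G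
  rw [Int.ModEq] at h
  rw [even_iff_two_dvd, ← Int.natCast_dvd_natCast]
  constructor
  · intro h1
    omega
  · intro h1
    omega

/-! ### groups without normal `p`-subgroups -/

theorem Op_wr (hp2 : p ≠ 2) {G : Type} [Group G]
    (h : ∀ P : Subgroup G, P.Normal → IsPGroup p P → P = ⊥) (P : Subgroup (Wr G))
    (hn : P.Normal) (hP : IsPGroup p P) : P = ⊥ := by
  have hc : ∀ x : Wr G, conjSub x P = P := by
    intro x
    rw [conjSub_eq_iff, Subgroup.normalizer_eq_top_iff.mpr hn]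
    trivial
  have hnorm : ∀ Q : Subgroup G, (∀ x, conjSub x Q = Q) → Q.Normal := by
    intro Q hQ
    rw [← Subgroup.normalizer_eq_top_iff, eq_top_iff]
    intro x _
    rw [← conjSub_eq_iff]
    exact hQ x
  have h1 : pr1 P = ⊥ := h _ (hnorm _ fun x => by
    rw [← (conj_false x 1 P).1, hc]) (isPGroup_pr1 hP)
  have h2 : pr2 P = ⊥ := h _ (hnorm _ fun x => by
    rw [← (conj_false 1 x P).2, hc]) (isPGroup_pr2 hP)
  rw [eq_bot_iff, ← prd_bot, le_prd hp2 hP, h1, h2]
  exact ⟨le_rfl, le_rfl⟩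

theorem Op_wrN (hp2 : p ≠ 2) : ∀ (j : ℕ) (G : Type) [Group G],
    (∀ P : Subgroup G, P.Normal → IsPGroup p P → P = ⊥) →
    ∀ P : Subgroup (WrN j G), P.Normal → IsPGroup p P → P = ⊥ := by
  intro j
  induction j with
  | zero => exact fun G _ h => h
  | succ j ih => exact fun G _ h => ih (Wr G) (Op_wr hp2 h)

/-- for one group -/
theorem dade_one (hp2 : p ≠ 2) (G : Type) [Group G] [Finite G] :
    (∀ d, 0 < d → dadeSum p d G = 0) ↔
      ∀ j d : ℕ, 0 < d → Even (realDadeSum p d (WrN j G)) := by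
  simp_rw [dade_parity]
  constructor
  · intro h j d hd
    rw [dade_levels hp2 j G h d hd]
    exact dvd_zero _
  · intro h d hd
    exact eq_of_all fun a => by
      rw [sub_zero]
      exact dade_dvd hp2 a G (fun j _ => h j) d hd

/-- for all groups without normal `p`-subgroups -/
theorem dade_all (hp2 : p ≠ 2) :
    (∀ (G : Type) [Group G] [Finite G], (∀ P : Subgroup G, P.Normal → IsPGroup p P → P = ⊥) →
      ∀ d, 0 < d → dadeSum p d G = 0) ↔
    ∀ (G : Type) [Group G] [Finite G], (∀ P : Subgroup G, P.Normal → IsPGroup p P → P = ⊥) →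
      ∀ d, 0 < d → Even (realDadeSum p d G) := by
  constructor
  · intro h G _ _ hG d hd
    rw [dade_parity, h G hG d hd]
    exact dvd_zero _
  · intro h G _ _ hG
    rw [dade_one hp2]
    exact fun j => h (WrN j G) (Op_wrN hp2 j G hG)

end Pool.Agent.Q90.WR
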