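import Pool.Agent.Q90.WR.Rep

/-!
# The irreducible characters of the wreath product `G ≀ C₂`
-/

set_option autoImplicit false

open scoped BigOperators Classical TensorProduct

noncomputable section

namespace Pool.Agent.Q90.WR

open Pool.Agent.Helper884.IC Representation

variable {G : Type} [Group G] [Fintype G]

theorem two_card_ne : (2 * (Nat.card G : ℂ) ^ 2) ≠ 0 :=
  mul_ne_zero two_ne_zero (pow_ne_zero _ cardG_ne)

theorem B_ind_ind (θ₁ θ₂ ψ₁ ψ₂ : G → ℂ) :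
    B (ind2 θ₁ θ₂) (ind2 ψ₁ ψ₂) = B θ₁ ψ₁ * B θ₂ ψ₂ + B θ₁ ψ₂ * B θ₂ ψ₁ := by
  have h := B_wr (ind2 θ₁ θ₂) (ind2 ψ₁ ψ₂)
  have h1 : ∀ a b : G, ind2 θ₁ θ₂ ⟨a, b, false⟩ * ind2 ψ₁ ψ₂ ⟨a⁻¹, b⁻¹, false⟩ =
      θ₁ a * θ₂ b * (ψ₁ a⁻¹ * ψ₂ b⁻¹) + θ₁ a * θ₂ b * (ψ₂ a⁻¹ * ψ₁ b⁻¹) +
      (θ₂ a * θ₁ b * (ψ₁ a⁻¹ * ψ₂ b⁻¹) + θ₂ a * θ₁ b * (ψ₂ a⁻¹ * ψ₁ b⁻¹)) := by
    intro a b
    simp only [ind2]
    ring
  have h2 : ∀ a b : G, ind2 θ₁ θ₂ ⟨a, b, true⟩ * ind2 ψ₁ ψ₂ ⟨b⁻¹, a⁻¹, true⟩ = 0 := by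
    intro a b
    simp [ind2]
  simp_rw [h1, h2, Finset.sum_add_distrib, sum_prod] at h
  simp only [Finset.sum_const_zero, add_zero] at h
  apply mul_left_cancel₀ (two_card_ne (G := G))
  rw [h]
  ring

theorem B_ext_ext (ε ε' : ℂ) (θ ψ : G → ℂ) :
    B (ext2 ε θ) (ext2 ε' ψ) = (B θ ψ ^ 2 + ε * ε' * B θ ψ) / 2 := by
  have h := B_wr (ext2 ε θ) (ext2 ε' ψ)
  have h1 : ∀ a b : G, ext2 ε θ ⟨a, b, false⟩ * ext2 ε' ψ ⟨a⁻¹, b⁻¹, false⟩ =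
      θ a * θ b * (ψ a⁻¹ * ψ b⁻¹) := fun a b => rfl
  have h2 : ∀ a b : G, ext2 ε θ ⟨a, b, true⟩ * ext2 ε' ψ ⟨b⁻¹, a⁻¹, true⟩ =
      ε * ε' * (θ (a * b) * ψ (b⁻¹ * a⁻¹)) := by
    intro a b
    simp only [ext2]
    ring
  simp_rw [h1, h2, ← Finset.mul_sum, sum_prod, sum_conv] at h
  apply mul_left_cancel₀ (two_card_ne (G := G))
  rw [h]
  ring

theorem B_ind_ext (ε : ℂ) (θ₁ θ₂ ψ : G → ℂ) :
    B (ind2 θ₁ θ₂) (ext2 ε ψ) = B θ₁ ψ * B θ₂ ψ := by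
  have h := B_wr (ind2 θ₁ θ₂) (ext2 ε ψ)
  have h1 : ∀ a b : G, ind2 θ₁ θ₂ ⟨a, b, false⟩ * ext2 ε ψ ⟨a⁻¹, b⁻¹, false⟩ =
      θ₁ a * θ₂ b * (ψ a⁻¹ * ψ b⁻¹) + θ₂ a * θ₁ b * (ψ a⁻¹ * ψ b⁻¹) := by
    intro a b
    simp only [ind2, ext2]
    ring
  have h2 : ∀ a b : G, ind2 θ₁ θ₂ ⟨a, b, true⟩ * ext2 ε ψ ⟨b⁻¹, a⁻¹, true⟩ = 0 := by
    intro a b
    simp [ind2]
  simp_rw [h1, h2, Finset.sum_add_distrib, sum_prod] at h
  simp only [Finset.sum_const_zero, add_zero] at h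
  apply mul_left_cancel₀ (two_card_ne (G := G))
  rw [h]
  ring

/-- for a class function, the inner product with an induced character -/
theorem B_fun_ind {f : Wr G → ℂ} (hf : IsClass f) (ψ₁ ψ₂ : G → ℂ) :
    (Nat.card G : ℂ) ^ 2 * B f (ind2 ψ₁ ψ₂) =
      ∑ a : G, ∑ b : G, f ⟨a, b, false⟩ * (ψ₁ a⁻¹ * ψ₂ b⁻¹) := by
  have h := B_wr f (ind2 ψ₁ ψ₂)
  have h1 : ∀ a b : G, f ⟨a, b, false⟩ * ind2 ψ₁ ψ₂ ⟨a⁻¹, b⁻¹, false⟩ =
      f ⟨a, b, false⟩ * (ψ₁ a⁻¹ * ψ₂ b⁻¹) + f ⟨b, a, false⟩ * (ψ₁ b⁻¹ * ψ₂ a⁻¹) := by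
    intro a b
    rw [class_swap hf a b]
    simp only [ind2]
    ring
  have h2 : ∀ a b : G, f ⟨a, b, true⟩ * ind2 ψ₁ ψ₂ ⟨b⁻¹, a⁻¹, true⟩ = 0 := by
    intro a b
    simp [ind2]
  simp_rw [h1, h2, Finset.sum_add_distrib] at h
  simp only [Finset.sum_const_zero, add_zero] at h
  have h3 : ∑ a : G, ∑ b : G, f ⟨b, a, false⟩ * (ψ₁ b⁻¹ * ψ₂ a⁻¹) =
      ∑ a : G, ∑ b : G, f ⟨a, b, false⟩ * (ψ₁ a⁻¹ * ψ₂ b⁻¹) := Finset.sum_comm
  rw [h3] at h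
  apply mul_left_cancel₀ (two_ne_zero (α := ℂ))
  linear_combination h

theorem B_fun_ext (f : Wr G → ℂ) (ε : ℂ) (ψ : G → ℂ) :
    2 * (Nat.card G : ℂ) ^ 2 * B f (ext2 ε ψ) =
      ∑ a : G, ∑ b : G, f ⟨a, b, false⟩ * (ψ a⁻¹ * ψ b⁻¹) +
        ε * ∑ a : G, ∑ b : G, f ⟨a, b, true⟩ * ψ (b⁻¹ * a⁻¹) := by
  rw [B_wr, Finset.mul_sum]
  congr 1
  refine Finset.sum_congr rfl fun a _ => ?_
  rw [Finset.mul_sum]
  refine Finset.sum_congr rfl fun b _ => ?_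
  simp only [ext2]
  ring

theorem ext2_irr {θ : G → ℂ} (h : IsIrrChar θ) {ε : ℂ} (hε : ε * ε = 1) :
    IsIrrChar (ext2 ε θ) := by
  obtain ⟨V, _, _, _, ρ, hρ, rfl⟩ := id h
  have hc : IsClass (ext2 ε ρ.character) := by
    rw [← extRep_char ρ ε hε]
    exact isClass_char _
  refine irr_of_norm hc ?_ ?_ ?_
  · intro χ hχ
    obtain ⟨W, _, _, _, σ, hσ, rfl⟩ := hχ
    obtain ⟨n, hn⟩ := B_nat (extRep ρ ε hε) σ
    rw [extRep_char] at hn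
    exact ⟨n, by rw [hn]; norm_cast⟩
  · rw [B_ext_ext, B_irr h h, if_pos rfl, hε]
    norm_num
  · refine ⟨Module.finrank ℂ V ^ 2, ?_⟩
    change ρ.character 1 * ρ.character 1 = _
    rw [char_one]
    push_cast
    ring

theorem ind2_irr {θ₁ θ₂ : G → ℂ} (h1 : IsIrrChar θ₁) (h2 : IsIrrChar θ₂) (hne : θ₁ ≠ θ₂) :
    IsIrrChar (ind2 θ₁ θ₂) := by
  refine irr_of_norm (ind2_class h1.isClass h2.isClass) ?_ ?_ ?_
  · intro χ hχ
    have hcl := hχ.isClass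
    obtain ⟨V₁, _, _, _, ρ₁, _, rfl⟩ := id h1
    obtain ⟨V₂, _, _, _, ρ₂, _, rfl⟩ := id h2
    obtain ⟨W, _, _, _, σ, _, rfl⟩ := hχ
    obtain ⟨n, hn⟩ := B_nat (σ.comp (Wr.base G))
      (Representation.tprod (ρ₁.comp (MonoidHom.fst G G)) (ρ₂.comp (MonoidHom.snd G G)))
    have h3 := B_fun_ind hcl ρ₁.character ρ₂.character
    rw [B_comm]
    refine ⟨n, ?_⟩
    rw [Int.cast_natCast, ← hn]
    apply mul_left_cancel₀ (pow_ne_zero 2 (cardG_ne (G := G)))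
    rw [h3]
    unfold B
    rw [char_tensor, Nat.card_prod, Fintype.sum_prod_type]
    have := cardG_ne (G := G)
    push_cast
    have h4 : ((Nat.card G : ℂ)) ^ 2 * ((Nat.card G : ℂ) * (Nat.card G : ℂ))⁻¹ = 1 := by
      field_simp
    rw [← mul_assoc, h4, one_mul]
    rfl
  · rw [B_ind_ind, B_irr h1 h1, B_irr h2 h2, B_irr h1 h2, B_irr h2 h1, if_pos rfl, if_pos rfl,
      if_neg hne, if_neg hne.symm]
    norm_num
  · obtain ⟨m, -, hm⟩ := deg_pos h1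
    obtain ⟨n, -, hn⟩ := deg_pos h2
    refine ⟨m * n + n * m, ?_⟩
    change θ₁ 1 * θ₂ 1 + θ₂ 1 * θ₁ 1 = _
    rw [hm, hn]
    push_cast
    ring

/-- a symmetric function in two variables orthogonal to all products of characters is zero -/
theorem eq_zero_of_orth {f : Wr G → ℂ} (hf : IsClass f)
    (h : ∀ ψ₁ ψ₂ : G → ℂ, IsIrrChar ψ₁ → IsIrrChar ψ₂ →
      ∑ a : G, ∑ b : G, f ⟨a, b, false⟩ * (ψ₁ a⁻¹ * ψ₂ b⁻¹) = 0) (a b : G) :
    f ⟨a, b, false⟩ = 0 := by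
  have hcl1 : ∀ b, IsClass (fun a => f ⟨a, b, false⟩) := by
    intro b g y
    have := class_conj hf g b y 1 false
    simpa [Wr.mk_false_mul, Wr.inv_false] using this
  have hcl2 : ∀ a g y : G, f ⟨a, y * g * y⁻¹, false⟩ = f ⟨a, g, false⟩ := by
    intro a g y
    have := class_conj hf a g 1 y false
    simpa [Wr.mk_false_mul, Wr.inv_false] using this
  have h1 : ∀ ψ₁ : G → ℂ, IsIrrChar ψ₁ →
      (fun b => ∑ a : G, f ⟨a, b, false⟩ * ψ₁ a⁻¹) = 0 := by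
    intro ψ₁ hψ₁
    apply class_eq_zero
    · intro g y
      exact Finset.sum_congr rfl fun a _ => by rw [hcl2]
    · intro ψ₂ hψ₂
      unfold B
      have h2 := h ψ₁ ψ₂ hψ₁ hψ₂
      rw [Finset.sum_comm] at h2
      have h3 : ∑ g : G, (∑ a : G, f ⟨a, g, false⟩ * ψ₁ a⁻¹) * ψ₂ g⁻¹ =
          ∑ y : G, ∑ x : G, f ⟨x, y, false⟩ * (ψ₁ x⁻¹ * ψ₂ y⁻¹) := by
        refine Finset.sum_congr rfl fun y _ => ?_
        rw [Finset.sum_mul]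
        exact Finset.sum_congr rfl fun x _ => by ring
      rw [h3, h2, mul_zero]
  have h2 : (fun a => f ⟨a, b, false⟩) = 0 := by
    apply class_eq_zero _ (hcl1 b)
    intro ψ hψ
    unfold B
    have h3 := congrFun (h1 ψ hψ) b
    simp only [Pi.zero_apply] at h3
    rw [h3, mul_zero]
  exact congrFun h2 a

theorem cover {χ : Wr G → ℂ} (hχ : IsIrrChar χ) :
    (∃ θ₁ θ₂ : G → ℂ, IsIrrChar θ₁ ∧ IsIrrChar θ₂ ∧ θ₁ ≠ θ₂ ∧ χ = ind2 θ₁ θ₂) ∨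
      (∃ θ : G → ℂ, IsIrrChar θ ∧ χ = ext2 1 θ) ∨ ∃ θ : G → ℂ, IsIrrChar θ ∧ χ = ext2 (-1) θ := by
  by_contra hcon
  push Not at hcon
  obtain ⟨c1, c2, c3⟩ := hcon
  have hcl := hχ.isClass
  have hz : ∀ θ, IsIrrChar θ → B χ (ext2 1 θ) = 0 := fun θ hθ => by
    rw [B_irr hχ (ext2_irr hθ (by norm_num)), if_neg (c2 θ hθ)]
  have hz' : ∀ θ, IsIrrChar θ → B χ (ext2 (-1) θ) = 0 := fun θ hθ => by
    rw [B_irr hχ (ext2_irr hθ (by norm_num)), if_neg (c3 θ hθ)]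
  have h0 : ∀ a b : G, χ ⟨a, b, false⟩ = 0 := by
    apply eq_zero_of_orth hcl
    intro ψ₁ ψ₂ h1 h2
    by_cases h : ψ₁ = ψ₂
    · subst h
      have e1 := B_fun_ext χ 1 ψ₁
      have e2 := B_fun_ext χ (-1) ψ₁
      rw [hz _ h1] at e1
      rw [hz' _ h1] at e2
      linear_combination (-e1 - e2) / 2
    · rw [← B_fun_ind hcl, B_irr hχ (ind2_irr h1 h2 h), if_neg (c1 _ _ h1 h2 h), mul_zero]
  have h1 : (fun k => χ ⟨k, 1, true⟩) = (0 : G → ℂ) := by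
    apply class_eq_zero
    · intro g y
      have := class_conj hcl g 1 y y true
      simpa [Wr.mk_false_mul, Wr.mk_true_mul, Wr.inv_false] using this
    · intro ψ hψ
      have e1 := B_fun_ext χ 1 ψ
      rw [hz _ hψ] at e1
      simp_rw [h0] at e1
      simp only [zero_mul, Finset.sum_const_zero, mul_zero, zero_add, one_mul] at e1
      have e2 := sum_conv (fun k => χ ⟨k, 1, true⟩) ψ
      have e3 : ∑ a : G, ∑ b : G, (fun k => χ ⟨k, 1, true⟩) (a * b) * ψ (b⁻¹ * a⁻¹) =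
          ∑ a : G, ∑ b : G, χ ⟨a, b, true⟩ * ψ (b⁻¹ * a⁻¹) := by
        refine Finset.sum_congr rfl fun a _ => Finset.sum_congr rfl fun b _ => ?_
        rw [class_true hcl a b]
      rw [e3, ← e1] at e2
      have := pow_ne_zero 2 (cardG_ne (G := G))
      exact (mul_eq_zero.mp e2.symm).resolve_left this
  have h2 : χ = 0 := by
    funext x
    obtain ⟨a, b, s⟩ := x
    cases s
    · exact h0 a b
    · rw [class_true hcl a b]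
      exact congrFun h1 (a * b)
  have h3 := B_irr hχ hχ
  rw [if_pos rfl, h2] at h3
  simp [B] at h3

theorem ind2_comm (θ₁ θ₂ : G → ℂ) : ind2 θ₁ θ₂ = ind2 θ₂ θ₁ := by
  funext x
  obtain ⟨a, b, s⟩ := x
  cases s
  · simp only [ind2]; ring
  · rfl

theorem ind2_inj {θ₁ θ₂ ψ₁ ψ₂ : G → ℂ} (h1 : IsIrrChar θ₁) (h2 : IsIrrChar θ₂) (h3 : IsIrrChar ψ₁)
    (h4 : IsIrrChar ψ₂) (hne : θ₁ ≠ θ₂) (h : ind2 θ₁ θ₂ = ind2 ψ₁ ψ₂) :
    (θ₁ = ψ₁ ∧ θ₂ = ψ₂) ∨ (θ₁ = ψ₂ ∧ θ₂ = ψ₁) := by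
  have e := B_ind_ind θ₁ θ₂ ψ₁ ψ₂
  rw [← h, B_irr (ind2_irr h1 h2 hne) (ind2_irr h1 h2 hne), if_pos rfl, B_irr h1 h3, B_irr h2 h4,
    B_irr h1 h4, B_irr h2 h3] at e
  by_contra hcon
  push Not at hcon
  obtain ⟨c1, c2⟩ := hcon
  have z1 : (if θ₁ = ψ₁ then (1 : ℂ) else 0) * (if θ₂ = ψ₂ then 1 else 0) = 0 := by
    by_cases h : θ₁ = ψ₁
    · rw [if_neg (c1 h), mul_zero]
    · rw [if_neg h, zero_mul]
  have z2 : (if θ₁ = ψ₂ then (1 : ℂ) else 0) * (if θ₂ = ψ₁ then 1 else 0) = 0 := by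
    by_cases h : θ₁ = ψ₂
    · rw [if_neg (c2 h), mul_zero]
    · rw [if_neg h, zero_mul]
  rw [z1, z2] at e
  norm_num at e

theorem ext2_inj {θ ψ : G → ℂ} (h1 : IsIrrChar θ) (h2 : IsIrrChar ψ) {ε ε' : ℂ} (hε : ε * ε = 1)
    (hε' : ε' * ε' = 1) (h : ext2 ε θ = ext2 ε' ψ) : θ = ψ ∧ ε = ε' := by
  have e := B_ext_ext ε ε' θ ψ
  rw [← h, B_irr (ext2_irr h1 hε) (ext2_irr h1 hε), if_pos rfl, B_irr h1 h2] at e
  by_cases hc : θ = ψ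
  · rw [if_pos hc] at e
    refine ⟨hc, ?_⟩
    have e' : ε * ε' = 1 := by linear_combination -2 * e
    linear_combination (-ε) * hε' + ε' * e'
  · rw [if_neg hc] at e
    norm_num at e

theorem ind2_ne_ext2 {θ₁ θ₂ ψ : G → ℂ} (h1 : IsIrrChar θ₁) (h2 : IsIrrChar θ₂) (h3 : IsIrrChar ψ)
    (hne : θ₁ ≠ θ₂) {ε : ℂ} : ind2 θ₁ θ₂ ≠ ext2 ε ψ := by
  intro h
  have e := B_ind_ext ε θ₁ θ₂ ψ
  rw [← h, B_irr (ind2_irr h1 h2 hne) (ind2_irr h1 h2 hne), if_pos rfl, B_irr h1 h3,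
    B_irr h2 h3] at e
  by_cases hc : θ₁ = ψ
  · rw [if_neg (fun h' : θ₂ = ψ => hne (hc.trans h'.symm)), mul_zero] at e
    exact one_ne_zero e
  · rw [if_neg hc, zero_mul] at e
    exact one_ne_zero e


theorem Irr_eq : Irr (Wr G) =
    ((Irr G).offDiag.image fun t => ind2 t.1 t.2) ∪
      ((Irr G).image (ext2 1) ∪ (Irr G).image (ext2 (-1))) := by
  ext χ
  simp only [Finset.mem_union, Finset.mem_image, Finset.mem_offDiag, mem_Irr, Prod.exists]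
  constructor
  · intro h
    rcases cover h with ⟨θ₁, θ₂, h1, h2, hne, rfl⟩ | ⟨θ, h1, rfl⟩ | ⟨θ, h1, rfl⟩
    · exact Or.inl ⟨θ₁, θ₂, ⟨h1, h2, hne⟩, rfl⟩
    · exact Or.inr (Or.inl ⟨θ, h1, rfl⟩)
    · exact Or.inr (Or.inr ⟨θ, h1, rfl⟩)
  · rintro (⟨θ₁, θ₂, ⟨h1, h2, hne⟩, rfl⟩ | ⟨θ, h1, rfl⟩ | ⟨θ, h1, rfl⟩)
    · exact ind2_irr h1 h2 hne
    · exact ext2_irr h1 (by norm_num)
    · exact ext2_irr h1 (by norm_num)

/-- the number of irreducible characters of the wreath product with a given property -/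
theorem count (Q : (Wr G → ℂ) → Prop) :
    2 * ((Irr (Wr G)).filter Q).card =
      ((Irr G).offDiag.filter fun t => Q (ind2 t.1 t.2)).card +
        2 * ((Irr G).filter fun θ => Q (ext2 1 θ)).card +
        2 * ((Irr G).filter fun θ => Q (ext2 (-1) θ)).card := by
  have hd1 : Disjoint ((Irr G).image (ext2 1)) ((Irr G).image (ext2 (-1))) := by
    rw [Finset.disjoint_left]
    intro χ h1 h2
    obtain ⟨θ, hθ, rfl⟩ := Finset.mem_image.mp h1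
    obtain ⟨ψ, hψ, h⟩ := Finset.mem_image.mp h2
    have h3 := (ext2_inj (mem_Irr.mp hψ) (mem_Irr.mp hθ) (by norm_num) (by norm_num) h).2
    norm_num at h3
  have hd2 : Disjoint ((Irr G).offDiag.image fun t => ind2 t.1 t.2)
      ((Irr G).image (ext2 1) ∪ (Irr G).image (ext2 (-1))) := by
    rw [Finset.disjoint_left]
    intro χ h1 h2
    obtain ⟨t, ht, rfl⟩ := Finset.mem_image.mp h1
    rw [Finset.mem_offDiag] at ht
    rcases Finset.mem_union.mp h2 with h2 | h2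
    · obtain ⟨ψ, hψ, h⟩ := Finset.mem_image.mp h2
      exact ind2_ne_ext2 (mem_Irr.mp ht.1) (mem_Irr.mp ht.2.1) (mem_Irr.mp hψ) ht.2.2 h.symm
    · obtain ⟨ψ, hψ, h⟩ := Finset.mem_image.mp h2
      exact ind2_ne_ext2 (mem_Irr.mp ht.1) (mem_Irr.mp ht.2.1) (mem_Irr.mp hψ) ht.2.2 h.symm
  rw [Irr_eq, Finset.filter_union, Finset.filter_union,
    Finset.card_union_of_disjoint (Finset.disjoint_of_subset_left (Finset.filter_subset _ _)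
      (Finset.disjoint_of_subset_right (Finset.union_subset_union (Finset.filter_subset _ _)
        (Finset.filter_subset _ _)) hd2)),
    Finset.card_union_of_disjoint (Finset.disjoint_of_subset_left (Finset.filter_subset _ _)
      (Finset.disjoint_of_subset_right (Finset.filter_subset _ _) hd1)),
    Finset.filter_image, Finset.filter_image, Finset.filter_image,
    Finset.card_image_of_injOn (s := (Irr G).filter fun θ => Q (ext2 1 θ)),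
    Finset.card_image_of_injOn (s := (Irr G).filter fun θ => Q (ext2 (-1) θ))]
  · have h1 : ((Irr G).offDiag.filter fun t => Q (ind2 t.1 t.2)).card =
        2 * (((Irr G).offDiag.filter fun t => Q (ind2 t.1 t.2)).image
          fun t => ind2 t.1 t.2).card := by
      rw [Finset.card_eq_sum_card_image (fun t : (G → ℂ) × (G → ℂ) => ind2 t.1 t.2),
        Finset.sum_const_nat (m := 2), mul_comm]
      intro χ hχ
      obtain ⟨t, ht, rfl⟩ := Finset.mem_image.mp hχ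
      rw [Finset.mem_filter, Finset.mem_offDiag] at ht
      obtain ⟨⟨h1, h2, hne⟩, hQ⟩ := ht
      rw [Finset.card_eq_two]
      refine ⟨t, t.swap, fun h => hne (by rw [Prod.ext_iff] at h; exact h.1), ?_⟩
      ext u
      simp only [Finset.mem_filter, Finset.mem_offDiag, Finset.mem_insert, Finset.mem_singleton]
      constructor
      · rintro ⟨⟨⟨h3, h4, hne'⟩, _⟩, h⟩
        rcases ind2_inj (mem_Irr.mp h3) (mem_Irr.mp h4) (mem_Irr.mp h1) (mem_Irr.mp h2) hne' h with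
          h5 | h5
        · exact Or.inl (Prod.ext h5.1 h5.2)
        · exact Or.inr (Prod.ext h5.1 h5.2)
      · rintro (rfl | rfl)
        · exact ⟨⟨⟨h1, h2, hne⟩, hQ⟩, rfl⟩
        · refine ⟨⟨⟨h2, h1, hne.symm⟩, ?_⟩, ind2_comm _ _⟩
          rw [show ind2 t.swap.1 t.swap.2 = ind2 t.1 t.2 from ind2_comm _ _]
          exact hQ
    rw [h1]
    ring
  · intro θ hθ ψ hψ h
    rw [Finset.mem_coe, Finset.mem_filter] at hθ hψ
    exact (ext2_inj (mem_Irr.mp hθ.1) (mem_Irr.mp hψ.1) (by norm_num) (by norm_num) h).1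
  · intro θ hθ ψ hψ h
    rw [Finset.mem_coe, Finset.mem_filter] at hθ hψ
    exact (ext2_inj (mem_Irr.mp hθ.1) (mem_Irr.mp hψ.1) (by norm_num) (by norm_num) h).1

end Pool.Agent.Q90.WR
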