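import Pool.Agent.Q90.WR.Nrm

/-!
# Galois conjugates and transport of irreducible characters; fixed points of automorphisms

The first part follows Pool.Agent.Y824.GA.
-/

set_option autoImplicit false

noncomputable section

namespace Pool.Agent.Q90.WR

open Pool.Agent.Helper884.IC

/-- the module `V` with the scalar multiplication twisted by an automorphism of `ℂ` -/
def Tw (_ : ℂ ≃+* ℂ) (V : Type) : Type := V

section

variable (σ : ℂ ≃+* ℂ) (V : Type) [AddCommGroup V] [Module ℂ V]

instance : AddCommGroup (Tw σ V) := inferInstanceAs (AddCommGroup V)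

instance : Module ℂ (Tw σ V) := Module.compHom V (σ.symm : ℂ →+* ℂ)

/-- the identity -/
def tw : V ≃+ Tw σ V := AddEquiv.refl V

variable {V}

theorem smul_tw (c : ℂ) (v : V) : c • tw σ V v = tw σ V (σ.symm c • v) := rfl

theorem tw_smul (c : ℂ) (v : V) : tw σ V (c • v) = σ c • tw σ V v := by
  rw [smul_tw, RingEquiv.symm_apply_apply]

theorem tw_symm_smul (c : ℂ) (v : Tw σ V) :
    (tw σ V).symm (c • v) = σ.symm c • (tw σ V).symm v := rfl

/-- the basis -/
def twBasis {ι : Type} [Finite ι] (b : Module.Basis ι ℂ V) : Module.Basis ι ℂ (Tw σ V) :=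
  Module.Basis.ofEquivFun
    { toFun := fun v i => σ (b.equivFun ((tw σ V).symm v) i)
      map_add' := fun v w => by
        funext i
        rw [map_add, map_add, Pi.add_apply, map_add]
        rfl
      map_smul' := fun c v => by
        funext i
        rw [tw_symm_smul, map_smul, Pi.smul_apply, smul_eq_mul, map_mul,
          RingEquiv.apply_symm_apply]
        rfl
      invFun := fun x => tw σ V (b.equivFun.symm fun i => σ.symm (x i))
      left_inv := fun v => by
        simp only [RingEquiv.symm_apply_apply]
        exact congrArg (tw σ V) (b.equivFun.symm_apply_apply ((tw σ V).symm v))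
      right_inv := fun x => by
        funext i
        simp }

theorem twBasis_repr {ι : Type} [Finite ι] (b : Module.Basis ι ℂ V) (v : V) (i : ι) :
    (twBasis σ b).repr (tw σ V v) i = σ (b.repr v i) := rfl

theorem twBasis_apply {ι : Type} [Finite ι] (b : Module.Basis ι ℂ V) (i : ι) :
    twBasis σ b i = tw σ V (b i) := by
  classical
  apply (twBasis σ b).repr.injective
  ext j
  rw [twBasis_repr, Module.Basis.repr_self, Module.Basis.repr_self, Finsupp.single_apply]
  split_ifs <;> simp

variable {G : Type} [Group G] (ρ : Representation ℂ G V)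

/-- the twisted linear map -/
def twMap (f : V →ₗ[ℂ] V) : Tw σ V →ₗ[ℂ] Tw σ V where
  toFun v := tw σ V (f ((tw σ V).symm v))
  map_add' v w := by rw [map_add, map_add, map_add]
  map_smul' c v := by
    rw [tw_symm_smul, map_smul, RingHom.id_apply, smul_tw]

/-- the twisted representation -/
def twRep : Representation ℂ G (Tw σ V) where
  toFun g := twMap σ (ρ g)
  map_one' := by
    ext v
    simp [twMap]
  map_mul' a b := by
    ext v
    simp [twMap]

theorem tw_trace [FiniteDimensional ℂ V] (f : V →ₗ[ℂ] V) :
    LinearMap.trace ℂ (Tw σ V) (twMap σ f) = σ (LinearMap.trace ℂ V f) := by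
  classical
  let b := Module.finBasis ℂ V
  rw [LinearMap.trace_eq_matrix_trace ℂ b, LinearMap.trace_eq_matrix_trace ℂ (twBasis σ b),
    Matrix.trace, Matrix.trace, map_sum]
  refine Finset.sum_congr rfl fun i _ => ?_
  rw [Matrix.diag_apply, Matrix.diag_apply, LinearMap.toMatrix_apply, LinearMap.toMatrix_apply,
    twBasis_apply]
  exact twBasis_repr σ b (f (b i)) i

/-- the subrepresentations -/
def twSub : Subrepresentation ρ ≃o Subrepresentation (twRep σ ρ) where
  toFun U :=
    { toSubmodule :=
        { carrier := {v | (tw σ V).symm v ∈ U.toSubmodule}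
          zero_mem' := U.toSubmodule.zero_mem
          add_mem' := fun {a b} ha hb => U.toSubmodule.add_mem ha hb
          smul_mem' := fun c a ha => U.toSubmodule.smul_mem (σ.symm c) ha }
      apply_mem_toSubmodule := fun g v hv => U.apply_mem_toSubmodule g hv }
  invFun U :=
    { toSubmodule :=
        { carrier := {v | tw σ V v ∈ U.toSubmodule}
          zero_mem' := U.toSubmodule.zero_mem
          add_mem' := fun {a b} ha hb => U.toSubmodule.add_mem ha hb
          smul_mem' := fun c a ha => by
            change tw σ V (c • a) ∈ U.toSubmodule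
            rw [tw_smul]
            exact U.toSubmodule.smul_mem (σ c) ha }
      apply_mem_toSubmodule := fun g v hv => U.apply_mem_toSubmodule g hv }
  left_inv U := rfl
  right_inv U := rfl
  map_rel_iff' := Iff.rfl

end

/-- Galois conjugates of irreducible characters are irreducible -/
theorem irr_gal {G : Type} [Group G] (σ : ℂ ≃+* ℂ) {χ : G → ℂ} (hχ : IsIrrChar χ) :
    IsIrrChar (fun g => σ (χ g)) := by
  obtain ⟨V, _, _, _, ρ, hρ, rfl⟩ := hχ
  have hfd : FiniteDimensional ℂ (Tw σ V) :=
    Module.Finite.of_basis (twBasis σ (Module.finBasis ℂ V))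
  refine ⟨Tw σ V, inferInstance, inferInstance, hfd, twRep σ ρ,
    (twSub σ ρ).isSimpleOrder_iff.1 hρ, ?_⟩
  funext g
  exact (tw_trace σ (ρ g)).symm

/-- subrepresentations of a representation pulled back along an isomorphism -/
def compSub {H K V : Type} [Group H] [Group K] [AddCommGroup V] [Module ℂ V] (e : H ≃* K)
    (ρ : Representation ℂ K V) :
    Subrepresentation ρ ≃o Subrepresentation (ρ.comp e.toMonoidHom) where
  toFun U := ⟨U.toSubmodule, fun g v hv => U.apply_mem_toSubmodule (e g) hv⟩
  invFun U := ⟨U.toSubmodule, fun g v hv => by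
    have h := U.apply_mem_toSubmodule (e.symm g) hv
    simpa using h⟩
  left_inv U := rfl
  right_inv U := rfl
  map_rel_iff' := Iff.rfl

theorem irr_comp {H K : Type} [Group H] [Group K] (e : H ≃* K) {χ : K → ℂ} (h : IsIrrChar χ) :
    IsIrrChar (fun g => χ (e g)) := by
  obtain ⟨V, _, _, _, ρ, hρ, rfl⟩ := h
  exact ⟨V, inferInstance, inferInstance, inferInstance, ρ.comp e.toMonoidHom,
    (compSub e ρ).isSimpleOrder_iff.1 hρ, rfl⟩

theorem irr_comp_iff {H K : Type} [Group H] [Group K] (e : H ≃* K) {χ : K → ℂ} :
    IsIrrChar (fun g => χ (e g)) ↔ IsIrrChar χ := by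
  refine ⟨fun h => ?_, irr_comp e⟩
  have := irr_comp e.symm h
  simpa using this

/-- the number of irreducible characters with a property, transported along an isomorphism -/
theorem card_transport {H K : Type} [Group H] [Group K] (e : H ≃* K) (Q : (H → ℂ) → Prop) :
    Nat.card {χ : H → ℂ // IsIrrChar χ ∧ Q χ} =
      Nat.card {χ : K → ℂ // IsIrrChar χ ∧ Q (fun g => χ (e g))} := by
  refine Nat.card_congr (Equiv.subtypeEquiv (Equiv.arrowCongr e.toEquiv (Equiv.refl ℂ)) ?_)
  intro χ
  have h1 : (fun g => (Equiv.arrowCongr e.toEquiv (Equiv.refl ℂ)) χ (e g)) = χ := by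
    funext g
    simp [Equiv.arrowCongr]
  rw [h1, ← irr_comp_iff e (χ := (Equiv.arrowCongr e.toEquiv (Equiv.refl ℂ)) χ), h1]

theorem card_filter_eq {G : Type} [Group G] [Fintype G] (Q : (G → ℂ) → Prop) [DecidablePred Q] :
    Nat.card {χ : G → ℂ // IsIrrChar χ ∧ Q χ} = ((Irr G).filter Q).card :=
  Nat.subtype_card _ fun χ => by rw [Finset.mem_filter, mem_Irr]

end Pool.Agent.Q90.WR
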