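import Pool.Agent.Q90.WR.Fix

/-!
# Iterated wreath products with `C₂`
-/

set_option autoImplicit false

open scoped BigOperators Classical

noncomputable section

namespace Pool.Agent.Q90.WR

open Pool.Agent.Helper884.IC

/-- The iterated wreath product `(⋯(G ≀ C₂) ≀ ⋯) ≀ C₂`, with `n` factors `C₂`. -/
def WrN : ℕ → Type → Type
  | 0, G => G
  | n + 1, G => WrN n (Wr G)

/-- The group structure of the iterated wreath product. -/
def groupWrN : (n : ℕ) → (G : Type) → Group G → Group (WrN n G)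
  | 0, _, i => i
  | n + 1, G, i => groupWrN n (Wr G) (@Wr.instGroup G i)

instance instGroupWrN (n : ℕ) (G : Type) [i : Group G] : Group (WrN n G) := groupWrN n G i

theorem finite_WrN : ∀ (n : ℕ) (G : Type) [Finite G], Finite (WrN n G)
  | 0, _, i => i
  | n + 1, G, _ => finite_WrN n (Wr G)

instance (n : ℕ) (G : Type) [Finite G] : Finite (WrN n G) := finite_WrN n G

/-- the normalizers of two Sylow subgroups are isomorphic -/
theorem norm_equiv {p : ℕ} [Fact p.Prime] {G : Type} [Group G] [Finite G] (P Q : Sylow p G) :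
    Nonempty (Subgroup.normalizer ((P : Subgroup G) : Set G) ≃*
      Subgroup.normalizer ((Q : Subgroup G) : Set G)) := by
  obtain ⟨g, rfl⟩ := MulAction.exists_smul_eq G P Q
  have h : (Subgroup.normalizer ((P : Subgroup G) : Set G)).map (MulAut.conj g).toMonoidHom =
      Subgroup.normalizer (((g • P : Sylow p G) : Subgroup G) : Set G) := by
    rw [show ((g • P : Sylow p G) : Subgroup G) = (P : Subgroup G).map (MulAut.conj g).toMonoidHom
      from rfl]
    exact Subgroup.map_equiv_normalizer_eq (P : Subgroup G) (MulAut.conj g)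
  rw [← h]
  exact ⟨(MulAut.conj g).subgroupMap _⟩


theorem card_Irr_le (G : Type) [Group G] [Fintype G] : (Irr G).card ≤ Nat.card G := by
  have hli : LinearIndependent ℂ (fun x : Irr G => (x : G → ℂ)) := by
    rw [linearIndependent_iff']
    intro s c hc i hi
    have h1 := congrArg (fun F => B F i.1) hc
    rw [B_sum_left] at h1
    simp only [B_smul_left] at h1
    rw [Finset.sum_eq_single i] at h1
    · rw [B_irr (mem_Irr.mp i.2) (mem_Irr.mp i.2), if_pos rfl, mul_one] at h1
      rw [h1]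
      simp [B]
    · intro j _ hj
      rw [B_irr (mem_Irr.mp j.2) (mem_Irr.mp i.2), if_neg (fun h => hj (Subtype.ext h)), mul_zero]
    · intro h
      exact absurd hi h
  have h := hli.fintype_card_le_finrank
  rw [Module.finrank_fintype_fun_eq_card, Fintype.card_coe] at h
  rwa [Nat.card_eq_fintype_card]

theorem numFixed_le (p : ℕ) (σ : ℂ ≃+* ℂ) (G : Type) [Group G] [Finite G] :
    numFixed p σ G ≤ Nat.card G := by
  have := Fintype.ofFinite G
  unfold numFixed
  rw [card_filter_eq]
  exact (Finset.card_filter_le _ _).trans (card_Irr_le G)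

variable {p : ℕ} [hp : Fact p.Prime] {σ : ℂ ≃+* ℂ}

/-- the numbers for `G ≀ C₂` -/
theorem wr_pair (hp2 : p ≠ 2) (G : Type) [Group G] [Finite G] (P : Sylow p G) (h1 : OddOn σ G)
    (h2 : OddOn σ (Subgroup.normalizer ((P : Subgroup G) : Set G))) :
    ∃ Q : Sylow p (Wr G), OddOn σ (Wr G) ∧
      OddOn σ (Subgroup.normalizer ((Q : Subgroup (Wr G)) : Set (Wr G))) ∧
      2 * (numFixed p σ (Wr G) : ℤ) = (numFixed p σ G : ℤ) ^ 2 + 3 * numFixed p σ G ∧
      2 * (numFixed p σ (Subgroup.normalizer ((Q : Subgroup (Wr G)) : Set (Wr G))) : ℤ) =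
        (numFixed p σ (Subgroup.normalizer ((P : Subgroup G) : Set G)) : ℤ) ^ 2 +
          3 * numFixed p σ (Subgroup.normalizer ((P : Subgroup G) : Set G)) := by
  have := Fintype.ofFinite G
  have := Fintype.ofFinite (Subgroup.normalizer ((P : Subgroup G) : Set G))
  obtain ⟨Q, hQ⟩ := exists_sylow hp2 P
  have e : Nonempty (Subgroup.normalizer ((Q : Subgroup (Wr G)) : Set (Wr G)) ≃*
      Wr (Subgroup.normalizer ((P : Subgroup G) : Set G))) := by
    rw [hQ]
    exact ⟨normEquiv _⟩
  obtain ⟨e⟩ := e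
  refine ⟨Q, oddOn_wr h1, oddOn_congr e (oddOn_wr h2), numFixed_wr hp.out hp2 h1, ?_⟩
  rw [numFixed_congr e]
  exact numFixed_wr hp.out hp2 h2

theorem dvd_of_levels (hp2 : p ≠ 2) : ∀ (a : ℕ) (G : Type) [Group G] [Finite G] (P : Sylow p G),
    OddOn σ G → OddOn σ (Subgroup.normalizer ((P : Subgroup G) : Set G)) →
    (∀ j ≤ a, ∀ Q : Sylow p (WrN j G), numFixed p σ (WrN j G) ≡
      numFixed p σ (Subgroup.normalizer ((Q : Subgroup (WrN j G)) : Set (WrN j G))) [MOD 2]) →
    (2 : ℤ) ^ (a + 1) ∣ (numFixed p σ G : ℤ) -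
      numFixed p σ (Subgroup.normalizer ((P : Subgroup G) : Set G)) := by
  intro a
  induction a with
  | zero =>
    intro G _ _ P h1 h2 H
    rw [zero_add, pow_one]
    exact Nat.modEq_iff_dvd.mp (H 0 le_rfl P).symm
  | succ a ih =>
    intro G _ _ P h1 h2 H
    obtain ⟨Q, o1, o2, e1, e2⟩ := wr_pair hp2 G P h1 h2
    have h3 := ih (Wr G) Q o1 o2 fun j hj R => H (j + 1) (by omega) R
    exact step e1 e2 (ih G P h1 h2 fun j hj R => H j (by omega) R) h3

theorem eq_levels (hp2 : p ≠ 2) : ∀ (a : ℕ) (G : Type) [Group G] [Finite G] (P : Sylow p G),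
    OddOn σ G → OddOn σ (Subgroup.normalizer ((P : Subgroup G) : Set G)) →
    numFixed p σ G = numFixed p σ (Subgroup.normalizer ((P : Subgroup G) : Set G)) →
    ∀ Q : Sylow p (WrN a G), numFixed p σ (WrN a G) =
      numFixed p σ (Subgroup.normalizer ((Q : Subgroup (WrN a G)) : Set (WrN a G))) := by
  intro a
  induction a with
  | zero =>
    intro G _ _ P h1 h2 H Q
    obtain ⟨e⟩ := norm_equiv P Q
    exact H.trans (numFixed_congr e p σ)
  | succ a ih =>
    intro G _ _ P h1 h2 H Q
    obtain ⟨R, o1, o2, e1, e2⟩ := wr_pair hp2 G P h1 h2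
    refine ih (Wr G) R o1 o2 ?_ Q
    rw [H] at e1
    have : 2 * (numFixed p σ (Wr G) : ℤ) =
        2 * numFixed p σ (Subgroup.normalizer ((R : Subgroup (Wr G)) : Set (Wr G))) :=
      e1.trans e2.symm
    omega

/-- the criterion for a single group -/
theorem criterion (hp2 : p ≠ 2) (G : Type) [Group G] [Finite G] (P : Sylow p G) (h1 : OddOn σ G)
    (h2 : OddOn σ (Subgroup.normalizer ((P : Subgroup G) : Set G)))
    (H : ∀ j, 2 ^ j ≤ Nat.card G → ∀ Q : Sylow p (WrN j G), numFixed p σ (WrN j G) ≡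
      numFixed p σ (Subgroup.normalizer ((Q : Subgroup (WrN j G)) : Set (WrN j G))) [MOD 2]) :
    numFixed p σ G = numFixed p σ (Subgroup.normalizer ((P : Subgroup G) : Set G)) := by
  have hG : 0 < Nat.card G := Nat.card_pos
  set a := Nat.log 2 (Nat.card G) with ha
  have h3 : ∀ j ≤ a, 2 ^ j ≤ Nat.card G := fun j hj =>
    (Nat.pow_le_pow_right (by norm_num) hj).trans (Nat.pow_log_le_self 2 hG.ne')
  have h4 := dvd_of_levels hp2 a G P h1 h2 fun j hj => H j (h3 j hj)
  have h5 : Nat.card G < 2 ^ (a + 1) := Nat.lt_pow_succ_log_self (by norm_num) _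
  have h6 := numFixed_le p σ G
  have h7 := (numFixed_le p σ (Subgroup.normalizer ((P : Subgroup G) : Set G))).trans
    (Subgroup.card_le_card_group _)
  have h8 : |(numFixed p σ G : ℤ) - numFixed p σ (Subgroup.normalizer ((P : Subgroup G) : Set G))| <
      2 ^ (a + 1) := by
    have h9 : (Nat.card G : ℤ) < 2 ^ (a + 1) := by exact_mod_cast h5
    rw [abs_lt]
    constructor <;> omega
  have h9 := Int.eq_zero_of_abs_lt_dvd h4 h8
  omega

end Pool.Agent.Q90.WR
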