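import Pool.Agent.Q90.WR.Krp
import Pool.Agent.Q90.WR.Tower
import Pool.Agent.Y63.AWC.Deg

/-!
# The Knörr–Robinson conjecture modulo 2
-/

set_option autoImplicit false

open scoped BigOperators Classical

noncomputable section

namespace Pool.Agent.Q90.WR

open Pool.Agent.Y63.KR Pool.Agent.Helper884.IC
open Pool.Agent.Y63.AWC (numDefectZero IsIrreducibleCharacter)

/-- `p`-defect zero -/
def DefZero (p : ℕ) {G : Type} [Group G] (χ : G → ℂ) : Prop :=
  ∃ n : ℕ, χ 1 = (n : ℂ) ∧ n.factorization p = (Nat.card G).factorization p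

theorem numDefectZero_card (p : ℕ) (G : Type) [Group G] [Fintype G] :
    numDefectZero p G = ((Irr G).filter (DefZero p)).card := by
  rw [← card_filter_eq]
  rfl

theorem fac_wr {p : ℕ} [hp : Fact p.Prime] (hp2 : p ≠ 2) (G : Type) [Finite G] [Nonempty G] :
    (Nat.card (Wr G)).factorization p = 2 * (Nat.card G).factorization p := by
  have h0 : Nat.card G ≠ 0 := Nat.card_pos.ne'
  rw [show Nat.card (Wr G) = 2 * Nat.card G ^ 2 by
    rw [Nat.card_congr Wr.eqv, Nat.card_prod, Nat.card_prod, Nat.card_eq_fintype_card (α := Bool),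
      Fintype.card_bool]
    ring]
  rw [Nat.factorization_mul two_ne_zero (pow_ne_zero 2 h0), Nat.factorization_pow]
  simp only [Finsupp.coe_add, Finsupp.coe_smul, Pi.add_apply, Pi.smul_apply, smul_eq_mul]
  rw [Nat.factorization_eq_zero_of_not_dvd (n := 2), zero_add]
  intro h
  exact hp2 ((Nat.prime_dvd_prime_iff_eq hp.out Nat.prime_two).mp h)

section

variable {G : Type} [Group G] [Fintype G] {p : ℕ} [hp : Fact p.Prime]

omit hp in
theorem fac_le {θ : G → ℂ} (h : IsIrrChar θ) {d : ℕ} (hd : θ 1 = (d : ℂ)) :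
    d.factorization p ≤ (Nat.card G).factorization p :=
  (Nat.factorization_le_iff_dvd (by
    rintro rfl
    obtain ⟨e, he, he'⟩ := deg_pos h
    rw [hd] at he'
    have : 0 = e := by exact_mod_cast he'
    omega) Nat.card_pos.ne').mpr (Pool.Agent.Y63.AWC.deg_dvd h hd) p

omit hp [Fintype G] in
theorem defZero_iff {χ : G → ℂ} {d : ℕ} (hd : χ 1 = (d : ℂ)) :
    DefZero p χ ↔ d.factorization p = (Nat.card G).factorization p := by
  constructor
  · rintro ⟨n, hn, h⟩
    have : n = d := by exact_mod_cast hn.symm.trans hd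
    rwa [← this]
  · exact fun h => ⟨d, hd, h⟩

theorem defZero_ext2 (hp2 : p ≠ 2) {ε : ℂ} {θ : G → ℂ} (h : IsIrrChar θ) :
    DefZero p (ext2 ε θ) ↔ DefZero p θ := by
  obtain ⟨d, hd0, hd⟩ := deg_pos h
  have h1 : ext2 ε θ 1 = ((d * d : ℕ) : ℂ) := by
    change θ 1 * θ 1 = _
    rw [hd]; push_cast; rfl
  rw [defZero_iff h1, defZero_iff hd, fac_wr hp2, Nat.factorization_mul hd0.ne' hd0.ne']
  simp only [Finsupp.coe_add, Pi.add_apply]
  omega

theorem defZero_ind2 (hp2 : p ≠ 2) {θ₁ θ₂ : G → ℂ} (h1 : IsIrrChar θ₁) (h2 : IsIrrChar θ₂) :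
    DefZero p (ind2 θ₁ θ₂) ↔ DefZero p θ₁ ∧ DefZero p θ₂ := by
  obtain ⟨d, hd0, hd⟩ := deg_pos h1
  obtain ⟨e, he0, he⟩ := deg_pos h2
  have h3 : ind2 θ₁ θ₂ 1 = ((2 * (d * e) : ℕ) : ℂ) := by
    change θ₁ 1 * θ₂ 1 + θ₂ 1 * θ₁ 1 = _
    rw [hd, he]; push_cast; ring
  have h4 := fac_le (p := p) h1 hd
  have h5 := fac_le (p := p) h2 he
  rw [defZero_iff h3, defZero_iff hd, defZero_iff he, fac_wr hp2,
    Nat.factorization_mul two_ne_zero (Nat.mul_ne_zero hd0.ne' he0.ne'),
    Nat.factorization_mul hd0.ne' he0.ne']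
  simp only [Finsupp.coe_add, Pi.add_apply]
  rw [Nat.factorization_eq_zero_of_not_dvd (n := 2)]
  · omega
  · intro h
    exact hp2 ((Nat.prime_dvd_prime_iff_eq hp.out Nat.prime_two).mp h)

/-- the number of characters of defect zero of the wreath product -/
theorem defectZero_wr (hp2 : p ≠ 2) :
    2 * (numDefectZero p (Wr G) : ℤ) = (numDefectZero p G : ℤ) ^ 2 + 3 * numDefectZero p G := by
  have h := count (G := G) (DefZero p)
  have h1 : ∀ d : DecidablePred (fun t : (G → ℂ) × (G → ℂ) => DefZero p (ind2 t.1 t.2)),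
      @Finset.filter _ _ d ((Irr G).offDiag) = ((Irr G).filter (DefZero p)).offDiag := by
    intro d
    ext t
    simp only [Finset.mem_filter, Finset.mem_offDiag, mem_Irr]
    constructor
    · rintro ⟨⟨a1, a2, hne⟩, a3⟩
      rw [defZero_ind2 hp2 a1 a2] at a3
      exact ⟨⟨a1, a3.1⟩, ⟨a2, a3.2⟩, hne⟩
    · rintro ⟨⟨a1, a3⟩, ⟨a2, a5⟩, hne⟩
      exact ⟨⟨a1, a2, hne⟩, (defZero_ind2 hp2 a1 a2).mpr ⟨a3, a5⟩⟩
  have h2 : ∀ ε : ℂ, ∀ d : DecidablePred (fun θ : G → ℂ => DefZero p (ext2 ε θ)),
      @Finset.filter _ _ d (Irr G) = (Irr G).filter (DefZero p) := by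
    intro ε d
    ext θ
    simp only [Finset.mem_filter, mem_Irr]
    exact and_congr_right fun hθ => defZero_ext2 hp2 hθ
  rw [h1, h2 1, h2 (-1), Finset.offDiag_card, ← numDefectZero_card, ← numDefectZero_card] at h
  have h3 : numDefectZero p G ≤ numDefectZero p G * numDefectZero p G := Nat.le_mul_self _
  zify [h3] at h
  linear_combination h

/-- the alternating sum of the class numbers of the stabilisers of the chains -/
def altK (p : ℕ) (G : Type) [Group G] : ℤ :=
  alternatingSum p G (fun H => (Nat.card (ConjClasses H) : ℤ))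

theorem card_mul_altK : (Nat.card G : ℤ) * altK p G = kap p G := by
  have : Fintype (TwPair 1 G) := Fintype.ofFinite _
  have e2 : (fun H : Subgroup G => (Nat.card (ConjClasses H) : ℤ)) =
      fun H : Subgroup G => (numR 1 H (fun _ => True) : ℤ) := funext fun H => by
    rw [← numFixed_eq, numFixed_one]
  have h1 := sum_numR (p := p) (G := G) 1 (fun _ => True)
  rw [← e2] at h1
  unfold altK
  rw [h1]
  unfold kap
  have h2 : ∑ x : G, ∑ y : G, (if x * y = y * x then W p ({x, y} : Set G) else 0) =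
      ∑ q ∈ Finset.univ.filter (fun q : G × G => q.2 * q.1 * q.2⁻¹ = q.1 ^ 1),
        W p ({q.1, q.2} : Set G) := by
    rw [Finset.sum_filter, Fintype.sum_prod_type]
    refine Finset.sum_congr rfl fun x _ => Finset.sum_congr rfl fun y _ => ?_
    have h3 : x * y = y * x ↔ y * x * y⁻¹ = x ^ 1 := by
      rw [pow_one, mul_inv_eq_iff_eq_mul, eq_comm]
    by_cases c : x * y = y * x
    · rw [if_pos c, if_pos (h3.mp c)]
    · rw [if_neg c, if_neg (fun h => c (h3.mpr h))]
  rw [h2, ← Finset.sum_subtype (F := this) (p := fun q : G × G => q.2 * q.1 * q.2⁻¹ = q.1 ^ 1)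
    (Finset.univ.filter (fun q : G × G => q.2 * q.1 * q.2⁻¹ = q.1 ^ 1)) (by simp)
    (fun q : G × G => W p ({q.1, q.2} : Set G) * bz True)]
  refine Finset.sum_congr rfl fun q _ => ?_
  rw [bz_pos trivial, mul_one]

theorem altK_wr (hp2 : p ≠ 2) : 2 * altK p (Wr G) = altK p G ^ 2 + 3 * altK p G := by
  have h1 := card_mul_altK (p := p) (G := Wr G)
  rw [kap_wr hp2, ← card_mul_altK, Wr.card] at h1
  have h0 : ((Nat.card G : ℤ)) ^ 2 ≠ 0 := by
    have : (Nat.card G : ℤ) ≠ 0 := by exact_mod_cast Nat.card_pos.ne'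
    exact pow_ne_zero 2 this
  apply mul_left_cancel₀ h0
  push_cast at h1
  linear_combination h1

end

theorem krc_altK {p : ℕ} [Fact p.Prime] (G : Type) [Group G] [Finite G] :
    KRC p G ↔ altK p G = numDefectZero p G := by
  have hsum := altSum_classes (p := p) (G := G)
  unfold KRC altK
  constructor
  · intro h1
    rw [h1] at hsum
    have : ((alternatingSum p G (fun H => (Nat.card (ConjClasses H) : ℤ)) : ℤ) : ℚ) =
      ((numDefectZero p G : ℤ) : ℚ) := by
      rw [hsum]; push_cast; ring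
    exact_mod_cast this
  · intro h1
    rw [h1] at hsum
    push_cast at hsum
    linarith

/-! ### Real classes and real characters -/

/-- The number of real conjugacy classes. -/
def numRealClasses (H : Type) [Group H] : ℕ :=
  Nat.card {c : ConjClasses H // ∃ x : H, ConjClasses.mk x = c ∧ IsConj x x⁻¹}

/-- The number of real-valued irreducible complex characters of `p`-defect zero. -/
def numRealDefectZero (p : ℕ) (G : Type) [Group G] : ℕ :=
  Nat.card {χ : G → ℂ // IsIrreducibleCharacter χ ∧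
    (∃ n : ℕ, χ 1 = (n : ℂ) ∧ n.factorization p = (Nat.card G).factorization p) ∧
    ∀ g, (χ g).im = 0}

/-- The sum of the numbers of real conjugacy classes of the stabilisers `G_σ`, over representatives
`σ` of the `G`-conjugacy classes of chains of nontrivial `p`-subgroups of `G`, the empty chain
included. -/
def realChainClasses (p : ℕ) (G : Type) [Group G] : ℕ :=
  ∑ᶠ c : Quotient (chainSetoid p G), numRealClasses (chainStabilizer c.out.1)

theorem invol_mod {X : Type} [Finite X] (f : X → X) (hf : ∀ x, f (f x) = x) :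
    Nat.card X ≡ Nat.card {x : X // f x = x} [MOD 2] := by
  have := Fintype.ofFinite X
  have h2 : ∀ F : Function.End X, (∀ x, F (F x) = x) → F ^ 2 ^ 1 = 1 := by
    intro F hF
    rw [pow_one, pow_two]
    funext x
    exact hF x
  have h := Equiv.Perm.card_fixedPoints_modEq (f := (f : Function.End X)) (p := 2) (n := 1)
    (h2 f hf)
  rw [Nat.card_eq_fintype_card]
  refine h.trans ?_
  rw [← Nat.card_eq_fintype_card]
  exact Nat.ModEq.refl _

theorem classes_mod (H : Type) [Group H] [Finite H] :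
    Nat.card (ConjClasses H) ≡ numRealClasses H [MOD 2] := by
  let f : ConjClasses H → ConjClasses H :=
    Quotient.map (fun x : H => x⁻¹) (by
      intro x y h
      obtain ⟨c, hc⟩ := isConj_iff.mp h
      refine isConj_iff.mpr ⟨c, ?_⟩
      rw [← hc]; group)
  have hf : ∀ x : H, f (ConjClasses.mk x) = ConjClasses.mk x⁻¹ := fun _ => rfl
  have h := invol_mod f (by
    intro c
    induction c using Quotient.inductionOn with
    | _ x =>
      change f (f (ConjClasses.mk x)) = ConjClasses.mk x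
      rw [hf, hf, inv_inv])
  refine h.trans ?_
  unfold numRealClasses
  have : ∀ c : ConjClasses H, f c = c ↔ ∃ x : H, ConjClasses.mk x = c ∧ IsConj x x⁻¹ := by
    intro c
    constructor
    · intro h
      obtain ⟨x, rfl⟩ := ConjClasses.exists_rep c
      refine ⟨x, rfl, ?_⟩
      rw [hf, ConjClasses.mk_eq_mk_iff_isConj] at h
      exact h.symm
    · rintro ⟨x, rfl, h⟩
      rw [hf, ConjClasses.mk_eq_mk_iff_isConj]
      exact h.symm
  simp_rw [this]
  exact Nat.ModEq.refl _

theorem altK_mod (p : ℕ) (G : Type) [Group G] [Finite G] :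
    altK p G ≡ realChainClasses p G [ZMOD 2] := by
  have : Fintype (Quotient (chainSetoid p G)) := Fintype.ofFinite _
  unfold altK realChainClasses alternatingSum
  rw [finsum_eq_sum_of_fintype, finsum_eq_sum_of_fintype, Nat.cast_sum]
  refine Int.ModEq.sum fun c _ => ?_
  have h1 := (Int.natCast_modEq_iff).mpr (classes_mod (chainStabilizer c.out.1))
  have h2 : ((-1 : ℤ)) ^ c.out.1.ncard ≡ 1 [ZMOD 2] := by
    rcases neg_one_pow_eq_or ℤ c.out.1.ncard with h | h
    · rw [h]
    · rw [h]; decide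
  have h3 := h2.mul h1
  rw [one_mul] at h3
  exact h3

theorem defectZero_mod (p : ℕ) (G : Type) [Group G] [Finite G] :
    numDefectZero p G ≡ numRealDefectZero p G [MOD 2] := by
  have := Fintype.ofFinite G
  have hfin : Finite {χ : G → ℂ // IsIrreducibleCharacter χ ∧ DefZero p χ} := by
    have : Finite {χ : G → ℂ // χ ∈ Irr G} := inferInstance
    exact Finite.of_injective
      (fun χ : {χ : G → ℂ // IsIrreducibleCharacter χ ∧ DefZero p χ} =>
        (⟨χ.1, mem_Irr.mpr χ.2.1⟩ : {χ : G → ℂ // χ ∈ Irr G}))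
      (fun a b hab => Subtype.ext (congrArg (fun z : {χ : G → ℂ // χ ∈ Irr G} => z.1) hab))
  let σ : ℂ ≃+* ℂ := starRingAut
  have hσ : ∀ z : ℂ, σ z = (starRingEnd ℂ) z := fun _ => rfl
  let f : {χ : G → ℂ // IsIrreducibleCharacter χ ∧ DefZero p χ} →
      {χ : G → ℂ // IsIrreducibleCharacter χ ∧ DefZero p χ} := fun χ =>
    ⟨fun g => σ (χ.1 g), irr_gal σ χ.2.1, by
      obtain ⟨n, hn, h⟩ := χ.2.2
      exact ⟨n, by change σ (χ.1 1) = _; rw [hn, map_natCast], h⟩⟩
  have h := invol_mod f (by
    intro χ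
    apply Subtype.ext
    funext g
    change σ (σ (χ.1 g)) = χ.1 g
    rw [hσ, hσ, Complex.conj_conj])
  refine h.trans ?_
  unfold numRealDefectZero
  rw [show Nat.card {x // f x = x} = Nat.card {χ : G → ℂ // IsIrreducibleCharacter χ ∧
    (∃ n : ℕ, χ 1 = (n : ℂ) ∧ n.factorization p = (Nat.card G).factorization p) ∧
    ∀ g, (χ g).im = 0} from Nat.card_congr
      { toFun := fun x => ⟨x.1.1, x.1.2.1, x.1.2.2, fun g => by
          have h1 := congrFun (congrArg Subtype.val x.2) g
          exact Complex.conj_eq_iff_im.mp h1⟩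
        invFun := fun y => ⟨⟨y.1, y.2.1, y.2.2.1⟩, by
          apply Subtype.ext
          funext g
          exact Complex.conj_eq_iff_im.mpr (y.2.2.2 g)⟩
        left_inv := fun x => rfl
        right_inv := fun y => rfl }]

theorem parity_iff (p : ℕ) (G : Type) [Group G] [Finite G] :
    realChainClasses p G ≡ numRealDefectZero p G [MOD 2] ↔
      (2 : ℤ) ∣ altK p G - numDefectZero p G := by
  have h1 := altK_mod p G
  have h2 := (Int.natCast_modEq_iff).mpr (defectZero_mod p G)
  rw [← Int.natCast_modEq_iff]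
  constructor
  · intro h
    have h3 : altK p G ≡ numDefectZero p G [ZMOD 2] := h1.trans (h.trans h2.symm)
    exact (Int.modEq_iff_dvd.mp h3.symm)
  · intro h
    have h3 : altK p G ≡ numDefectZero p G [ZMOD 2] := (Int.modEq_iff_dvd.mpr h).symm
    exact h1.symm.trans (h3.trans h2)

/-! ### The criterion -/

variable {p : ℕ} [hp : Fact p.Prime]

theorem krc_dvd (hp2 : p ≠ 2) : ∀ (a : ℕ) (G : Type) [Group G] [Finite G],
    (∀ j ≤ a, (2 : ℤ) ∣ altK p (WrN j G) - numDefectZero p (WrN j G)) →
    (2 : ℤ) ^ (a + 1) ∣ altK p G - numDefectZero p G := by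
  intro a
  induction a with
  | zero =>
    intro G _ _ H
    rw [zero_add, pow_one]
    exact H 0 le_rfl
  | succ a ih =>
    intro G _ _ H
    have := Fintype.ofFinite G
    exact step (altK_wr hp2) (defectZero_wr hp2) (ih G fun j hj => H j (by omega))
      (ih (Wr G) fun j hj => H (j + 1) (by omega))

theorem krc_levels (hp2 : p ≠ 2) : ∀ (a : ℕ) (G : Type) [Group G] [Finite G],
    altK p G = numDefectZero p G → altK p (WrN a G) = numDefectZero p (WrN a G) := by
  intro a
  induction a with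
  | zero => exact fun G _ _ h => h
  | succ a ih =>
    intro G _ _ h
    have := Fintype.ofFinite G
    refine ih (Wr G) ?_
    have h1 := altK_wr (G := G) hp2
    have h2 := defectZero_wr (G := G) hp2
    rw [h] at h1
    linarith

/-- for one group -/
theorem krc_one (hp2 : p ≠ 2) (G : Type) [Group G] [Finite G] :
    KRC p G ↔ ∀ j : ℕ, realChainClasses p (WrN j G) ≡ numRealDefectZero p (WrN j G) [MOD 2] := by
  rw [krc_altK]
  simp_rw [parity_iff]
  constructor
  · intro h j
    rw [krc_levels hp2 j G h, sub_self]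
    exact dvd_zero _
  · intro h
    exact eq_of_all fun a => krc_dvd hp2 a G fun j _ => h j

/-- for all groups -/
theorem krc_all (hp2 : p ≠ 2) :
    (∀ (G : Type) [Group G] [Finite G], KRC p G) ↔
    ∀ (G : Type) [Group G] [Finite G], realChainClasses p G ≡ numRealDefectZero p G [MOD 2] := by
  constructor
  · intro h G _ _
    rw [parity_iff, (krc_altK G).mp (h G), sub_self]
    exact dvd_zero _
  · intro h G _ _
    rw [krc_one hp2]
    exact fun j => h (WrN j G)

end Pool.Agent.Q90.WR
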