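import Pool.Agent.Q259.BW.Main
import Pool.Agent.Q90.WR.Daf

/-!
# Characters of subgroups of a wreath product whose block induces to a given block
-/

set_option autoImplicit false
set_option linter.unusedSectionVars false

open scoped BigOperators Classical

noncomputable section

namespace Pool.Agent.Q90.WR

open Pool.Agent.Y63.KR Pool.Agent.Q259.BW Pool.Agent.H254R3.IN Polynomial
open Pool.Agent.Helper884.IC (Irr)

/-! ### sets of characters and their defects -/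

section sets

/-- The number of elements of `p`-defect `d` in the set `A` of characters of `K`. -/
def anum (p d : ℕ) {K : Type} [Group K] (A : Set (K → ℂ)) : ℕ :=
  Nat.card {θ : K → ℂ // θ ∈ A ∧
    ∃ n : ℕ, θ 1 = (n : ℂ) ∧ n.factorization p + d = (Nat.card K).factorization p}

variable {K : Type} [Group K] {p : ℕ}

theorem anum_card [Fintype K] {A : Set (K → ℂ)} (hA : ∀ θ ∈ A, IsIrr θ) (d : ℕ) :
    anum p d A = ((Irr K).filter (fun χ => χ ∈ A ∧ dfn p χ = d)).card := by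
  rw [← card_filter_eq]
  unfold anum
  refine Nat.card_congr (Equiv.subtypeEquivRight fun χ => ?_)
  constructor
  · rintro ⟨h1, n, hn, h⟩
    refine ⟨hA χ h1, h1, ?_⟩
    rw [dfn_eq p hn]
    omega
  · rintro ⟨h1, h2, h3⟩
    obtain ⟨m, hm0, hm⟩ := deg_pos h1
    have h4 := fac_le (p := p) h1 hm
    rw [dfn_eq p hm] at h3
    exact ⟨h2, m, hm, by omega⟩

/-- the generating function of the defects -/
def apoly (p : ℕ) {K : Type} [Group K] (A : Set (K → ℂ)) : ℚ[X] :=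
  ∑ d ∈ Finset.range ((Nat.card K).factorization p + 1), C (anum p d A : ℚ) * X ^ d

theorem apoly_coeff (A : Set (K → ℂ)) (d : ℕ) : (apoly p A).coeff d = anum p d A := by
  unfold apoly
  rw [finsetSum_coeff]
  simp only [coeff_C_mul_X_pow]
  rw [Finset.sum_ite_eq]
  split_ifs with h
  · rfl
  · rw [Finset.mem_range, not_lt] at h
    have : IsEmpty {θ : K → ℂ // θ ∈ A ∧
        ∃ n : ℕ, θ 1 = (n : ℂ) ∧ n.factorization p + d = (Nat.card K).factorization p} := by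
      constructor
      rintro ⟨χ, _, n, _, h2⟩
      omega
    unfold anum
    rw [Nat.card_of_isEmpty, Nat.cast_zero]

theorem apoly_sum [Fintype K] {A : Set (K → ℂ)} (hA : ∀ θ ∈ A, IsIrr θ) :
    apoly p A = ∑ χ ∈ (Irr K).filter (· ∈ A), X ^ dfn p χ := by
  ext d
  rw [apoly_coeff, coeff_sum_X, anum_card hA, Finset.filter_filter]

/-- transport by an isomorphism -/
theorem anum_congr {K' : Type} [Group K'] (e : K ≃* K') (A : Set (K → ℂ)) (A' : Set (K' → ℂ))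
    (h : ∀ θ : K' → ℂ, (fun g => θ (e g)) ∈ A ↔ θ ∈ A') (d : ℕ) : anum p d A = anum p d A' := by
  unfold anum
  symm
  refine Nat.card_congr ⟨fun θ => ⟨fun g => θ.1 (e g), ?_⟩, fun θ => ⟨fun g => θ.1 (e.symm g), ?_⟩,
    fun θ => ?_, fun θ => ?_⟩
  · refine ⟨(h θ.1).mpr θ.2.1, ?_⟩
    obtain ⟨n, hn, h2⟩ := θ.2.2
    exact ⟨n, by change θ.1 (e 1) = _; rw [map_one]; exact hn, by
      rw [Nat.card_congr e.toEquiv]; exact h2⟩
  · refine ⟨(h _).mp (by simpa using θ.2.1), ?_⟩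
    obtain ⟨n, hn, h2⟩ := θ.2.2
    exact ⟨n, by change θ.1 (e.symm 1) = _; rw [map_one]; exact hn, by
      rw [← Nat.card_congr e.toEquiv]; exact h2⟩
  · apply Subtype.ext
    funext g
    simp
  · apply Subtype.ext
    funext g
    simp

theorem apoly_congr {K' : Type} [Group K'] (e : K ≃* K') (A : Set (K → ℂ)) (A' : Set (K' → ℂ))
    (h : ∀ θ : K' → ℂ, (fun g => θ (e g)) ∈ A ↔ θ ∈ A') : apoly p A = apoly p A' := by
  ext d
  rw [apoly_coeff, apoly_coeff, anum_congr e A A' h]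

/-- products of characters -/
def bxS {H K : Type} (A : Set (H → ℂ)) (A' : Set (K → ℂ)) : Set (H × K → ℂ) :=
  {χ | ∃ θ ∈ A, ∃ ψ ∈ A', χ = box θ ψ}

theorem apoly_box {H K : Type} [Group H] [Group K] [Finite H] [Finite K] {A : Set (H → ℂ)}
    {A' : Set (K → ℂ)} (hA : ∀ θ ∈ A, IsIrr θ) (hA' : ∀ θ ∈ A', IsIrr θ) :
    apoly p (bxS A A') = apoly p A * apoly p A' := by
  have := Fintype.ofFinite H
  have := Fintype.ofFinite K
  rw [apoly_sum hA, apoly_sum hA', apoly_sum, Finset.sum_filter, sum_Irr_prod, ← Finset.sum_filter,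
    Finset.sum_mul_sum, ← Finset.sum_product']
  · refine Finset.sum_congr ?_ fun t ht => ?_
    · ext t
      simp only [Finset.mem_filter, Finset.mem_product, Helper884.IC.mem_Irr]
      constructor
      · rintro ⟨⟨i1, i2⟩, θ, h1, ψ, h2, h⟩
        obtain ⟨e1, e2⟩ := box_inj i1 i2 (hA _ h1) (hA' _ h2) h
        rw [e1, e2]
        exact ⟨⟨hA _ h1, h1⟩, hA' _ h2, h2⟩
      · rintro ⟨⟨i1, h1⟩, i2, h2⟩
        exact ⟨⟨i1, i2⟩, t.1, h1, t.2, h2, rfl⟩
    · simp only [Finset.mem_filter, Finset.mem_product, Helper884.IC.mem_Irr] at ht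
      rw [dfn_box ht.1.1 ht.2.1, pow_add]
  · rintro _ ⟨θ, h1, ψ, h2, rfl⟩
    exact box_irr (hA _ h1) (hA' _ h2)

theorem apoly_WrS [hp : Fact p.Prime] (hp2 : p ≠ 2) {H : Type} [Group H] [Finite H]
    {A : Set (H → ℂ)} (hA : ∀ θ ∈ A, IsIrr θ) :
    2 * apoly p (WrS A) = apoly p A ^ 2 + 3 * expand ℚ 2 (apoly p A) := by
  have := Fintype.ofFinite H
  set S := (Irr H).filter (· ∈ A) with hS
  have e1 : expand ℚ 2 (apoly p A) = ∑ θ ∈ S, X ^ (2 * dfn p θ) := by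
    rw [apoly_sum hA, map_sum]
    refine Finset.sum_congr rfl fun θ _ => ?_
    rw [map_pow, expand_X, ← pow_mul]
  have e2 : apoly p A ^ 2 = ∑ t ∈ S.offDiag, X ^ (dfn p t.1 + dfn p t.2) +
      ∑ θ ∈ S, X ^ (2 * dfn p θ) := by
    rw [apoly_sum hA, pow_two, Finset.sum_mul_sum, ← Finset.sum_product',
      ← Finset.diag_union_offDiag, Finset.sum_union (Finset.disjoint_diag_offDiag _),
      Finset.sum_diag, add_comm]
    congr 1
    · exact Finset.sum_congr rfl fun t _ => (pow_add _ _ _).symm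
    · exact Finset.sum_congr rfl fun t _ => by rw [← pow_add, two_mul]
  rw [e1, e2]
  ext d
  have h := count (G := H) (fun χ => χ ∈ WrS A ∧ dfn p χ = d)
  have h1 : ∀ dd : DecidablePred (fun t : (H → ℂ) × (H → ℂ) =>
      ind2 t.1 t.2 ∈ WrS A ∧ dfn p (ind2 t.1 t.2) = d),
      @Finset.filter _ _ dd ((Irr H).offDiag) =
        S.offDiag.filter (fun t => dfn p t.1 + dfn p t.2 = d) := by
    intro dd
    ext t
    simp only [hS, Finset.mem_filter, Finset.mem_offDiag, Helper884.IC.mem_Irr]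
    constructor
    · rintro ⟨⟨i1, i2, hne⟩, h1, h2⟩
      rw [mem_WrS_ind hA i1 i2 hne] at h1
      rw [dfn_ind2 hp2 i1 i2] at h2
      exact ⟨⟨⟨i1, h1.1⟩, ⟨i2, h1.2⟩, hne⟩, h2⟩
    · rintro ⟨⟨⟨i1, h1⟩, ⟨i2, h2⟩, hne⟩, h3⟩
      refine ⟨⟨i1, i2, hne⟩, (mem_WrS_ind hA i1 i2 hne).mpr ⟨h1, h2⟩, ?_⟩
      rw [dfn_ind2 hp2 i1 i2]
      exact h3
  have h2 : ∀ ε : ℂ, (ε = 1 ∨ ε = -1) →
      ∀ dd : DecidablePred (fun θ : H → ℂ => ext2 ε θ ∈ WrS A ∧ dfn p (ext2 ε θ) = d),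
      @Finset.filter _ _ dd (Irr H) = S.filter (fun θ => 2 * dfn p θ = d) := by
    intro ε hε dd
    ext θ
    simp only [hS, Finset.mem_filter, Helper884.IC.mem_Irr]
    constructor
    · rintro ⟨i1, h1, h2⟩
      rw [mem_WrS_ext hA i1 hε] at h1
      rw [dfn_ext2 hp2 i1] at h2
      exact ⟨⟨i1, h1⟩, h2⟩
    · rintro ⟨⟨i1, h1⟩, h2⟩
      refine ⟨i1, (mem_WrS_ext hA i1 hε).mpr h1, ?_⟩
      rw [dfn_ext2 hp2 i1]
      exact h2
  rw [h1, h2 1 (Or.inl rfl), h2 (-1) (Or.inr rfl)] at h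
  replace h : 2 * anum p d (WrS A) =
      (S.offDiag.filter (fun t => dfn p t.1 + dfn p t.2 = d)).card +
        2 * (S.filter (fun θ => 2 * dfn p θ = d)).card +
        2 * (S.filter (fun θ => 2 * dfn p θ = d)).card := by
    rw [anum_card (WrS_irr hA)]
    convert h
  have h3 : (2 * apoly p (WrS A)).coeff d = 2 * (anum p d (WrS A) : ℚ) := by
    rw [← apoly_coeff]
    exact coeff_ofNat_mul
  have h4 : ∀ P : ℚ[X], (3 * P).coeff d = 3 * P.coeff d := fun P => coeff_ofNat_mul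
  rw [h3, coeff_add, coeff_add, h4, coeff_sum_X, coeff_sum_X]
  have h5 : (2 * (anum p d (WrS A) : ℚ)) = ((2 * anum p d (WrS A) : ℕ) : ℚ) := by push_cast; rfl
  rw [h5, h]
  push_cast
  ring

end sets

/-! ### characters whose block induces to a block -/

/-- Let `π : K → G` (the inclusion of a subgroup). The irreducible characters `θ` of `K` such that
`λ_B(C⁺) = λ_θ((C ∩ K)⁺)` for every conjugacy class `C` of `G`, i.e. the characters in the blocks `b`
of `K` with `b^G = B`. -/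
def IndS (O : ValuationSubring ℂ) {G : Type} [Group G] (B : Set (G → ℂ)) {K : Type} [Group K]
    (π : K → G) : Set (K → ℂ) :=
  {θ | IsIrr θ ∧ ∀ χ ∈ B, ∀ x : G,
    omega χ x - ∑ᶠ y : {y : K // IsConj x (π y)}, θ y / θ 1 ∈ O.nonunits}

section ind

variable {G K : Type} [Group G] [Group K] {O : ValuationSubring ℂ}

theorem IndS_irr {B : Set (G → ℂ)} {π : K → G} : ∀ θ ∈ IndS O B π, IsIrr θ := fun _ h => h.1

theorem sum_eq_L' [Fintype K] (π : K → G) (θ : K → ℂ) (x : G) :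
    ∑ᶠ y : {y : K // IsConj x (π y)}, θ y / θ 1 = L π θ x := by
  rw [finsum_eq_sum_of_fintype]
  unfold L
  rw [Finset.sum_div]
  have h1 : ∑ y : {y : K // IsConj x (π y)}, θ y / θ 1 =
      ∑ y ∈ Finset.univ.filter (fun y : K => IsConj x (π y)), θ y / θ 1 :=
    (Finset.sum_subtype _ (fun y => by simp only [Finset.mem_filter, Finset.mem_univ, true_and])
      fun y => θ y / θ 1).symm
  rw [h1, Finset.sum_filter]
  refine Finset.sum_congr rfl fun y _ => ?_
  split_ifs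
  · rfl
  · rw [zero_div]

theorem mem_IndS [Fintype K] [Fintype G] {B : Set (G → ℂ)} (hB : IsBlock O B) {χ₀ : G → ℂ}
    (h0 : χ₀ ∈ B) (π : K → G) (θ : K → ℂ) :
    θ ∈ IndS O B π ↔ IsIrr θ ∧ ∀ x, L π θ x ∈ O ∧ red O (L π θ x) = red O (omega χ₀ x) := by
  constructor
  · rintro ⟨h1, h2⟩
    refine ⟨h1, fun x => ?_⟩
    have h3 := h2 χ₀ h0 x
    rw [sum_eq_L'] at h3
    have h4 := red_congr ((hB.irr χ₀ h0).omega_mem O x) h3
    exact ⟨h4.1, h4.2.symm⟩
  · rintro ⟨h1, h2⟩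
    refine ⟨h1, fun χ hχ x => ?_⟩
    rw [sum_eq_L', ← red_eq_iff ((hB.irr χ hχ).omega_mem O x) (h2 x).1, (h2 x).2]
    exact hB.red_eq hχ h0 x

/-- transport by an isomorphism -/
theorem IndS_congr {K' : Type} [Group K'] (e : K ≃* K') {B : Set (G → ℂ)} {π : K → G}
    {π' : K' → G} (h : ∀ c, IsConj (π c) (π' (e c))) (θ : K' → ℂ) :
    (fun g => θ (e g)) ∈ IndS O B π ↔ θ ∈ IndS O B π' := by
  unfold IndS
  simp only [Set.mem_ofPred_eq]
  have h1 : IsIrr (fun g => θ (e g)) ↔ IsIrr θ := irr_comp_iff e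
  rw [h1]
  have h2 : ∀ x : G, ∑ᶠ y : {y : K // IsConj x (π y)}, θ (e y) / θ (e 1) =
      ∑ᶠ y : {y : K' // IsConj x (π' y)}, θ y / θ 1 := by
    intro x
    rw [map_one]
    let e' : {y : K // IsConj x (π y)} ≃ {y : K' // IsConj x (π' y)} :=
      Equiv.subtypeEquiv e.toEquiv fun y =>
        ⟨fun hy => hy.trans (h y), fun hy => hy.trans (h y).symm⟩
    exact finsum_comp_equiv e' (f := fun y : {y : K' // IsConj x (π' y)} => θ y / θ 1)
  simp only [h2]

end ind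

/-! ### the block of the wreath product -/

section wrb

variable {G : Type} [Group G] [Fintype G] {O : ValuationSubring ℂ} {B : Set (G → ℂ)}

/-- the central character of the block of the wreath product -/
theorem omega_WrS (h2 : (2 : ℂ)⁻¹ ∈ O) (hB : IsBlock O B)
    (hz : ∀ ψ ∈ B, (Nat.card G : ℂ) / ψ 1 ∈ O.nonunits) {χ₀ : G → ℂ} (h0 : χ₀ ∈ B)
    {χ : Wr G → ℂ} (hχ : χ ∈ WrS B) (x : Wr G) :
    red O (omega χ x) = Lam O (fun a => red O (omega χ₀ a)) x := by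
  have hi := hB.irr
  have hL : ∀ ψ ∈ B, ∀ a, L (MonoidHom.id G) ψ a ∈ O ∧
      red O (L (MonoidHom.id G) ψ a) = red O (omega χ₀ a) := by
    intro ψ hψ a
    rw [← omega_eq_L (hi ψ hψ)]
    exact ⟨(hi ψ hψ).omega_mem O a, hB.red_eq hψ h0 a⟩
  have hP := L_wr h2 (fun ψ hψ => (hi ψ hψ).one_ne) _ hL hz χ hχ x
  rw [omega_eq_L' (WrS_irr hi χ hχ)]
  exact hP.2

/-- two functions with the right products -/
theorem both_of_prod (h2 : (2 : ℂ)⁻¹ ∈ O) {lam l₁ l₂ : G → ℂ} (m0 : ∀ a, lam a ∈ O)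
    (m1 : ∀ a, l₁ a ∈ O) (m2 : ∀ a, l₂ a ∈ O) (n0 : lam 1 = 1) (n1 : l₁ 1 = 1) (n2 : l₂ 1 = 1)
    (h : ∀ a b : G, red O (Q259.BW.kap a b * (l₁ a * l₂ b + l₂ a * l₁ b)) =
      red O (Q259.BW.kap a b) * (2 * (red O (lam a) * red O (lam b)))) (a : G) :
    red O (l₁ a) = red O (lam a) ∧ red O (l₂ a) = red O (lam a) := by
  obtain ⟨hh, h2ne⟩ := half_red h2
  have q1 := h a 1
  have q2 := h a a
  rw [n1, n2, n0, mul_one, mul_one, red_mul (kap_mem h2 _ _) (O.add_mem _ _ (m1 a) (m2 a)),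
    red_add (m1 a) (m2 a), red_one, mul_one] at q1
  rw [red_mul (kap_mem h2 _ _) (O.add_mem _ _ (O.mul_mem _ _ (m1 a) (m2 a))
    (O.mul_mem _ _ (m2 a) (m1 a))), red_add (O.mul_mem _ _ (m1 a) (m2 a))
    (O.mul_mem _ _ (m2 a) (m1 a)), red_mul (m1 a) (m2 a), red_mul (m2 a) (m1 a)] at q2
  have hka : red O ((2 : ℂ)⁻¹) ≠ 0 := fun h => by rw [h, zero_mul] at hh; exact zero_ne_one hh
  have k1 : red O (Q259.BW.kap a 1) ≠ 0 := by
    unfold Q259.BW.kap
    split_ifs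
    · rw [one_div]; exact hka
    · rw [red_one]; exact one_ne_zero
  have k2 : red O (Q259.BW.kap a a) ≠ 0 := by
    unfold Q259.BW.kap
    rw [if_pos (IsConj.refl a), one_div]; exact hka
  have r1 := mul_left_cancel₀ k1 q1
  have r2 := mul_left_cancel₀ k2 q2
  have r3 : red O (l₁ a) * red O (l₂ a) = red O (lam a) * red O (lam a) := by
    apply mul_left_cancel₀ h2ne
    linear_combination r2
  have r4 : (red O (l₁ a) - red O (lam a)) ^ 2 = 0 := by
    linear_combination (red O (l₁ a)) * r1 - r3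
  have r5 := sub_eq_zero.mp (pow_eq_zero_iff two_ne_zero |>.mp r4)
  refine ⟨r5, ?_⟩
  rw [r5] at r1
  linear_combination r1

end wrb

end Pool.Agent.Q90.WR
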