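import Pool.Agent.Q90.WR.Bch

/-!
# Induced blocks for the stabilisers of chains in wreath products
-/

set_option autoImplicit false
set_option linter.unusedSectionVars false

open scoped BigOperators Classical

noncomputable section

namespace Pool.Agent.Q90.WR

open Pool.Agent.Y63.KR Pool.Agent.Q259.BW Pool.Agent.H254R3.IN Polynomial
open Pool.Agent.Helper884.IC (Irr)

/-! ### class sums -/

section sums

variable {K K' G : Type} [Group K] [Fintype K] [Group K'] [Fintype K'] [Group G]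

/-- the inclusion of a product into the wreath product -/
def pmap (π : K → G) (π' : K' → G) (c : K × K') : Wr G := ⟨π c.1, π' c.2, false⟩

theorem L_box_base {π : K → G} {π' : K' → G} {ψ : K → ℂ} {ψ' : K' → ℂ} (h1 : ψ 1 ≠ 0)
    (h2 : ψ' 1 ≠ 0) (a b : G) :
    L (pmap π π') (box ψ ψ') ⟨a, b, false⟩ =
      Q259.BW.kap a b * (L π ψ a * L π' ψ' b + L π' ψ' a * L π ψ b) := by
  have e1 : L (pmap π π') (box ψ ψ') ⟨a, b, false⟩ =
      (∑ c : K × K', if IsConj (⟨a, b, false⟩ : Wr G) (pmap π π' c) then box ψ ψ' c else 0) /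
        (ψ 1 * ψ' 1) := rfl
  have e2 : ∀ x y : G, ∑ c : K, ∑ d : K', (if IsConj x (π c) ∧ IsConj y (π' d) then
      ψ c * ψ' d else 0) = ψ 1 * ψ' 1 * (L π ψ x * L π' ψ' y) := by
    intro x y
    have e3 : ∀ c : K, ∀ d : K', (if IsConj x (π c) ∧ IsConj y (π' d) then ψ c * ψ' d else 0) =
        (if IsConj x (π c) then ψ c else 0) * (if IsConj y (π' d) then ψ' d else 0) := by
      intro c d
      by_cases h1 : IsConj x (π c)
      · by_cases h2 : IsConj y (π' d)
        · rw [if_pos ⟨h1, h2⟩, if_pos h1, if_pos h2]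
        · rw [if_neg (fun h => h2 h.2), if_neg h2, mul_zero]
      · rw [if_neg (fun h => h1 h.1), if_neg h1, zero_mul]
    simp_rw [e3]
    rw [← Finset.sum_mul_sum, sum_L h1, sum_L h2]
    ring
  have e4 : ∀ c : K, ∀ d : K', (if IsConj (⟨a, b, false⟩ : Wr G) (pmap π π' (c, d)) then
      box ψ ψ' (c, d) else 0) = Q259.BW.kap a b * ((if IsConj a (π c) ∧ IsConj b (π' d) then
        ψ c * ψ' d else 0) + (if IsConj b (π c) ∧ IsConj a (π' d) then ψ c * ψ' d else 0)) := by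
    intro c d
    have h3 : IsConj (⟨a, b, false⟩ : Wr G) (pmap π π' (c, d)) ↔
        ((IsConj a (π c) ∧ IsConj b (π' d)) ∨ (IsConj b (π c) ∧ IsConj a (π' d))) := by
      rw [isConj_false]
      simp only [pmap, true_and]
      constructor
      · rintro (h | ⟨h, h'⟩)
        · exact Or.inl h
        · exact Or.inr ⟨h', h⟩
      · rintro (h | ⟨h, h'⟩)
        · exact Or.inl h
        · exact Or.inr ⟨h', h⟩
    by_cases hab : IsConj a b
    · have e1 : ∀ z : G, IsConj a z ↔ IsConj b z := fun z =>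
        ⟨fun h => hab.symm.trans h, fun h => hab.trans h⟩
      unfold Q259.BW.kap box
      rw [if_pos hab]
      simp only [h3, e1]
      by_cases h : IsConj b (π c) ∧ IsConj b (π' d)
      · simp only [h, or_self, if_true, and_self]
        ring
      · simp only [h, or_self, if_false]
        ring
    · unfold Q259.BW.kap box
      rw [if_neg hab, one_mul]
      by_cases h4 : IsConj a (π c) ∧ IsConj b (π' d)
      · have h5 : ¬ (IsConj b (π c) ∧ IsConj a (π' d)) := fun h =>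
          hab (h4.1.trans h.1.symm)
        rw [if_pos h4, if_neg h5, if_pos (h3.mpr (Or.inl h4)), add_zero]
      · by_cases h5 : IsConj b (π c) ∧ IsConj a (π' d)
        · rw [if_neg h4, if_pos h5, if_pos (h3.mpr (Or.inr h5)), zero_add]
        · rw [if_neg h4, if_neg h5, if_neg (fun h => (h3.mp h).elim h4 h5), add_zero]
  rw [e1, Fintype.sum_prod_type]
  simp_rw [e4, ← Finset.mul_sum, Finset.sum_add_distrib]
  rw [e2, e2, div_eq_iff (mul_ne_zero h1 h2)]
  ring

theorem L_box_true {π : K → G} {π' : K' → G} {ψ : K → ℂ} {ψ' : K' → ℂ} (a b : G) :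
    L (pmap π π') (box ψ ψ') ⟨a, b, true⟩ = 0 := by
  unfold L
  rw [Finset.sum_eq_zero, zero_div]
  rintro ⟨c, d⟩ _
  rw [if_neg]
  rw [isConj_true]
  simp [pmap]

theorem L_mem {π : K →* G} {ψ : K → ℂ} (h : IsIrr ψ) (O : ValuationSubring ℂ) (a : G) :
    L π ψ a ∈ O := by
  have e : L π ψ a = Om (fun c => if IsConj a (π c) then 1 else 0) ψ := by
    unfold L Om
    congr 1
    refine Finset.sum_congr rfl fun c _ => ?_
    dsimp only
    split_ifs
    · rw [one_mul]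
    · rw [zero_mul]
  rw [e]
  refine (red_Om h ?_ fun g => ?_).1
  · intro g y
    have h1 : IsConj a (π (y * g * y⁻¹)) ↔ IsConj a (π g) := by
      have h2 : IsConj (π g) (π (y * g * y⁻¹)) :=
        isConj_iff.mpr ⟨π y, by rw [map_mul, map_mul, map_inv]⟩
      exact ⟨fun h => h.trans h2.symm, fun h => h.trans h2⟩
    simp only [h1]
  · split_ifs
    · exact O.one_mem
    · exact O.zero_mem

theorem L_at_one {π : K →* G} (hπ : Function.Injective π) {ψ : K → ℂ} (h : ψ 1 ≠ 0) :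
    L π ψ 1 = 1 := by
  unfold L
  have h1 : ∀ c : K, (if IsConj (1 : G) (π c) then ψ c else 0) = if c = 1 then ψ c else 0 := by
    intro c
    have h2 : IsConj (1 : G) (π c) ↔ c = 1 := by
      rw [isConj_one_right, map_eq_one_iff π hπ]
    simp only [h2]
  rw [Finset.sum_congr rfl fun c _ => h1 c, Finset.sum_ite_eq' Finset.univ (1 : K) ψ,
    if_pos (Finset.mem_univ _), div_self h]

end sums

/-! ### the induced blocks -/

section blocks

variable {G : Type} [Group G] [Fintype G] {O : ValuationSubring ℂ} {B : Set (G → ℂ)}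
variable {K K' : Type} [Group K] [Fintype K] [Group K'] [Fintype K']

/-- the product of two functions with the values of `λ_B` -/
theorem key_prod (h2 : (2 : ℂ)⁻¹ ∈ O) {χ₀ : G → ℂ} (l l' : G → ℂ) (hl : ∀ a, l a ∈ O)
    (hl' : ∀ a, l' a ∈ O)
    (e : ∀ a, red O (l a) = red O (omega χ₀ a)) (e' : ∀ a, red O (l' a) = red O (omega χ₀ a))
    (a b : G) :
    Q259.BW.kap a b * (l a * l' b + l' a * l b) ∈ O ∧
      red O (Q259.BW.kap a b * (l a * l' b + l' a * l b)) =
        Lam O (fun a => red O (omega χ₀ a)) ⟨a, b, false⟩ := by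
  have m1 := O.mul_mem _ _ (hl a) (hl' b)
  have m2 := O.mul_mem _ _ (hl' a) (hl b)
  refine ⟨O.mul_mem _ _ (kap_mem h2 _ _) (O.add_mem _ _ m1 m2), ?_⟩
  rw [red_mul (kap_mem h2 _ _) (O.add_mem _ _ m1 m2), red_add m1 m2, red_mul (hl a) (hl' b),
    red_mul (hl' a) (hl b), e, e', e, e']
  change _ = red O (Q259.BW.kap a b) * (2 * (red O (omega χ₀ a) * red O (omega χ₀ b)))
  ring

/-- **the product of two subgroups** -/
theorem IndS_prod (h2 : (2 : ℂ)⁻¹ ∈ O) (hB : IsBlock O B)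
    (hz : ∀ ψ ∈ B, (Nat.card G : ℂ) / ψ 1 ∈ O.nonunits) (π : K →* G) (π' : K' →* G)
    (hπ : Function.Injective π) (hπ' : Function.Injective π') :
    IndS O (WrS B) (pmap π π') = bxS (IndS O B π) (IndS O B π') := by
  obtain ⟨χ₀, h0⟩ := hB.nonempty
  have hW := wr_block h2 hB hz
  have hX0 : ext2 1 χ₀ ∈ WrS B := Or.inr ⟨χ₀, h0, Or.inl rfl⟩
  have i0 := hB.irr χ₀ h0
  have m0 : ∀ a, omega χ₀ a ∈ O := fun a => i0.omega_mem O a
  ext χ
  rw [mem_IndS hW hX0]
  simp only [omega_WrS h2 hB hz h0 hX0]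
  constructor
  · rintro ⟨h1, h3⟩
    obtain ⟨θ, ψ, i1, i2, rfl⟩ := box_cover h1
    have n1 : θ 1 ≠ 0 := IsIrr.one_ne i1
    have n2 : ψ 1 ≠ 0 := IsIrr.one_ne i2
    have hb : ∀ a : G, red O (L π θ a) = red O (omega χ₀ a) ∧
        red O (L π' ψ a) = red O (omega χ₀ a) := by
      refine both_of_prod h2 m0 (L_mem i1 O) (L_mem i2 O) (omega_one i0) (L_at_one hπ n1)
        (L_at_one hπ' n2) fun a b => ?_
      have h4 := (h3 ⟨a, b, false⟩).2
      rw [L_box_base n1 n2] at h4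
      exact h4
    refine ⟨θ, (mem_IndS hB h0 _ _).mpr ⟨i1, fun a => ⟨L_mem i1 O a, (hb a).1⟩⟩, ψ,
      (mem_IndS hB h0 _ _).mpr ⟨i2, fun a => ⟨L_mem i2 O a, (hb a).2⟩⟩, rfl⟩
  · rintro ⟨θ, h1, ψ, h3, rfl⟩
    rw [mem_IndS hB h0] at h1 h3
    obtain ⟨i1, e1⟩ := h1
    obtain ⟨i2, e2⟩ := h3
    refine ⟨box_irr i1 i2, ?_⟩
    rintro ⟨a, b, s⟩
    cases s
    · rw [L_box_base (IsIrr.one_ne i1) (IsIrr.one_ne i2)]
      exact key_prod h2 _ _ (fun a => (e1 a).1) (fun a => (e2 a).1) (fun a => (e1 a).2)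
        (fun a => (e2 a).2) a b
    · rw [L_box_true]
      exact ⟨O.zero_mem, red_zero⟩

/-- **the wreath product of a subgroup** -/
theorem IndS_wr (h2 : (2 : ℂ)⁻¹ ∈ O) (hB : IsBlock O B)
    (hz : ∀ ψ ∈ B, (Nat.card G : ℂ) / ψ 1 ∈ O.nonunits) (π : K →* G)
    (hπ : Function.Injective π)
    (hzK : ∀ θ ∈ IndS O B π, (Nat.card K : ℂ) / θ 1 ∈ O.nonunits) :
    IndS O (WrS B) (wmap π) = WrS (IndS O B π) := by
  obtain ⟨χ₀, h0⟩ := hB.nonempty
  have hW := wr_block h2 hB hz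
  have hX0 : ext2 1 χ₀ ∈ WrS B := Or.inr ⟨χ₀, h0, Or.inl rfl⟩
  have i0 := hB.irr χ₀ h0
  have m0 : ∀ a, omega χ₀ a ∈ O := fun a => i0.omega_mem O a
  ext χ
  rw [mem_IndS hW hX0]
  simp only [omega_WrS h2 hB hz h0 hX0]
  constructor
  · rintro ⟨h1, h3⟩
    have key : ∀ θ ψ : K → ℂ, IsIrr θ → IsIrr ψ → (∀ a b : G,
        L (wmap π) χ ⟨a, b, false⟩ = Q259.BW.kap a b * (L π θ a * L π ψ b + L π ψ a * L π θ b)) →
        θ ∈ IndS O B π ∧ ψ ∈ IndS O B π := by
      intro θ ψ i1 i2 he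
      have hb : ∀ a : G, red O (L π θ a) = red O (omega χ₀ a) ∧
          red O (L π ψ a) = red O (omega χ₀ a) := by
        refine both_of_prod h2 m0 (L_mem i1 O) (L_mem i2 O) (omega_one i0)
          (L_at_one hπ (IsIrr.one_ne i1)) (L_at_one hπ (IsIrr.one_ne i2)) fun a b => ?_
        have h4 := (h3 ⟨a, b, false⟩).2
        rw [he] at h4
        exact h4
      exact ⟨(mem_IndS hB h0 _ _).mpr ⟨i1, fun a => ⟨L_mem i1 O a, (hb a).1⟩⟩,
        (mem_IndS hB h0 _ _).mpr ⟨i2, fun a => ⟨L_mem i2 O a, (hb a).2⟩⟩⟩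
    rcases cover h1 with ⟨θ₁, θ₂, i1, i2, hne, rfl⟩ | ⟨θ, i1, rfl⟩ | ⟨θ, i1, rfl⟩
    · have := key θ₁ θ₂ i1 i2 fun a b => L_ind_base (IsIrr.one_ne i1) (IsIrr.one_ne i2) a b
      exact Or.inl ⟨θ₁, this.1, θ₂, this.2, hne, rfl⟩
    · have := key θ θ i1 i1 fun a b => L_ext_base (IsIrr.one_ne i1) 1 a b
      exact Or.inr ⟨θ, this.1, Or.inl rfl⟩
    · have := key θ θ i1 i1 fun a b => L_ext_base (IsIrr.one_ne i1) (-1) a b
      exact Or.inr ⟨θ, this.1, Or.inr rfl⟩
  · intro h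
    refine ⟨WrS_irr IndS_irr χ h, ?_⟩
    exact L_wr h2 (fun ψ hψ => IsIrr.one_ne (IndS_irr ψ hψ)) (fun a => red O (omega χ₀ a))
      (fun ψ hψ a => ((mem_IndS hB h0 _ _).mp hψ).2 a) hzK χ h

end blocks

/-! ### characters of stabilisers of chains are not of defect zero -/

section dz

variable {p : ℕ} [hp : Fact p.Prime] {O : ValuationSubring ℂ}

theorem nonunits_of_fac (hpO : (p : ℂ) ∈ O.nonunits) {N n : ℕ} (hn : n ≠ 0)
    (h : n.factorization p < N.factorization p) : (N : ℂ) / n ∈ O.nonunits := by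
  obtain ⟨c, hc⟩ := Nat.ordProj_dvd N p
  obtain ⟨e, he⟩ := Nat.ordProj_dvd n p
  have hpe : ¬ p ∣ e := by
    have := Nat.not_dvd_ordCompl hp.out hn
    rwa [show n / p ^ n.factorization p = e from by
      rw [he]
      conv_lhs => rw [← he]
      exact Nat.div_eq_of_eq_mul_right (pow_pos hp.out.pos _) he] at this
  obtain ⟨k, hk⟩ : ∃ k, N.factorization p = n.factorization p + 1 + k :=
    ⟨N.factorization p - n.factorization p - 1, by omega⟩
  have hp0 : (p : ℂ) ≠ 0 := by exact_mod_cast hp.out.ne_zero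
  have he0 : (e : ℂ) ≠ 0 := by
    intro h0
    have : e = 0 := by exact_mod_cast h0
    rw [this, mul_zero] at he
    exact hn he
  have hval : (N : ℂ) / n = ((p : ℂ) ^ k * c * (e : ℂ)⁻¹) * p := by
    have h1 : (N : ℂ) = (p : ℂ) ^ (n.factorization p + 1 + k) * c := by
      rw [← hk]; exact_mod_cast hc
    have h2 : (n : ℂ) = (p : ℂ) ^ n.factorization p * e := by exact_mod_cast he
    rw [h1]
    conv_lhs => rw [h2]
    rw [pow_add, pow_add, pow_one]
    field_simp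
  rw [hval]
  have hpm := nonunits_mem hpO
  have m1 : (p : ℂ) ^ k * c * (e : ℂ)⁻¹ ∈ O :=
    O.mul_mem _ _ (O.mul_mem _ _ (pow_mem hpm k) (natCast_mem' (O := O) c)) (nat_inv_mem hpO hpe)
  rw [← red_eq_zero_iff (O.mul_mem _ _ m1 hpm), red_mul m1 hpm, red_eq_zero hpO, mul_zero]

end dz

end Pool.Agent.Q90.WR
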