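import Pool.Agent.Q90.WR.Bci
import Pool.Agent.Y63.KR.Chi

/-!
# Blockwise alternating sums for wreath products: the recursion
-/

set_option autoImplicit false
set_option linter.unusedSectionVars false

open scoped BigOperators Classical

noncomputable section

namespace Pool.Agent.Q90.WR

open Pool.Agent.Y63.KR Pool.Agent.Q259.BW Pool.Agent.H254R3.IN Polynomial
open Pool.Agent.Helper884.IC (Irr)

/-! ### alternating sums of functions invariant under conjugation -/

section alt

variable {p : ℕ} {G : Type} [Group G]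

theorem card_mul_alternatingSum' [Finite G] (f : Subgroup G → ℤ)
    (hf : ∀ (g : G) (H : Subgroup G), f (conjSub g H) = f H) :
    (Nat.card G : ℤ) * alternatingSum p G f =
      ∑ σ : Ch p G,
        (-1) ^ σ.1.ncard * ((Nat.card (chainStabilizer σ.1) : ℤ) * f (chainStabilizer σ.1)) := by
  letI : MulAction G {σ : Set (Subgroup G) // IsPChain p σ} :=
    { smul := fun g σ => ⟨conjSub g '' σ.1, σ.2.conj g⟩
      one_smul := fun σ => by
        apply Subtype.ext
        change conjSub (1 : G) '' σ.1 = σ.1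
        have : (conjSub (1 : G)) = id := funext conjSub_one
        rw [this, Set.image_id]
      mul_smul := fun g h σ => by
        apply Subtype.ext
        change conjSub (g * h) '' σ.1 = conjSub g '' (conjSub h '' σ.1)
        rw [← Set.image_comp]
        congr 1
        exact funext fun P => conjSub_mul g h P }
  have hsm : ∀ (g : G) (σ : {σ : Set (Subgroup G) // IsPChain p σ}),
      (g • σ).1 = conjSub g '' σ.1 := fun _ _ => rfl
  have h := orbit_sum (G := G) (chainSetoid p G) (by
    intro σ τ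
    change (∃ g : G, τ.1 = conjSub g '' σ.1) ↔ _
    constructor
    · rintro ⟨g, hg⟩
      exact ⟨g, Subtype.ext (by rw [hsm, hg])⟩
    · rintro ⟨g, hg⟩
      exact ⟨g, by rw [← hg, hsm]⟩)
    (fun σ => (-1) ^ σ.1.ncard * f (chainStabilizer σ.1)) (by
      rintro σ τ ⟨g, hg⟩
      change (-1) ^ σ.1.ncard * f (chainStabilizer σ.1) =
        (-1) ^ τ.1.ncard * f (chainStabilizer τ.1)
      rw [hg, ncard_conj, chainStabilizer_conj, hf])
  unfold alternatingSum
  rw [h]
  refine Finset.sum_congr rfl fun σ _ => ?_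
  have hst : Nat.card (MulAction.stabilizer G σ) = Nat.card (chainStabilizer σ.1) := by
    refine Nat.card_congr (Equiv.subtypeEquivRight fun g => ?_)
    rw [MulAction.mem_stabilizer_iff, Subtype.ext_iff, hsm, mem_chainStabilizer]
    constructor
    · intro h3 P hP
      have hgP : conjSub g P ∈ σ.1 := by
        rw [← h3]
        exact ⟨P, hP, rfl⟩
      have hcard : Nat.card (conjSub g P) = Nat.card P :=
        Nat.card_congr (Subgroup.equivMapOfInjective _ _ (MulAut.conj g).injective).toEquiv.symm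
      rcases σ.2.chain.total hgP hP with h4 | h4
      · exact Subgroup.eq_of_le_of_card_ge h4 hcard.ge
      · exact (Subgroup.eq_of_le_of_card_ge h4 hcard.le).symm
    · intro h3
      ext P
      constructor
      · rintro ⟨Q, hQ, rfl⟩
        rw [h3 Q hQ]
        exact hQ
      · intro hP
        exact ⟨P, hP, h3 P hP⟩
  rw [hst]
  ring

end alt

/-! ### the recursion for arbitrary functions -/

section recursion

variable {G : Type} [Group G] [Fintype G] {p : ℕ} [hp : Fact p.Prime]
variable {R : Type} [CommRing R] [Algebra ℚ R]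

/-- the sum over all chains, weighted with the orders of the stabilisers -/
def wsumS (p : ℕ) {G : Type} [Group G] [Finite G] (f : Subgroup G → R) : R :=
  ∑ σ : Ch p G, (-1 : R) ^ σ.1.ncard *
    ((Nat.card (chainStabilizer σ.1) : R) * f (chainStabilizer σ.1))

/-- **the recursion for arbitrary functions of the stabilisers** -/
theorem wsumS_wr (hp2 : p ≠ 2) (f f2 : Subgroup G → R) (F : Subgroup (Wr G) → R)
    (hconj : ∀ (b : G) (H : Subgroup G), f (conjSub b H) = f H)
    (hprod : ∀ H K : Subgroup G, F (prd H K) = f H * f K)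
    (hwr : ∀ (b : G) (σ : Ch p G), 2 * F (twS b (chainStabilizer σ.1)) =
      f (chainStabilizer σ.1) ^ 2 + 3 * f2 (chainStabilizer σ.1)) :
    wsumS p F = wsumS p f ^ 2 + 3 * ((Nat.card G : R) * wsumS p f2) := by
  unfold wsumS
  rw [functional hp2 (fun H : Subgroup (Wr G) => (Nat.card H : R) * F H)]
  have e1 : ∀ H K : Subgroup G, (Nat.card (prd H K) : R) * F (prd H K) =
      ((Nat.card H : R) * f H) * ((Nat.card K : R) * f K) := by
    intro H K
    rw [hprod, Nat.card_congr (prdEquiv H K).toEquiv, Nat.card_prod]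
    push_cast
    ring
  have e2 : ∀ (b : G) (σ : Ch p G), (Nat.card (twS b (chainStabilizer σ.1)) : R) *
      F (twS b (chainStabilizer σ.1)) =
      (Nat.card (chainStabilizer σ.1) : R) ^ 2 *
        (f (chainStabilizer σ.1) ^ 2 + 3 * f2 (chainStabilizer σ.1)) := by
    intro b σ
    have e : twS b (chainStabilizer σ.1) ≃* Wr (chainStabilizer σ.1) :=
      (conjEquiv (⟨1, b, false⟩ : Wr G) (wrS (chainStabilizer σ.1))).symm.trans (wrSEquiv _)
    rw [Nat.card_congr e.toEquiv, Wr.card, ← hwr b σ]
    push_cast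
    ring
  have e3 : ∀ (b : G) (H : Subgroup G), (Nat.card (conjSub b H) : R) * f (conjSub b H) =
      (Nat.card H : R) * f H := by
    intro b H
    rw [hconj, Nat.card_congr (conjEquiv b H).symm.toEquiv]
  have e4 : ∀ σ : Ch p G, ((Nat.card (chainStabilizer σ.1) : ℚ)⁻¹ • ∑ b : G,
      ((Nat.card (twS b (chainStabilizer σ.1)) : R) * F (twS b (chainStabilizer σ.1)) -
        (Nat.card (prd (chainStabilizer σ.1) (conjSub b (chainStabilizer σ.1))) : R) *
          F (prd (chainStabilizer σ.1) (conjSub b (chainStabilizer σ.1))))) =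
      3 * ((Nat.card G : R) * ((Nat.card (chainStabilizer σ.1) : R) *
        f2 (chainStabilizer σ.1))) := by
    intro σ
    have e5 : ∀ b : G, ((Nat.card (twS b (chainStabilizer σ.1)) : R) *
        F (twS b (chainStabilizer σ.1)) -
        (Nat.card (prd (chainStabilizer σ.1) (conjSub b (chainStabilizer σ.1))) : R) *
          F (prd (chainStabilizer σ.1) (conjSub b (chainStabilizer σ.1)))) =
        (Nat.card (chainStabilizer σ.1) : R) * (3 * ((Nat.card (chainStabilizer σ.1) : R) *
        f2 (chainStabilizer σ.1))) := by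
      intro b
      rw [e2, e1, e3]
      ring
    rw [Finset.sum_congr rfl fun b _ => e5 b, Finset.sum_const, Finset.card_univ,
      ← Nat.card_eq_fintype_card, nsmul_eq_mul]
    have hne : (Nat.card (chainStabilizer σ.1) : ℚ) ≠ 0 := by
      exact_mod_cast (Nat.card_pos (α := chainStabilizer σ.1)).ne'
    have h6 : ∀ r : R, (Nat.card (chainStabilizer σ.1) : R) * r =
        (Nat.card (chainStabilizer σ.1) : ℚ) • r := by
      intro r
      rw [Nat.cast_smul_eq_nsmul, nsmul_eq_mul]
    rw [mul_left_comm, h6, smul_smul, inv_mul_cancel₀ hne, one_smul]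
    ring
  congr 1
  · rw [pow_two, Finset.sum_mul_sum]
    refine Finset.sum_congr rfl fun σ _ => Finset.sum_congr rfl fun τ _ => ?_
    rw [e1]
    ring
  · rw [Finset.mul_sum, Finset.mul_sum]
    refine Finset.sum_congr rfl fun σ _ => ?_
    rw [e4]
    ring

end recursion

/-! ### defects of the characters of chain stabilisers -/

section hz

variable {G : Type} [Group G] [Fintype G] {p : ℕ} [hp : Fact p.Prime] {O : ValuationSubring ℂ}
  {B : Set (G → ℂ)}

theorem IndS_id (hB : IsBlock O B) {θ : G → ℂ} (h : θ ∈ IndS O B (MonoidHom.id G)) : θ ∈ B := by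
  obtain ⟨χ₀, h0⟩ := hB.nonempty
  rw [mem_IndS hB h0] at h
  by_contra hn
  obtain ⟨x, hx⟩ := hB.exists_ne h0 h.1 hn
  apply hx
  have h1 := (h.2 x).2
  rw [← omega_eq_L h.1] at h1
  exact h1.symm

theorem hz_chain (hpO : (p : ℂ) ∈ O.nonunits) (hB : IsBlock O B)
    (hz : ∀ ψ ∈ B, (Nat.card G : ℂ) / ψ 1 ∈ O.nonunits) (σ : Ch p G) :
    ∀ θ ∈ IndS O B (Subtype.val : chainStabilizer σ.1 → G),
      (Nat.card (chainStabilizer σ.1) : ℂ) / θ 1 ∈ O.nonunits := by
  intro θ hθ
  by_cases hne : σ.1.Nonempty
  · have h1 := defectZero_chain σ.2 hne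
    have := Fintype.ofFinite (chainStabilizer σ.1)
    obtain ⟨n, hn0, hn⟩ := deg_pos hθ.1
    have h2 := fac_le (p := p) hθ.1 hn
    rw [hn]
    refine nonunits_of_fac hpO hn0.ne' (lt_of_le_of_ne h2 fun h3 => ?_)
    unfold Y63.AWC.numDefectZero at h1
    have hfin : Finite {χ : chainStabilizer σ.1 → ℂ // Y63.AWC.IsIrreducibleCharacter χ ∧
        ∃ n : ℕ, χ 1 = (n : ℂ) ∧
          n.factorization p = (Nat.card (chainStabilizer σ.1)).factorization p} := by
      have : Finite {χ : chainStabilizer σ.1 → ℂ // χ ∈ Irr (chainStabilizer σ.1)} := inferInstance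
      exact Finite.of_injective
        (fun χ : {χ : chainStabilizer σ.1 → ℂ // Y63.AWC.IsIrreducibleCharacter χ ∧
            ∃ n : ℕ, χ 1 = (n : ℂ) ∧
              n.factorization p = (Nat.card (chainStabilizer σ.1)).factorization p} =>
          (⟨χ.1, Helper884.IC.mem_Irr.mpr χ.2.1⟩ :
            {χ : chainStabilizer σ.1 → ℂ // χ ∈ Irr (chainStabilizer σ.1)}))
        (fun a b hab => Subtype.ext (congrArg
          (fun z : {χ : chainStabilizer σ.1 → ℂ // χ ∈ Irr (chainStabilizer σ.1)} => z.1) hab))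
    rw [Nat.card_eq_zero] at h1
    rcases h1 with h1 | h1
    · exact h1.false ⟨θ, hθ.1, n, hn, h3⟩
    · exact (not_finite_iff_infinite.mpr h1) hfin
  · rw [Set.not_nonempty_iff_eq_empty] at hne
    have htop : chainStabilizer σ.1 = ⊤ := by
      ext x
      rw [mem_chainStabilizer, hne]
      simp
    let e : G ≃* chainStabilizer σ.1 :=
      (Subgroup.topEquiv.symm).trans (MulEquiv.subgroupCongr htop.symm)
    have h1 : (fun g => θ (e g)) ∈ B := by
      apply IndS_id hB
      exact (IndS_congr e (π := MonoidHom.id G) (fun c => IsConj.refl _) θ).mpr hθ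
    have h2 := hz _ h1
    rw [map_one] at h2
    rw [← Nat.card_congr e.toEquiv]
    exact h2

end hz

/-! ### the three types of subgroups -/

section three

variable {G : Type} [Group G] [Fintype G] {p : ℕ} [hp : Fact p.Prime] {O : ValuationSubring ℂ}
  {B : Set (G → ℂ)}

/-- the generating function of the defects of the characters `θ` of `H` with `bl(θ)^G = B` -/
def bw (p : ℕ) (O : ValuationSubring ℂ) {G : Type} [Group G] (B : Set (G → ℂ)) (H : Subgroup G) :
    ℚ[X] := apoly p (IndS O B (Subtype.val : H → G))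

theorem bw_conj (b : G) (H : Subgroup G) : bw p O B (conjSub b H) = bw p O B H := by
  symm
  refine apoly_congr (conjEquiv b H) _ _ fun θ => ?_
  exact IndS_congr (conjEquiv b H) (fun c => isConj_iff.mpr ⟨b, rfl⟩) θ

theorem bw_prd (h2 : (2 : ℂ)⁻¹ ∈ O) (hB : IsBlock O B)
    (hz : ∀ ψ ∈ B, (Nat.card G : ℂ) / ψ 1 ∈ O.nonunits) (H K : Subgroup G) :
    bw p O (WrS B) (prd H K) = bw p O B H * bw p O B K := by
  have := Fintype.ofFinite H
  have := Fintype.ofFinite K
  unfold bw
  rw [← apoly_box IndS_irr IndS_irr]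
  refine apoly_congr (prdEquiv H K) _ _ fun θ => ?_
  have h := IndS_prod h2 hB hz H.subtype K.subtype (Subgroup.subtype_injective H)
    (Subgroup.subtype_injective K)
  have h3 : bxS (IndS O B (Subtype.val : H → G)) (IndS O B (Subtype.val : K → G)) =
    IndS O (WrS B) (pmap (Subtype.val : H → G) (Subtype.val : K → G)) := h.symm
  rw [h3]
  refine IndS_congr (prdEquiv H K) (fun c => ?_) θ
  have : c.1 = pmap (Subtype.val : H → G) (Subtype.val : K → G) (prdEquiv H K c) := by
    obtain ⟨⟨a, b, s⟩, h1, h2, h3⟩ := c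
    simp only at h1
    subst h1
    rfl
  rw [← this]

theorem bw_twS (hp2 : p ≠ 2) (h2 : (2 : ℂ)⁻¹ ∈ O) (hpO : (p : ℂ) ∈ O.nonunits) (hB : IsBlock O B)
    (hz : ∀ ψ ∈ B, (Nat.card G : ℂ) / ψ 1 ∈ O.nonunits) (b : G) (σ : Ch p G) :
    2 * bw p O (WrS B) (twS b (chainStabilizer σ.1)) =
      bw p O B (chainStabilizer σ.1) ^ 2 + 3 * expand ℚ 2 (bw p O B (chainStabilizer σ.1)) := by
  have := Fintype.ofFinite (chainStabilizer σ.1)
  unfold bw
  rw [← apoly_WrS hp2 IndS_irr]
  congr 1
  let e0 := conjEquiv (⟨1, b, false⟩ : Wr G) (wrS (chainStabilizer σ.1))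
  let e1 := wrSEquiv (chainStabilizer σ.1)
  let e : Wr (chainStabilizer σ.1) ≃* twS b (chainStabilizer σ.1) := e1.symm.trans e0
  symm
  refine apoly_congr e _ _ fun θ => ?_
  have h := IndS_wr h2 hB hz (chainStabilizer σ.1).subtype
    (Subgroup.subtype_injective _) (hz_chain hpO hB hz σ)
  have h3 : WrS (IndS O B (Subtype.val : chainStabilizer σ.1 → G)) =
    IndS O (WrS B) (wmap (Subtype.val : chainStabilizer σ.1 → G)) := h.symm
  rw [h3]
  refine IndS_congr e (fun c => ?_) θ
  exact isConj_iff.mpr ⟨⟨1, b, false⟩, rfl⟩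

end three

end Pool.Agent.Q90.WR
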