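import Pool.Agent.Q90.WR.Bcj

/-!
# Blockwise alternating sums are determined by parities
-/

set_option autoImplicit false
set_option linter.unusedSectionVars false

open scoped BigOperators Classical

noncomputable section

namespace Pool.Agent.Q90.WR

open Pool.Agent.Y63.KR Pool.Agent.Q259.BW Pool.Agent.H254R3.IN Polynomial
open Pool.Agent.Helper884.IC (Irr)

/-! ### the sums -/

/-- The alternating sum `∑_σ (-1)^|σ| k^d(B_σ)` over representatives `σ` of the `G`-classes of chains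
of nontrivial `p`-subgroups of `G`, the empty chain included; `k^d(B_σ)` is the number of irreducible
characters `θ` of `G_σ` of `p`-defect `d` with `bl(θ)^G = B`. -/
def blkDef (p : ℕ) (O : ValuationSubring ℂ) (d : ℕ) {G : Type} [Group G] (B : Set (G → ℂ)) : ℤ :=
  alternatingSum p G (fun H => (anum p d (IndS O B (Subtype.val : H → G)) : ℤ))

/-- The sum without signs, `∑_σ k^d(B_σ)`. -/
def blkDefT (p : ℕ) (O : ValuationSubring ℂ) (d : ℕ) {G : Type} [Group G] (B : Set (G → ℂ)) : ℕ :=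
  ∑ᶠ c : Quotient (chainSetoid p G),
    anum p d (IndS O B (Subtype.val : chainStabilizer c.out.1 → G))

/-- The alternating sum `∑_σ (-1)^|σ| k(B_σ)`; `k(B_σ)` is the number of irreducible characters `θ` of
`G_σ` with `bl(θ)^G = B`. -/
def blkAlt (p : ℕ) (O : ValuationSubring ℂ) {G : Type} [Group G] (B : Set (G → ℂ)) : ℤ :=
  alternatingSum p G (fun H => (Nat.card (IndS O B (Subtype.val : H → G)) : ℤ))

/-- The sum without signs, `∑_σ k(B_σ)`. -/
def blkAltT (p : ℕ) (O : ValuationSubring ℂ) {G : Type} [Group G] (B : Set (G → ℂ)) : ℕ :=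
  ∑ᶠ c : Quotient (chainSetoid p G),
    Nat.card (IndS O B (Subtype.val : chainStabilizer c.out.1 → G))

theorem altsum_mod {p : ℕ} {G : Type} [Group G] [Finite G] (f : Subgroup G → ℕ) :
    Even (∑ᶠ c : Quotient (chainSetoid p G), f (chainStabilizer c.out.1)) ↔
      (2 : ℤ) ∣ alternatingSum p G (fun H => (f H : ℤ)) := by
  have : Fintype (Quotient (chainSetoid p G)) := Fintype.ofFinite _
  have h : alternatingSum p G (fun H => (f H : ℤ)) ≡
      ((∑ᶠ c : Quotient (chainSetoid p G), f (chainStabilizer c.out.1) : ℕ) : ℤ) [ZMOD 2] := by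
    unfold alternatingSum
    rw [finsum_eq_sum_of_fintype, finsum_eq_sum_of_fintype, Nat.cast_sum]
    refine Int.ModEq.sum fun c _ => ?_
    have h2 : ((-1 : ℤ)) ^ c.out.1.ncard ≡ 1 [ZMOD 2] := by
      rcases neg_one_pow_eq_or ℤ c.out.1.ncard with h | h
      · rw [h]
      · rw [h]; decide
    have h3 := h2.mul_right (f (chainStabilizer c.out.1) : ℤ)
    rw [one_mul] at h3
    exact h3
  rw [Int.ModEq] at h
  rw [even_iff_two_dvd, ← Int.natCast_dvd_natCast]
  constructor
  · intro h1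
    omega
  · intro h1
    omega

theorem blkDef_parity {p : ℕ} {O : ValuationSubring ℂ} (d : ℕ) {G : Type} [Group G] [Finite G]
    (B : Set (G → ℂ)) : Even (blkDefT p O d B) ↔ (2 : ℤ) ∣ blkDef p O d B :=
  altsum_mod (fun H => anum p d (IndS O B (Subtype.val : H → G)))

theorem blkAlt_parity {p : ℕ} {O : ValuationSubring ℂ} {G : Type} [Group G] [Finite G]
    (B : Set (G → ℂ)) : Even (blkAltT p O B) ↔ (2 : ℤ) ∣ blkAlt p O B :=
  altsum_mod (fun H => Nat.card (IndS O B (Subtype.val : H → G)))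

/-! ### generating functions -/

section gen

variable {p : ℕ} [hp : Fact p.Prime] {O : ValuationSubring ℂ} {G : Type} [Group G]
  {B : Set (G → ℂ)}

theorem bw_coeff (H : Subgroup G) (d : ℕ) :
    (bw p O B H).coeff d = anum p d (IndS O B (Subtype.val : H → G)) := apoly_coeff _ d

theorem bw_eval [Finite G] (H : Subgroup G) :
    (bw p O B H).eval 1 = Nat.card (IndS O B (Subtype.val : H → G)) := by
  have := Fintype.ofFinite H
  unfold bw
  rw [apoly_sum IndS_irr, eval_finsetSum]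
  simp only [eval_pow, eval_X, one_pow, Finset.sum_const, nsmul_eq_mul, mul_one]
  rw [card_set IndS_irr]

variable [Fintype G]

/-- the generating function of the alternating sums -/
def blkP (p : ℕ) (O : ValuationSubring ℂ) {G : Type} [Group G] [Finite G] (B : Set (G → ℂ)) :
    ℚ[X] := (Nat.card G : ℚ)⁻¹ • wsumS p (bw p O B)

theorem blkP_coeff (d : ℕ) : (blkP p O B).coeff d = (blkDef p O d B : ℚ) := by
  have h := card_mul_alternatingSum' (p := p) (G := G)
    (fun H => (anum p d (IndS O B (Subtype.val : H → G)) : ℤ)) (fun g H => by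
      have h1 := congrArg (fun P : ℚ[X] => P.coeff d) (bw_conj (p := p) (O := O) (B := B) g H)
      simp only [bw_coeff] at h1
      exact_mod_cast h1)
  have h2 : (wsumS p (bw p O B)).coeff d = (Nat.card G : ℚ) * (blkDef p O d B : ℚ) := by
    unfold blkDef
    have h3 : ((Nat.card G : ℚ) * (alternatingSum p G
        (fun H => (anum p d (IndS O B (Subtype.val : H → G)) : ℤ)) : ℚ)) =
        (((Nat.card G : ℤ) * alternatingSum p G
          (fun H => (anum p d (IndS O B (Subtype.val : H → G)) : ℤ)) : ℤ) : ℚ) := by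
      push_cast; rfl
    rw [h3, h]
    unfold wsumS
    rw [finsetSum_coeff, Int.cast_sum]
    refine Finset.sum_congr rfl fun σ _ => ?_
    have h4 : ((-1 : ℚ[X]) ^ σ.1.ncard *
        ((Nat.card (chainStabilizer σ.1) : ℚ[X]) * bw p O B (chainStabilizer σ.1))) =
        C ((-1 : ℚ) ^ σ.1.ncard * (Nat.card (chainStabilizer σ.1) : ℚ)) *
          bw p O B (chainStabilizer σ.1) := by
      simp only [map_mul, map_pow, map_neg, map_one, map_natCast]
      ring
    rw [h4, coeff_C_mul, bw_coeff]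
    push_cast
    ring
  unfold blkP
  rw [coeff_smul, h2, smul_eq_mul, ← mul_assoc, inv_mul_cancel₀, one_mul]
  exact_mod_cast (Nat.card_pos (α := G)).ne'

theorem blkP_eval : (blkP p O B).eval 1 = (blkAlt p O B : ℚ) := by
  have h := card_mul_alternatingSum' (p := p) (G := G)
    (fun H => (Nat.card (IndS O B (Subtype.val : H → G)) : ℤ)) (fun g H => by
      have h1 := congrArg (fun P : ℚ[X] => P.eval 1) (bw_conj (p := p) (O := O) (B := B) g H)
      simp only [bw_eval] at h1
      exact_mod_cast h1)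
  have h2 : (wsumS p (bw p O B)).eval 1 = (Nat.card G : ℚ) * (blkAlt p O B : ℚ) := by
    unfold blkAlt
    have h3 : ((Nat.card G : ℚ) * (alternatingSum p G
        (fun H => (Nat.card (IndS O B (Subtype.val : H → G)) : ℤ)) : ℚ)) =
        (((Nat.card G : ℤ) * alternatingSum p G
          (fun H => (Nat.card (IndS O B (Subtype.val : H → G)) : ℤ)) : ℤ) : ℚ) := by
      push_cast; rfl
    rw [h3, h]
    unfold wsumS
    rw [eval_finsetSum, Int.cast_sum]
    refine Finset.sum_congr rfl fun σ _ => ?_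
    rw [eval_mul, eval_pow, eval_neg, eval_one, eval_mul, eval_natCast, bw_eval]
    push_cast
    ring
  unfold blkP
  rw [eval_smul, h2, smul_eq_mul, ← mul_assoc, inv_mul_cancel₀, one_mul]
  exact_mod_cast (Nat.card_pos (α := G)).ne'

theorem wsumS_expand : wsumS p (fun H => expand ℚ 2 (bw p O B H)) =
    expand ℚ 2 (wsumS p (bw p O B)) := by
  unfold wsumS
  rw [map_sum]
  refine Finset.sum_congr rfl fun σ _ => ?_
  simp only [map_mul, map_pow, map_neg, map_one, map_natCast]

/-- **the recursion for the generating functions** -/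
theorem blkP_wr (hp2 : p ≠ 2) (hpO : (p : ℂ) ∈ O.nonunits)
    (h2 : (2 : ℂ)⁻¹ ∈ O) (hB : IsBlock O B)
    (hz : ∀ ψ ∈ B, (Nat.card G : ℂ) / ψ 1 ∈ O.nonunits) :
    2 * blkP p O (WrS B) = blkP p O B ^ 2 + 3 * expand ℚ 2 (blkP p O B) := by
  have h := wsumS_wr (p := p) (G := G) hp2 (bw p O B) (fun H => expand ℚ 2 (bw p O B H))
    (bw p O (WrS B)) bw_conj (bw_prd h2 hB hz) (bw_twS hp2 h2 hpO hB hz)
  rw [wsumS_expand] at h
  have hne : (Nat.card G : ℚ) ≠ 0 := by exact_mod_cast (Nat.card_pos (α := G)).ne'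
  unfold blkP
  rw [h, Wr.card]
  have h5 : expand ℚ 2 ((Nat.card G : ℚ)⁻¹ • wsumS p (bw p O B)) =
      (Nat.card G : ℚ)⁻¹ • expand ℚ 2 (wsumS p (bw p O B)) := map_smul _ _ _
  rw [h5]
  simp only [smul_eq_C_mul]
  have h6 : (Nat.card G : ℚ[X]) = C (Nat.card G : ℚ) := by simp
  rw [h6]
  push_cast
  have h7 : C ((2 * (Nat.card G : ℚ) ^ 2)⁻¹) * (2 : ℚ[X]) * C (Nat.card G : ℚ) =
      C (Nat.card G : ℚ)⁻¹ := by
    rw [show (2 : ℚ[X]) = C 2 from rfl, ← C_mul, ← C_mul]
    congr 1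
    field_simp
  have h8 : C ((2 * (Nat.card G : ℚ) ^ 2)⁻¹) * (2 : ℚ[X]) =
      C (Nat.card G : ℚ)⁻¹ * C (Nat.card G : ℚ)⁻¹ := by
    rw [show (2 : ℚ[X]) = C 2 from rfl, ← C_mul, ← C_mul]
    congr 1
    field_simp
  linear_combination (wsumS p (bw p O B)) ^ 2 * h8 +
    3 * (expand ℚ 2 (wsumS p (bw p O B))) * h7

/-- **the recursion, defect by defect** -/
theorem blkDef_wr (hp2 : p ≠ 2) (hpO : (p : ℂ) ∈ O.nonunits)
    (hB : IsBlock O B) (hz : ∀ ψ ∈ B, (Nat.card G : ℂ) / ψ 1 ∈ O.nonunits) (d : ℕ) :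
    2 * blkDef p O d (WrS B) =
      ∑ t ∈ Finset.HasAntidiagonal.antidiagonal d, blkDef p O t.1 B * blkDef p O t.2 B +
        3 * (if 2 ∣ d then blkDef p O (d / 2) B else 0) := by
  have h2p : ¬ p ∣ 2 := fun h => hp2 ((Nat.prime_dvd_prime_iff_eq hp.out Nat.prime_two).mp h)
  have hh : (2 : ℂ)⁻¹ ∈ O := by exact_mod_cast nat_inv_mem (n := 2) hpO h2p
  have h := congrArg (fun P : ℚ[X] => P.coeff d) (blkP_wr (p := p) (G := G) hp2 hpO hh hB hz)
  have h4 : ∀ P : ℚ[X], (3 * P).coeff d = 3 * P.coeff d := fun P => coeff_ofNat_mul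
  have h5 : ∀ P : ℚ[X], (2 * P).coeff d = 2 * P.coeff d := fun P => coeff_ofNat_mul
  simp only [h5, coeff_add, h4, pow_two, coeff_mul, coeff_expand (two_pos), blkP_coeff] at h
  have h6 : (if 2 ∣ d then (blkDef p O (d / 2) B : ℚ) else 0) =
      ((if 2 ∣ d then blkDef p O (d / 2) B else 0 : ℤ) : ℚ) := by
    split_ifs <;> simp
  rw [h6] at h
  exact_mod_cast h

/-- **the recursion for the alternating sum of all characters** -/
theorem blkAlt_wr (hp2 : p ≠ 2) (hpO : (p : ℂ) ∈ O.nonunits)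
    (hB : IsBlock O B) (hz : ∀ ψ ∈ B, (Nat.card G : ℂ) / ψ 1 ∈ O.nonunits) :
    2 * blkAlt p O (WrS B) = blkAlt p O B ^ 2 + 3 * blkAlt p O B := by
  have h2p : ¬ p ∣ 2 := fun h => hp2 ((Nat.prime_dvd_prime_iff_eq hp.out Nat.prime_two).mp h)
  have hh : (2 : ℂ)⁻¹ ∈ O := by exact_mod_cast nat_inv_mem (n := 2) hpO h2p
  have h := congrArg (fun P : ℚ[X] => P.eval 1) (blkP_wr (p := p) (G := G) hp2 hpO hh hB hz)
  simp only [eval_mul, eval_add, eval_pow, eval_ofNat, expand_eval, one_pow, blkP_eval] at h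
  have h' : (2 : ℚ) * (blkAlt p O (WrS B) : ℚ) =
      (blkAlt p O B : ℚ) ^ 2 + 3 * (blkAlt p O B : ℚ) := h
  exact_mod_cast h'

end gen

end Pool.Agent.Q90.WR
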