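import Pool.Agent.Q90.WR.Bck

/-!
# Blockwise alternating sums: parity decides
-/

set_option autoImplicit false
set_option linter.unusedSectionVars false

open scoped BigOperators Classical

noncomputable section

namespace Pool.Agent.Q90.WR

open Pool.Agent.Y63.KR Pool.Agent.Q259.BW Pool.Agent.H254R3.IN

/-- The block of the iterated wreath product above the product of copies of `B`. -/
def WrSN : (j : ℕ) → {G : Type} → [Group G] → Set (G → ℂ) → Set (WrN j G → ℂ)
  | 0, _, _, B => B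
  | j + 1, G, _, B => WrSN j (G := Wr G) (WrS B)

/-- `B` is a block of `G` which contains no character of defect zero. -/
structure GoodB (O : ValuationSubring ℂ) {G : Type} [Group G] (B : Set (G → ℂ)) : Prop where
  block : IsBlock O B
  pos : ∀ ψ ∈ B, (Nat.card G : ℂ) / ψ 1 ∈ O.nonunits

section

variable {p : ℕ} [hp : Fact p.Prime] {O : ValuationSubring ℂ}

theorem mul_nonunits {x y : ℂ} (hx : x ∈ O.nonunits) (hy : y ∈ O.nonunits) :
    x * y ∈ O.nonunits := by
  have m1 := nonunits_mem hx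
  have m2 := nonunits_mem hy
  rw [← red_eq_zero_iff (O.mul_mem _ _ m1 m2), red_mul m1 m2, red_eq_zero hx, zero_mul]

theorem two_mul_nonunits {x : ℂ} (hx : x ∈ O.nonunits) : 2 * x ∈ O.nonunits := by
  have m1 := nonunits_mem hx
  have m2 : (2 : ℂ) ∈ O := by exact_mod_cast natCast_mem' (O := O) 2
  rw [← red_eq_zero_iff (O.mul_mem _ _ m2 m1), red_mul m2 m1, red_eq_zero hx, mul_zero]

theorem half_mem (hp2 : p ≠ 2) (hpO : (p : ℂ) ∈ O.nonunits) : (2 : ℂ)⁻¹ ∈ O := by
  have h2p : ¬ p ∣ 2 := fun h => hp2 ((Nat.prime_dvd_prime_iff_eq hp.out Nat.prime_two).mp h)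
  exact_mod_cast nat_inv_mem (n := 2) hpO h2p

theorem GoodB.wr (hp2 : p ≠ 2) (hpO : (p : ℂ) ∈ O.nonunits) {G : Type} [Group G] [Fintype G]
    {B : Set (G → ℂ)} (h : GoodB O B) : GoodB O (WrS B) := by
  refine ⟨wr_block (half_mem hp2 hpO) h.block h.pos, ?_⟩
  rw [Wr.card]
  rintro χ (⟨θ₁, h1, θ₂, h2, hne, rfl⟩ | ⟨θ, h1, rfl | rfl⟩)
  · have e : ((2 * Nat.card G ^ 2 : ℕ) : ℂ) / ind2 θ₁ θ₂ 1 =
        ((Nat.card G : ℂ) / θ₁ 1) * ((Nat.card G : ℂ) / θ₂ 1) := by
      change _ / (θ₁ 1 * θ₂ 1 + θ₂ 1 * θ₁ 1) = _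
      have n1 := IsIrr.one_ne (h.block.irr _ h1)
      have n2 := IsIrr.one_ne (h.block.irr _ h2)
      have e3 : θ₁ 1 * θ₂ 1 + θ₂ 1 * θ₁ 1 = 2 * (θ₁ 1 * θ₂ 1) := by ring
      rw [e3]
      push_cast
      field_simp
    rw [e]
    exact mul_nonunits (h.pos _ h1) (h.pos _ h2)
  · have e : ((2 * Nat.card G ^ 2 : ℕ) : ℂ) / ext2 1 θ 1 =
        2 * (((Nat.card G : ℂ) / θ 1) * ((Nat.card G : ℂ) / θ 1)) := by
      change _ / (θ 1 * θ 1) = _
      have n1 := IsIrr.one_ne (h.block.irr _ h1)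
      push_cast
      field_simp
    rw [e]
    exact two_mul_nonunits (mul_nonunits (h.pos _ h1) (h.pos _ h1))
  · have e : ((2 * Nat.card G ^ 2 : ℕ) : ℂ) / ext2 (-1) θ 1 =
        2 * (((Nat.card G : ℂ) / θ 1) * ((Nat.card G : ℂ) / θ 1)) := by
      change _ / (θ 1 * θ 1) = _
      have n1 := IsIrr.one_ne (h.block.irr _ h1)
      push_cast
      field_simp
    rw [e]
    exact two_mul_nonunits (mul_nonunits (h.pos _ h1) (h.pos _ h1))

/-! ### defect by defect -/

theorem bd_step (hp2 : p ≠ 2) (hpO : (p : ℂ) ∈ O.nonunits) {a : ℕ} {G : Type} [Group G]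
    [Fintype G] {B : Set (G → ℂ)} (hB : GoodB O B)
    (h : ∀ d, (2 : ℤ) ^ (a + 1) ∣ blkDef p O d B)
    (hw : ∀ d, (2 : ℤ) ^ (a + 1) ∣ blkDef p O d (WrS B)) (d : ℕ) :
    (2 : ℤ) ^ (a + 2) ∣ blkDef p O d B := by
  have h1 := blkDef_wr (p := p) (G := G) hp2 hpO hB.block hB.pos (2 * d)
  rw [if_pos (dvd_mul_right 2 d), Nat.mul_div_cancel_left d two_pos] at h1
  have h2 : (2 : ℤ) ^ (a + 2) ∣ 2 * blkDef p O (2 * d) (WrS B) := by
    obtain ⟨c, hc⟩ := hw (2 * d)
    exact ⟨c, by rw [hc]; ring⟩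
  have h3 : (2 : ℤ) ^ (a + 2) ∣ ∑ t ∈ Finset.HasAntidiagonal.antidiagonal (2 * d),
      blkDef p O t.1 B * blkDef p O t.2 B := by
    refine Finset.dvd_sum fun t _ => ?_
    obtain ⟨c, hc⟩ := h t.1
    obtain ⟨c', hc'⟩ := h t.2
    exact ⟨2 ^ a * (c * c'), by rw [hc, hc']; ring⟩
  have h5 : (2 : ℤ) ^ (a + 2) ∣ 3 * blkDef p O d B := by
    have h6 : 3 * blkDef p O d B = 2 * blkDef p O (2 * d) (WrS B) -
        (∑ t ∈ Finset.HasAntidiagonal.antidiagonal (2 * d),
          blkDef p O t.1 B * blkDef p O t.2 B) := by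
      linarith
    rw [h6]
    exact h2.sub h3
  exact (IsCoprime.dvd_of_dvd_mul_left (IsCoprime.pow_left (by norm_num)) h5)

theorem bd_zero_wr (hp2 : p ≠ 2) (hpO : (p : ℂ) ∈ O.nonunits) {G : Type} [Group G] [Fintype G]
    {B : Set (G → ℂ)} (hB : GoodB O B) (h : ∀ d, blkDef p O d B = 0) (d : ℕ) :
    blkDef p O d (WrS B) = 0 := by
  have h1 := blkDef_wr (p := p) (G := G) hp2 hpO hB.block hB.pos d
  rw [Finset.sum_eq_zero fun t _ => by rw [h t.1, zero_mul]] at h1
  have h2 : (if 2 ∣ d then blkDef p O (d / 2) B else 0) = 0 := by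
    split_ifs with h3
    · exact h _
    · rfl
  rw [h2] at h1
  omega

theorem bd_dvd (hp2 : p ≠ 2) (hpO : (p : ℂ) ∈ O.nonunits) : ∀ (a : ℕ) (G : Type) [Group G]
    [Finite G] (B : Set (G → ℂ)), GoodB O B →
    (∀ j ≤ a, ∀ d, (2 : ℤ) ∣ blkDef p O d (WrSN j B)) →
    ∀ d, (2 : ℤ) ^ (a + 1) ∣ blkDef p O d B := by
  intro a
  induction a with
  | zero =>
    intro G _ _ B _ H
    rw [zero_add, pow_one]
    exact H 0 le_rfl
  | succ a ih =>
    intro G _ _ B hB H
    have := Fintype.ofFinite G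
    exact bd_step hp2 hpO hB (ih G B hB fun j hj => H j (by omega))
      (ih (Wr G) (WrS B) (hB.wr hp2 hpO) fun j hj => H (j + 1) (by omega))

theorem bd_levels (hp2 : p ≠ 2) (hpO : (p : ℂ) ∈ O.nonunits) : ∀ (a : ℕ) (G : Type) [Group G]
    [Finite G] (B : Set (G → ℂ)), GoodB O B → (∀ d, blkDef p O d B = 0) →
    ∀ d, blkDef p O d (WrSN a B) = 0 := by
  intro a
  induction a with
  | zero => exact fun G _ _ B _ h => h
  | succ a ih =>
    intro G _ _ B hB h
    have := Fintype.ofFinite G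
    exact ih (Wr G) (WrS B) (hB.wr hp2 hpO) (bd_zero_wr hp2 hpO hB h)

/-- for one block -/
theorem bd_one (hp2 : p ≠ 2) (hpO : (p : ℂ) ∈ O.nonunits) (G : Type) [Group G] [Finite G]
    (B : Set (G → ℂ)) (hB : GoodB O B) :
    (∀ d, blkDef p O d B = 0) ↔ ∀ j d : ℕ, Even (blkDefT p O d (WrSN j B)) := by
  simp_rw [blkDef_parity]
  constructor
  · intro h j d
    rw [bd_levels hp2 hpO j G B hB h d]
    exact dvd_zero _
  · intro h d
    exact eq_of_all fun a => by
      rw [sub_zero]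
      exact bd_dvd hp2 hpO a G B hB (fun j _ => h j) d

/-! ### all characters -/

theorem ba_dvd (hp2 : p ≠ 2) (hpO : (p : ℂ) ∈ O.nonunits) : ∀ (a : ℕ) (G : Type) [Group G]
    [Finite G] (B : Set (G → ℂ)), GoodB O B →
    (∀ j ≤ a, (2 : ℤ) ∣ blkAlt p O (WrSN j B)) → (2 : ℤ) ^ (a + 1) ∣ blkAlt p O B := by
  intro a
  induction a with
  | zero =>
    intro G _ _ B _ H
    rw [zero_add, pow_one]
    exact H 0 le_rfl
  | succ a ih =>
    intro G _ _ B hB H
    have := Fintype.ofFinite G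
    have h := step (a := a) (x := blkAlt p O B) (y := 0) (y' := 0)
      (blkAlt_wr hp2 hpO hB.block hB.pos) (by ring)
      (by rw [sub_zero]; exact ih G B hB fun j hj => H j (by omega))
      (by rw [sub_zero]; exact ih (Wr G) (WrS B) (hB.wr hp2 hpO) fun j hj => H (j + 1) (by omega))
    rwa [sub_zero] at h

theorem ba_levels (hp2 : p ≠ 2) (hpO : (p : ℂ) ∈ O.nonunits) : ∀ (a : ℕ) (G : Type) [Group G]
    [Finite G] (B : Set (G → ℂ)), GoodB O B → blkAlt p O B = 0 → blkAlt p O (WrSN a B) = 0 := by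
  intro a
  induction a with
  | zero => exact fun G _ _ B _ h => h
  | succ a ih =>
    intro G _ _ B hB h
    have := Fintype.ofFinite G
    refine ih (Wr G) (WrS B) (hB.wr hp2 hpO) ?_
    have h1 := blkAlt_wr hp2 hpO hB.block hB.pos
    rw [h] at h1
    omega

theorem ba_one (hp2 : p ≠ 2) (hpO : (p : ℂ) ∈ O.nonunits) (G : Type) [Group G] [Finite G]
    (B : Set (G → ℂ)) (hB : GoodB O B) :
    blkAlt p O B = 0 ↔ ∀ j : ℕ, Even (blkAltT p O (WrSN j B)) := by
  simp_rw [blkAlt_parity]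
  constructor
  · intro h j
    rw [ba_levels hp2 hpO j G B hB h]
    exact dvd_zero _
  · intro h
    exact eq_of_all fun a => by
      rw [sub_zero]
      exact ba_dvd hp2 hpO a G B hB (fun j _ => h j)

/-! ### exact powers of two -/

theorem ba_iff (hp2 : p ≠ 2) (hpO : (p : ℂ) ∈ O.nonunits) : ∀ (a : ℕ) (G : Type) [Group G]
    [Finite G] (B : Set (G → ℂ)), GoodB O B →
    ((2 : ℤ) ^ a ∣ blkAlt p O B ↔ ∀ j < a, Even (blkAltT p O (WrSN j B))) := by
  intro a G _ _ B hB
  constructor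
  · revert a G
    intro a
    induction a with
    | zero => exact fun G _ _ B _ _ j hj => absurd hj (Nat.not_lt_zero j)
    | succ a ih =>
      intro G _ _ B hB h j hj
      have := Fintype.ofFinite G
      cases j with
      | zero => exact (blkAlt_parity B).mpr ((dvd_pow_self 2 (Nat.succ_ne_zero a)).trans h)
      | succ j =>
        refine ih (Wr G) (WrS B) (hB.wr hp2 hpO) ?_ j (by omega)
        have h1 := blkAlt_wr hp2 hpO hB.block hB.pos
        obtain ⟨c, hc⟩ := h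
        refine ⟨c * (blkAlt p O B + 3), ?_⟩
        have h2 : 2 * blkAlt p O (WrS B) = 2 * (2 ^ a * (c * (blkAlt p O B + 3))) := by
          rw [pow_succ] at hc
          rw [h1]
          linear_combination (blkAlt p O B + 3) * hc
        exact mul_left_cancel₀ two_ne_zero h2
  · intro h
    cases a with
    | zero => rw [pow_zero]; exact one_dvd _
    | succ a =>
      exact ba_dvd hp2 hpO a G B hB fun j hj => (blkAlt_parity _).mp (h j (by omega))

theorem bd_iff (hp2 : p ≠ 2) (hpO : (p : ℂ) ∈ O.nonunits) : ∀ (a : ℕ) (G : Type) [Group G]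
    [Finite G] (B : Set (G → ℂ)), GoodB O B →
    ((∀ d, (2 : ℤ) ^ a ∣ blkDef p O d B) ↔ ∀ j < a, ∀ d, Even (blkDefT p O d (WrSN j B))) := by
  intro a G _ _ B hB
  constructor
  · revert a G
    intro a
    induction a with
    | zero => exact fun G _ _ B _ _ j hj => absurd hj (Nat.not_lt_zero j)
    | succ a ih =>
      intro G _ _ B hB h j hj
      have := Fintype.ofFinite G
      cases j with
      | zero =>
        exact fun d => (blkDef_parity d B).mpr ((dvd_pow_self 2 (Nat.succ_ne_zero a)).trans (h d))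
      | succ j =>
        refine ih (Wr G) (WrS B) (hB.wr hp2 hpO) (fun d => ?_) j (by omega)
        have h1 := blkDef_wr (p := p) (G := G) hp2 hpO hB.block hB.pos d
        have h2 : (2 : ℤ) ^ (a + 1) ∣ 2 * blkDef p O d (WrS B) := by
          rw [h1]
          refine dvd_add (Finset.dvd_sum fun t _ => (h t.1).mul_right _) (Dvd.dvd.mul_left ?_ 3)
          split_ifs
          · exact h _
          · exact dvd_zero _
        rw [pow_succ, mul_comm] at h2
        exact Int.dvd_of_mul_dvd_mul_left two_ne_zero h2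
  · intro h
    cases a with
    | zero => intro d; rw [pow_zero]; exact one_dvd _
    | succ a =>
      exact bd_dvd hp2 hpO a G B hB fun j hj d => (blkDef_parity d _).mp (h j (by omega) d)

/-! ### classes of blocks -/

/-- `G` is finite without nontrivial normal `p`-subgroups and `B` is a block of `G` with a nontrivial
defect group. -/
structure AdmB (p : ℕ) (O : ValuationSubring ℂ) (G : Type) [Group G] (B : Set (G → ℂ)) : Prop where
  fin : Finite G
  core : ∀ P : Subgroup G, P.Normal → IsPGroup p P → P = ⊥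
  block : IsBlock O B
  defect : ∃ D, IsDefectGroup p O B D ∧ D ≠ ⊥

theorem AdmB.good (hpO : (p : ℂ) ∈ O.nonunits) {G : Type} [Group G] {B : Set (G → ℂ)}
    (h : AdmB p O G B) : GoodB O B := by
  have := h.fin
  have := Fintype.ofFinite G
  obtain ⟨D, hD, hne⟩ := h.defect
  exact ⟨h.block, nonunits_of_defect hpO h.block hD hne⟩

theorem AdmB.wr (hp2 : p ≠ 2) (hpO : (p : ℂ) ∈ O.nonunits) {G : Type} [Group G]
    {B : Set (G → ℂ)} (h : AdmB p O G B) : AdmB p O (Wr G) (WrS B) := by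
  have := h.fin
  have := Fintype.ofFinite G
  have hg := h.good hpO
  obtain ⟨D, hD, hne⟩ := h.defect
  refine ⟨inferInstance, Op_wr hp2 h.core, (hg.wr hp2 hpO).block, dbl D,
    wr_defect hp2 hpO hg.block hg.pos hD, ?_⟩
  intro h1
  apply hne
  rw [Subgroup.eq_bot_iff_forall]
  intro x hx
  have h2 : (⟨x, x, false⟩ : Wr G) ∈ dbl D := by
    rw [mem_dbl]
    exact ⟨rfl, hx, hx⟩
  rw [h1, Subgroup.mem_bot] at h2
  exact congrArg Wr.a h2

theorem AdmB.wrN (hp2 : p ≠ 2) (hpO : (p : ℂ) ∈ O.nonunits) : ∀ (j : ℕ) (G : Type) [Group G]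
    (B : Set (G → ℂ)), AdmB p O G B → AdmB p O (WrN j G) (WrSN j B) := by
  intro j
  induction j with
  | zero => exact fun G _ B h => h
  | succ j ih => exact fun G _ B h => ih (Wr G) (WrS B) (h.wr hp2 hpO)

end

end Pool.Agent.Q90.WR
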