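import Pool.Agent.Q90.WR.Krp

/-!
# Alternating sums over chains of wreath products: arbitrary functions of the stabilisers
-/

set_option autoImplicit false

open scoped BigOperators Classical

noncomputable section

namespace Pool.Agent.Q90.WR

open Pool.Agent.Y63.KR

/-! ### functions on the set of subgroups -/

section moebius

variable {G : Type} [Group G] {R : Type} [CommRing R]

/-- every function on subgroups is a combination of the functions `H ↦ [K ≤ H]` -/
theorem exists_moebius [Fintype (Subgroup G)] (φ : Subgroup G → R) :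
    ∃ c : Subgroup G → R, ∀ H, φ H = ∑ K : Subgroup G, if K ≤ H then c K else 0 := by
  have wf : WellFounded ((· < ·) : Subgroup G → Subgroup G → Prop) := wellFounded_lt
  let c : Subgroup G → R := wf.fix
    (fun H rec => φ H - ∑ K : {K : Subgroup G // K < H}, rec K.1 K.2)
  have hc : ∀ H, c H = φ H - ∑ K : {K : Subgroup G // K < H}, c K.1 := fun H =>
    WellFounded.fix_eq wf _ _
  refine ⟨c, fun H => ?_⟩
  have h1 : ∑ K : {K : Subgroup G // K < H}, c K.1 =
      ∑ K ∈ Finset.univ.filter (fun K : Subgroup G => K < H), c K :=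
    (Finset.sum_subtype (Finset.univ.filter (fun K : Subgroup G => K < H)) (by simp) c).symm
  have h2 : Finset.univ.filter (fun K : Subgroup G => K ≤ H) =
      insert H (Finset.univ.filter (fun K : Subgroup G => K < H)) := by
    ext K
    simp only [Finset.mem_filter, Finset.mem_univ, true_and, Finset.mem_insert]
    exact le_iff_eq_or_lt
  rw [← Finset.sum_filter, h2, Finset.sum_insert (by simp), ← h1, hc H]
  ring

end moebius

/-- the chains of nontrivial `p`-subgroups -/
abbrev Ch (p : ℕ) (G : Type) [Group G] : Type := {σ : Set (Subgroup G) // IsPChain p σ}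

instance instFintypeCh (p : ℕ) (G : Type) [Group G] [Finite G] : Fintype (Ch p G) :=
  Fintype.ofFinite _

section general

variable {G : Type} [Group G] [Finite G] {p : ℕ} {R : Type} [CommRing R]

theorem W_sum (K : Subgroup G) (r : R) :
    ∑ σ : Ch p G, (-1 : R) ^ σ.1.ncard * (if K ≤ chainStabilizer σ.1 then r else 0) =
      ((W p (K : Set G) : ℤ) : R) * r := by
  unfold W
  rw [finsum_eq_sum_of_fintype, Int.cast_sum, Finset.sum_mul]
  refine Finset.sum_congr rfl fun σ _ => ?_
  have h : (∀ P ∈ σ.1, ∀ x ∈ (K : Set G), conjSub x P = P) ↔ K ≤ chainStabilizer σ.1 := by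
    constructor
    · intro h x hx
      exact mem_chainStabilizer.mpr fun P hP => h P hP x hx
    · intro h P hP x hx
      exact mem_chainStabilizer.mp (h hx) P hP
  by_cases c : K ≤ chainStabilizer σ.1
  · rw [if_pos c, if_pos (h.mpr c)]
    push_cast
    ring
  · rw [if_neg c, if_neg (fun h' => c (h.mp h'))]
    simp

end general

section wreath

variable {G : Type} [Group G] {p : ℕ}

/-- the wreath product of a subgroup -/
def wrS (H : Subgroup G) : Subgroup (Wr G) where
  carrier := {x | x.a ∈ H ∧ x.b ∈ H}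
  one_mem' := ⟨H.one_mem, H.one_mem⟩
  mul_mem' := by
    rintro ⟨a, b, s⟩ ⟨c, d, t⟩ ⟨h1, h2⟩ ⟨h3, h4⟩
    cases s
    · exact ⟨H.mul_mem h1 h3, H.mul_mem h2 h4⟩
    · exact ⟨H.mul_mem h1 h4, H.mul_mem h2 h3⟩
  inv_mem' := by
    rintro ⟨a, b, s⟩ ⟨h1, h2⟩
    cases s
    · exact ⟨H.inv_mem h1, H.inv_mem h2⟩
    · exact ⟨H.inv_mem h2, H.inv_mem h1⟩

/-- the stabiliser of the pair `(σ, b σ)` -/
def twS (b : G) (H : Subgroup G) : Subgroup (Wr G) := conjSub ⟨1, b, false⟩ (wrS H)

theorem mem_twS_false {b c d : G} {H : Subgroup G} :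
    (⟨c, d, false⟩ : Wr G) ∈ twS b H ↔ c ∈ H ∧ b⁻¹ * d * b ∈ H := by
  unfold twS
  rw [mem_conjSub, Wr.inv_false, Wr.mk_false_mul, Wr.mk_false_mul]
  change 1⁻¹ * c * 1 ∈ H ∧ _ ↔ _
  rw [inv_one, one_mul, mul_one]

theorem mem_twS_true {b c d : G} {H : Subgroup G} :
    (⟨c, d, true⟩ : Wr G) ∈ twS b H ↔ c * b ∈ H ∧ b⁻¹ * d ∈ H := by
  unfold twS
  rw [mem_conjSub, Wr.inv_false, Wr.mk_false_mul, Wr.mk_true_mul]
  change 1⁻¹ * c * b ∈ H ∧ b⁻¹ * d * 1 ∈ H ↔ _
  rw [inv_one, one_mul, mul_one]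

variable [Finite G]

/-- subgroups of the base group -/
theorem W_base_sub [hp : Fact p.Prime] (hp2 : p ≠ 2) (K : Subgroup (Wr G))
    (hK : ∀ x ∈ K, x.s = false) :
    W p (K : Set (Wr G)) = W p (pr1 K : Set G) * W p (pr2 K : Set G) := by
  obtain ⟨f₁, h1, hf₁⟩ := exists_weight p (pr1 K : Set G)
  obtain ⟨f₂, h2, hf₂⟩ := exists_weight p (pr2 K : Set G)
  rw [W_of_weight (f := fun P => if P = prd (pr1 P) (pr2 P) then f₁ (pr1 P) * f₂ (pr2 P) else 0)]
  · simp only [pr1_bot, pr2_bot, prd_bot, if_true, h1, h2]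
  · intro P hP
    have hP' := mem_inv.mp hP
    have hPi : ∀ Q : Subgroup (Wr G), Q ∈ inv p (K : Set (Wr G)) →
        pr1 Q ∈ inv p (pr1 K : Set G) ∧ pr2 Q ∈ inv p (pr2 K : Set G) := by
      intro Q hQ
      rw [mem_inv] at hQ
      rw [mem_inv, mem_inv]
      refine ⟨⟨isPGroup_pr1 hQ.1, ?_⟩, isPGroup_pr2 hQ.1, ?_⟩
      · rintro z ⟨w, hw⟩
        rw [← (conj_false z w Q).1, hQ.2 _ hw]
      · rintro z ⟨w, hw⟩
        rw [← (conj_false w z Q).2, hQ.2 _ hw]
    rw [← Finset.sum_filter]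
    have e : ∑ Q ∈ ((inv p (K : Set (Wr G))).filter
        (P ≤ ·)).filter (fun Q => Q = prd (pr1 Q) (pr2 Q)), f₁ (pr1 Q) * f₂ (pr2 Q) =
        ∑ R ∈ ((inv p (pr1 K : Set G)).filter (pr1 P ≤ ·)) ×ˢ
          ((inv p (pr2 K : Set G)).filter (pr2 P ≤ ·)), f₁ R.1 * f₂ R.2 := by
      refine Finset.sum_bij' (fun Q _ => (pr1 Q, pr2 Q)) (fun R _ => prd R.1 R.2) ?_ ?_ ?_ ?_ ?_
      · intro Q hQ
        rw [Finset.mem_filter, Finset.mem_filter] at hQ
        obtain ⟨⟨a1, a2⟩, a3⟩ := hQ
        rw [a3] at a2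
        have a4 := (le_prd hp2 hP'.1).mp a2
        rw [Finset.mem_product, Finset.mem_filter, Finset.mem_filter]
        exact ⟨⟨(hPi Q a1).1, a4.1⟩, (hPi Q a1).2, a4.2⟩
      · rintro ⟨R₁, R₂⟩ hR
        rw [Finset.mem_product, Finset.mem_filter, Finset.mem_filter] at hR
        obtain ⟨⟨a1, a2⟩, a3, a4⟩ := hR
        simp only at a1 a2 a3 a4
        rw [mem_inv] at a1 a3
        rw [Finset.mem_filter, Finset.mem_filter, mem_inv, pr1_prd, pr2_prd, le_prd hp2 hP'.1]
        refine ⟨⟨⟨isPGroup_prd a1.1 a3.1, ?_⟩, a2, a4⟩, rfl⟩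
        rintro ⟨c, d, s⟩ hx
        have hs := hK _ hx
        simp only at hs
        subst hs
        rw [conj_prd_false, a1.2 c ⟨d, hx⟩, a3.2 d ⟨c, hx⟩]
      · intro Q hQ
        rw [Finset.mem_filter] at hQ
        exact hQ.2.symm
      · rintro ⟨R₁, R₂⟩ _
        exact Prod.ext (pr1_prd _ _) (pr2_prd _ _)
      · intro Q _
        rfl
    rw [e, Finset.sum_product]
    simp only
    rw [← Finset.sum_mul_sum, hf₁ _ (hPi P hP).1, hf₂ _ (hPi P hP).2, one_mul]

/-- subgroups outside the base group -/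
theorem W_swap_sub [hp : Fact p.Prime] (hp2 : p ≠ 2) (K : Subgroup (Wr G)) {a b : G}
    (hab : (⟨a, b, true⟩ : Wr G) ∈ K) : W p (K : Set (Wr G)) = W p (pr1 K : Set G) := by
  obtain ⟨f₁, h3, hf₁⟩ := exists_weight p (pr1 K : Set G)
  rw [W_of_weight (f := fun P => if P = prd (pr1 P) (conjSub b (pr1 P)) then f₁ (pr1 P) else 0)]
  · simp only [pr1_bot, conjSub_bot, prd_bot, if_true, h3]
  · intro P hP
    have hP' := mem_inv.mp hP
    have hPi : ∀ Q : Subgroup (Wr G), Q ∈ inv p (K : Set (Wr G)) →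
        pr1 Q ∈ inv p (pr1 K : Set G) ∧ pr2 Q = conjSub b (pr1 Q) := by
      intro Q hQ
      rw [mem_inv] at hQ
      rw [mem_inv]
      have e3 : pr2 Q = conjSub b (pr1 Q) := by
        rw [← (conj_true a b Q).2, hQ.2 _ hab]
      refine ⟨⟨isPGroup_pr1 hQ.1, ?_⟩, e3⟩
      rintro z ⟨w, hw⟩
      rw [← (conj_false z w Q).1, hQ.2 _ hw]
    rw [← Finset.sum_filter]
    have e : ∑ Q ∈ ((inv p (K : Set (Wr G))).filter
        (P ≤ ·)).filter (fun Q => Q = prd (pr1 Q) (conjSub b (pr1 Q))), f₁ (pr1 Q) =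
        ∑ R ∈ (inv p (pr1 K : Set G)).filter (pr1 P ≤ ·), f₁ R := by
      refine Finset.sum_bij' (fun Q _ => pr1 Q) (fun R _ => prd R (conjSub b R)) ?_ ?_ ?_ ?_ ?_
      · intro Q hQ
        rw [Finset.mem_filter, Finset.mem_filter] at hQ
        obtain ⟨⟨a1, a2⟩, a3⟩ := hQ
        rw [a3] at a2
        rw [Finset.mem_filter]
        exact ⟨(hPi Q a1).1, ((le_prd hp2 hP'.1).mp a2).1⟩
      · intro R hR
        rw [Finset.mem_filter] at hR
        obtain ⟨a1, a2⟩ := hR
        rw [mem_inv] at a1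
        rw [Finset.mem_filter, Finset.mem_filter, mem_inv, pr1_prd, le_prd hp2 hP'.1]
        have key : ∀ u v : G, v⁻¹ * u ∈ pr1 K → conjSub u R = conjSub v R := by
          intro u v huv
          have h5 := a1.2 _ huv
          calc conjSub u R = conjSub v (conjSub (v⁻¹ * u) R) := by
                rw [← conjSub_mul]; congr 1; group
            _ = conjSub v R := by rw [h5]
        refine ⟨⟨⟨isPGroup_prd a1.1 (a1.1.map _), ?_⟩, a2, ?_⟩, rfl⟩
        · rintro ⟨c, d, s⟩ hx
          cases s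
          · have m1 : b⁻¹ * (d * b) ∈ pr1 K := by
              rw [← mul_assoc]
              exact ⟨a⁻¹ * c * a, K.mul_mem (K.mul_mem (K.inv_mem hab) hx) hab⟩
            rw [conj_prd_false, a1.2 c ⟨d, hx⟩, ← conjSub_mul, key (d * b) b m1]
          · have m1 : c * b ∈ pr1 K := by
              refine ⟨d * a, ?_⟩
              have := K.mul_mem hx hab
              rw [Wr.mk_true_mul] at this
              simpa using this
            have m2 : b⁻¹ * d ∈ pr1 K := by
              refine ⟨a⁻¹ * c, ?_⟩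
              have := K.mul_mem (K.inv_mem hab) hx
              rw [Wr.inv_true, Wr.mk_true_mul] at this
              simpa using this
            rw [conj_prd_true, ← conjSub_mul, a1.2 _ m1, key d b m2]
        · rw [(hPi P hP).2]
          exact conjSub_le a2
      · intro Q hQ
        rw [Finset.mem_filter] at hQ
        exact hQ.2.symm
      · intro R _
        exact pr1_prd _ _
      · intro Q _
        rfl
    rw [e, hf₁ _ (hPi P hP).1]

variable {R : Type} [CommRing R] [Algebra ℚ R]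

omit [Finite G] in
theorem le_prd_base (K : Subgroup (Wr G)) (hK : ∀ x ∈ K, x.s = false) (H₁ H₂ : Subgroup G) :
    K ≤ prd H₁ H₂ ↔ pr1 K ≤ H₁ ∧ pr2 K ≤ H₂ := by
  constructor
  · intro h
    refine ⟨?_, ?_⟩
    · rintro g ⟨b, hb⟩
      exact (h hb).2.1
    · rintro g ⟨b, hb⟩
      exact (h hb).2.2
  · rintro ⟨h1, h2⟩ ⟨c, d, s⟩ hx
    have hs := hK _ hx
    simp only at hs
    subst hs
    exact ⟨rfl, h1 ⟨d, hx⟩, h2 ⟨c, hx⟩⟩

omit [Finite G] in
theorem le_twS_swap (K : Subgroup (Wr G)) {a b : G} (hab : (⟨a, b, true⟩ : Wr G) ∈ K)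
    (H : Subgroup G) (g : G) : K ≤ twS g H ↔ pr1 K ≤ H ∧ g⁻¹ * b ∈ H := by
  constructor
  · intro h
    refine ⟨?_, (mem_twS_true.mp (h hab)).2⟩
    rintro z ⟨w, hw⟩
    exact (mem_twS_false.mp (h hw)).1
  · rintro ⟨h1, h2⟩ ⟨c, d, s⟩ hx
    cases s
    · rw [mem_twS_false]
      refine ⟨h1 ⟨d, hx⟩, ?_⟩
      have m1 : b⁻¹ * (d * b) ∈ pr1 K := by
        rw [← mul_assoc]
        exact ⟨a⁻¹ * c * a, K.mul_mem (K.mul_mem (K.inv_mem hab) hx) hab⟩
      have h3 := H.mul_mem (H.mul_mem h2 (h1 m1)) (H.inv_mem h2)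
      convert h3 using 1
      group
    · rw [mem_twS_true]
      have m1 : c * b ∈ pr1 K := by
        refine ⟨d * a, ?_⟩
        have := K.mul_mem hx hab
        rw [Wr.mk_true_mul] at this
        simpa using this
      have m2 : b⁻¹ * d ∈ pr1 K := by
        refine ⟨a⁻¹ * c, ?_⟩
        have := K.mul_mem (K.inv_mem hab) hx
        rw [Wr.inv_true, Wr.mk_true_mul] at this
        simpa using this
      refine ⟨?_, ?_⟩
      · have h3 := H.mul_mem (h1 m1) (H.inv_mem h2)
        convert h3 using 1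
        group
      · have h3 := H.mul_mem h2 (h1 m2)
        convert h3 using 1
        group

omit [Finite G] in
theorem card_coset [Fintype G] (H : Subgroup G) (b : G) :
    (Finset.univ.filter (fun g : G => g⁻¹ * b ∈ H)).card = Nat.card H := by
  rw [Nat.card_eq_fintype_card, ← Fintype.card_coe]
  refine Fintype.card_congr ⟨fun g => ⟨g.1⁻¹ * b, (Finset.mem_filter.mp g.2).2⟩,
    fun h => ⟨b * h.1⁻¹, by simp⟩, fun g => ?_, fun h => ?_⟩
  · apply Subtype.ext
    simp
  · apply Subtype.ext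
    simp

/-- **the functional identity** -/
theorem functional [hp : Fact p.Prime] (hp2 : p ≠ 2) [Fintype G] (φ : Subgroup (Wr G) → R) :
    ∑ υ : Ch p (Wr G), (-1 : R) ^ υ.1.ncard * φ (chainStabilizer υ.1) =
      ∑ σ : Ch p G, ∑ τ : Ch p G, (-1 : R) ^ σ.1.ncard * ((-1 : R) ^ τ.1.ncard *
        φ (prd (chainStabilizer σ.1) (chainStabilizer τ.1))) +
      ∑ σ : Ch p G, (-1 : R) ^ σ.1.ncard * ((Nat.card (chainStabilizer σ.1) : ℚ)⁻¹ •
        ∑ b : G, (φ (twS b (chainStabilizer σ.1)) -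
          φ (prd (chainStabilizer σ.1) (conjSub b (chainStabilizer σ.1))))) := by
  have : Fintype (Subgroup (Wr G)) := Fintype.ofFinite _
  obtain ⟨c, hc⟩ := exists_moebius φ
  -- the identity for one subgroup
  have key : ∀ K : Subgroup (Wr G), ∀ r : R,
      ∑ υ : Ch p (Wr G), (-1 : R) ^ υ.1.ncard * (if K ≤ chainStabilizer υ.1 then r else 0) =
      ∑ σ : Ch p G, ∑ τ : Ch p G, (-1 : R) ^ σ.1.ncard * ((-1 : R) ^ τ.1.ncard *
        (if K ≤ prd (chainStabilizer σ.1) (chainStabilizer τ.1) then r else 0)) +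
      ∑ σ : Ch p G, (-1 : R) ^ σ.1.ncard * ((Nat.card (chainStabilizer σ.1) : ℚ)⁻¹ •
        ∑ b : G, ((if K ≤ twS b (chainStabilizer σ.1) then r else 0) -
          (if K ≤ prd (chainStabilizer σ.1) (conjSub b (chainStabilizer σ.1)) then r else 0))) := by
    intro K r
    rw [W_sum]
    by_cases hK : ∀ x ∈ K, x.s = false
    · rw [W_base_sub hp2 K hK]
      have e1 : ∑ σ : Ch p G, ∑ τ : Ch p G, (-1 : R) ^ σ.1.ncard * ((-1 : R) ^ τ.1.ncard *
          (if K ≤ prd (chainStabilizer σ.1) (chainStabilizer τ.1) then r else 0)) =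
          (∑ σ : Ch p G, (-1 : R) ^ σ.1.ncard *
            (if pr1 K ≤ chainStabilizer σ.1 then (1 : R) else 0)) *
          ∑ τ : Ch p G, (-1 : R) ^ τ.1.ncard *
            (if pr2 K ≤ chainStabilizer τ.1 then r else 0) := by
        rw [Finset.sum_mul_sum]
        refine Finset.sum_congr rfl fun σ _ => Finset.sum_congr rfl fun τ _ => ?_
        have h := le_prd_base K hK (chainStabilizer σ.1) (chainStabilizer τ.1)
        by_cases c1 : pr1 K ≤ chainStabilizer σ.1
        · by_cases c2 : pr2 K ≤ chainStabilizer τ.1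
          · rw [if_pos (h.mpr ⟨c1, c2⟩), if_pos c1, if_pos c2]
            ring
          · rw [if_neg (fun h' => c2 (h.mp h').2), if_neg c2]
            simp
        · rw [if_neg (fun h' => c1 (h.mp h').1), if_neg c1]
          simp
      have e2 : ∑ σ : Ch p G, (-1 : R) ^ σ.1.ncard * ((Nat.card (chainStabilizer σ.1) : ℚ)⁻¹ •
          ∑ b : G, ((if K ≤ twS b (chainStabilizer σ.1) then r else 0) -
          (if K ≤ prd (chainStabilizer σ.1) (conjSub b (chainStabilizer σ.1)) then r else 0)))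
          = 0 := by
        refine Finset.sum_eq_zero fun σ _ => ?_
        rw [Finset.sum_eq_zero, smul_zero, mul_zero]
        intro b _
        have h : K ≤ twS b (chainStabilizer σ.1) ↔
            K ≤ prd (chainStabilizer σ.1) (conjSub b (chainStabilizer σ.1)) := by
          constructor
          · rintro h ⟨x, y, s⟩ hx
            have hs := hK _ hx
            simp only at hs
            subst hs
            have := mem_twS_false.mp (h hx)
            exact ⟨rfl, this.1, mem_conjSub.mpr this.2⟩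
          · rintro h ⟨x, y, s⟩ hx
            have hs := hK _ hx
            simp only at hs
            subst hs
            have := h hx
            exact mem_twS_false.mpr ⟨this.2.1, mem_conjSub.mp this.2.2⟩
        by_cases c1 : K ≤ twS b (chainStabilizer σ.1)
        · rw [if_pos c1, if_pos (h.mp c1), sub_self]
        · rw [if_neg c1, if_neg (fun h' => c1 (h.mpr h')), sub_self]
      rw [e1, e2, W_sum, W_sum, add_zero, mul_one]
      push_cast
      ring
    · push Not at hK
      obtain ⟨⟨a, b, s⟩, hx, hs⟩ := hK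
      rw [Ne, Bool.not_eq_false] at hs
      simp only at hs
      subst hs
      rw [W_swap_sub hp2 K hx]
      have hn : ∀ H₁ H₂ : Subgroup G, ¬ K ≤ prd H₁ H₂ := fun H₁ H₂ h => by
        have := (h hx).1
        exact Bool.noConfusion this
      have e1 : ∑ σ : Ch p G, ∑ τ : Ch p G, (-1 : R) ^ σ.1.ncard * ((-1 : R) ^ τ.1.ncard *
          (if K ≤ prd (chainStabilizer σ.1) (chainStabilizer τ.1) then r else 0)) = 0 := by
        refine Finset.sum_eq_zero fun σ _ => Finset.sum_eq_zero fun τ _ => ?_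
        rw [if_neg (hn _ _)]
        simp
      rw [e1, zero_add, ← W_sum]
      refine Finset.sum_congr rfl fun σ _ => ?_
      congr 1
      have e2 : ∀ g : G, ((if K ≤ twS g (chainStabilizer σ.1) then r else 0) -
          (if K ≤ prd (chainStabilizer σ.1) (conjSub g (chainStabilizer σ.1)) then r else 0)) =
          if g⁻¹ * b ∈ chainStabilizer σ.1 then
            (if pr1 K ≤ chainStabilizer σ.1 then r else 0) else 0 := by
        intro g
        rw [if_neg (hn _ _), sub_zero]
        have h := le_twS_swap K hx (chainStabilizer σ.1) g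
        by_cases c1 : g⁻¹ * b ∈ chainStabilizer σ.1
        · rw [if_pos c1]
          by_cases c2 : pr1 K ≤ chainStabilizer σ.1
          · rw [if_pos c2, if_pos (h.mpr ⟨c2, c1⟩)]
          · rw [if_neg c2, if_neg (fun h' => c2 (h.mp h').1)]
        · rw [if_neg c1, if_neg (fun h' => c1 (h.mp h').2)]
      rw [Finset.sum_congr rfl fun g _ => e2 g, ← Finset.sum_filter, Finset.sum_const, card_coset]
      have hne : (Nat.card (chainStabilizer σ.1) : ℚ) ≠ 0 := by
        exact_mod_cast (Nat.card_pos (α := chainStabilizer σ.1)).ne'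
      rw [← Nat.cast_smul_eq_nsmul ℚ, smul_smul, inv_mul_cancel₀ hne, one_smul]
  -- summation
  simp_rw [hc]
  simp_rw [← Finset.sum_sub_distrib, Finset.mul_sum, Finset.smul_sum, Finset.mul_sum]
  have k1 : ∑ υ : Ch p (Wr G), ∑ K : Subgroup (Wr G), (-1 : R) ^ υ.1.ncard *
      (if K ≤ chainStabilizer υ.1 then c K else 0) =
      ∑ K : Subgroup (Wr G), ∑ υ : Ch p (Wr G), (-1 : R) ^ υ.1.ncard *
      (if K ≤ chainStabilizer υ.1 then c K else 0) := Finset.sum_comm
  rw [k1, Finset.sum_congr rfl fun K _ => key K (c K), Finset.sum_add_distrib]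
  congr 1
  · rw [Finset.sum_comm]
    refine Finset.sum_congr rfl fun σ _ => ?_
    rw [Finset.sum_comm]
  · rw [Finset.sum_comm]
    refine Finset.sum_congr rfl fun σ _ => ?_
    simp_rw [Finset.smul_sum, Finset.mul_sum]
    rw [Finset.sum_comm]

end wreath

end Pool.Agent.Q90.WR
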