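import Pool.Agent.Q90.WR.Cfn
import Pool.Agent.Q90.WR.Krq

/-!
# The defects of the characters of chain stabilisers in wreath products
-/

set_option autoImplicit false

open scoped BigOperators Classical TensorProduct

noncomputable section

namespace Pool.Agent.Q90.WR

open Pool.Agent.Y63.KR Pool.Agent.Helper884.IC Polynomial
open Pool.Agent.Y63.AWC (IsIrreducibleCharacter)

/-! ### characters of a direct product -/

section box

variable {H K : Type} [Group H] [Group K]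

/-- the product of two functions -/
def box (θ : H → ℂ) (ψ : K → ℂ) (x : H × K) : ℂ := θ x.1 * ψ x.2

variable [Fintype H] [Fintype K]

theorem B_box (θ₁ ψ₁ : H → ℂ) (θ₂ ψ₂ : K → ℂ) :
    B (box θ₁ θ₂) (box ψ₁ ψ₂) = B θ₁ ψ₁ * B θ₂ ψ₂ := by
  unfold B box
  rw [Nat.card_prod, Fintype.sum_prod_type]
  push_cast
  rw [mul_inv, mul_mul_mul_comm, Finset.sum_mul_sum]
  congr 1
  refine Finset.sum_congr rfl fun a _ => Finset.sum_congr rfl fun b _ => ?_
  simp only [Prod.fst_inv, Prod.snd_inv]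
  ring

theorem box_irr {θ : H → ℂ} {ψ : K → ℂ} (h1 : IsIrrChar θ) (h2 : IsIrrChar ψ) :
    IsIrrChar (box θ ψ) := by
  refine irr_of_norm ?_ ?_ ?_ ?_
  · rintro ⟨a, b⟩ ⟨c, d⟩
    change θ (c * a * c⁻¹) * ψ (d * b * d⁻¹) = θ a * ψ b
    rw [h1.isClass a c, h2.isClass b d]
  · intro χ hχ
    obtain ⟨V₁, _, _, _, ρ₁, _, rfl⟩ := id h1
    obtain ⟨V₂, _, _, _, ρ₂, _, rfl⟩ := id h2
    obtain ⟨W, _, _, _, σ, _, rfl⟩ := hχ
    obtain ⟨n, hn⟩ := B_nat (Representation.tprod (ρ₁.comp (MonoidHom.fst H K))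
      (ρ₂.comp (MonoidHom.snd H K))) σ
    refine ⟨n, ?_⟩
    rw [Int.cast_natCast, ← hn, Representation.char_tensor]
    rfl
  · rw [B_box, B_irr h1 h1, B_irr h2 h2, if_pos rfl, if_pos rfl, one_mul]
  · obtain ⟨m, -, hm⟩ := deg_pos h1
    obtain ⟨n, -, hn⟩ := deg_pos h2
    refine ⟨m * n, ?_⟩
    change θ 1 * ψ 1 = _
    rw [hm, hn]
    push_cast
    ring

theorem box_cover {χ : H × K → ℂ} (hχ : IsIrrChar χ) :
    ∃ θ ψ, IsIrrChar θ ∧ IsIrrChar ψ ∧ χ = box θ ψ := by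
  by_contra hcon
  push Not at hcon
  have hcl := hχ.isClass
  have h1 : ∀ θ : H → ℂ, IsIrrChar θ → (fun b : K => ∑ a : H, χ (a, b) * θ a⁻¹) = 0 := by
    intro θ hθ
    apply class_eq_zero
    · intro g y
      refine Finset.sum_congr rfl fun a _ => ?_
      have := hcl (a, g) (1, y)
      simp only [Prod.mk_mul_mk, Prod.inv_mk, one_mul, inv_one, mul_one] at this
      rw [this]
    · intro ψ hψ
      have h2 := B_irr hχ (box_irr hθ hψ)
      rw [if_neg (hcon θ ψ hθ hψ)] at h2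
      unfold B at h2 ⊢
      have h3 := (mul_eq_zero.mp h2).resolve_left (inv_ne_zero cardG_ne)
      rw [Fintype.sum_prod_type, Finset.sum_comm] at h3
      have h4 : ∑ g : K, (∑ a : H, χ (a, g) * θ a⁻¹) * ψ g⁻¹ =
          ∑ y : K, ∑ x : H, χ (x, y) * box θ ψ (x, y)⁻¹ := by
        refine Finset.sum_congr rfl fun y _ => ?_
        rw [Finset.sum_mul]
        refine Finset.sum_congr rfl fun x _ => ?_
        simp only [box, Prod.inv_mk]
        ring
      rw [h4, h3, mul_zero]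
  have h2 : χ = 0 := by
    funext ⟨a, b⟩
    have h3 : (fun a : H => χ (a, b)) = 0 := by
      apply class_eq_zero
      · intro g y
        have := hcl (g, b) (y, 1)
        simp only [Prod.mk_mul_mk, Prod.inv_mk, one_mul, inv_one, mul_one] at this
        exact this
      · intro θ hθ
        unfold B
        have h4 := congrFun (h1 θ hθ) b
        simp only [Pi.zero_apply] at h4
        rw [h4, mul_zero]
    exact congrFun h3 a
  have h3 := B_irr hχ hχ
  rw [if_pos rfl, h2] at h3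
  simp [B] at h3

theorem box_inj {θ₁ ψ₁ : H → ℂ} {θ₂ ψ₂ : K → ℂ} (h1 : IsIrrChar θ₁) (h2 : IsIrrChar θ₂)
    (h3 : IsIrrChar ψ₁) (h4 : IsIrrChar ψ₂) (h : box θ₁ θ₂ = box ψ₁ ψ₂) : θ₁ = ψ₁ ∧ θ₂ = ψ₂ := by
  have e := B_box θ₁ ψ₁ θ₂ ψ₂
  rw [← h, B_irr (box_irr h1 h2) (box_irr h1 h2), if_pos rfl, B_irr h1 h3, B_irr h2 h4] at e
  by_contra hcon
  rw [not_and_or] at hcon
  rcases hcon with c | c
  · rw [if_neg c, zero_mul] at e
    exact one_ne_zero e
  · rw [if_neg c, mul_zero] at e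
    exact one_ne_zero e

theorem sum_Irr_prod {M : Type} [AddCommMonoid M] (g : (H × K → ℂ) → M) :
    ∑ χ ∈ Irr (H × K), g χ = ∑ t ∈ Irr H ×ˢ Irr K, g (box t.1 t.2) := by
  symm
  refine Finset.sum_bij (fun t _ => box t.1 t.2) ?_ ?_ ?_ ?_
  · intro t ht
    rw [Finset.mem_product, mem_Irr, mem_Irr] at ht
    exact mem_Irr.mpr (box_irr ht.1 ht.2)
  · intro t ht u hu h
    rw [Finset.mem_product, mem_Irr, mem_Irr] at ht hu
    have := box_inj ht.1 ht.2 hu.1 hu.2 h
    exact Prod.ext this.1 this.2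
  · intro χ hχ
    obtain ⟨θ, ψ, h1, h2, rfl⟩ := box_cover (mem_Irr.mp hχ)
    exact ⟨(θ, ψ), Finset.mem_product.mpr ⟨mem_Irr.mpr h1, mem_Irr.mpr h2⟩, rfl⟩
  · intro t _
    rfl

end box

/-! ### defects -/

/-- The number of irreducible complex characters of `H` of `p`-defect `d`. -/
def numDef (p d : ℕ) (H : Type) [Group H] : ℕ :=
  Nat.card {χ : H → ℂ // IsIrreducibleCharacter χ ∧
    ∃ n : ℕ, χ 1 = (n : ℂ) ∧ n.factorization p + d = (Nat.card H).factorization p}

/-- The number of real-valued irreducible complex characters of `H` of `p`-defect `d`. -/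
def numRealDef (p d : ℕ) (H : Type) [Group H] : ℕ :=
  Nat.card {χ : H → ℂ // IsIrreducibleCharacter χ ∧
    (∃ n : ℕ, χ 1 = (n : ℂ) ∧ n.factorization p + d = (Nat.card H).factorization p) ∧
    ∀ g, (χ g).im = 0}

/-- the defect -/
def dfn (p : ℕ) {H : Type} [Group H] (χ : H → ℂ) : ℕ :=
  (Nat.card H).factorization p - (⌊(χ 1).re⌋₊).factorization p

theorem dfn_eq (p : ℕ) {H : Type} [Group H] {χ : H → ℂ} {n : ℕ} (h : χ 1 = (n : ℂ)) :
    dfn p χ = (Nat.card H).factorization p - n.factorization p := by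
  unfold dfn
  rw [h, Complex.natCast_re, Nat.floor_natCast]

theorem numDef_card (p d : ℕ) (H : Type) [Group H] [Fintype H] :
    numDef p d H = ((Irr H).filter (fun χ => dfn p χ = d)).card := by
  rw [← card_filter_eq]
  unfold numDef
  refine Nat.card_congr (Equiv.subtypeEquivRight fun χ => ?_)
  refine and_congr_right fun hχ => ?_
  obtain ⟨m, hm0, hm⟩ := deg_pos (show IsIrrChar χ from hχ)
  have h1 := fac_le (p := p) (show IsIrrChar χ from hχ) hm
  rw [dfn_eq p hm]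
  constructor
  · rintro ⟨n, hn, h⟩
    have : n = m := by exact_mod_cast hn.symm.trans hm
    subst this
    omega
  · intro h
    exact ⟨m, hm, by omega⟩

/-- the generating function of the defects -/
def dpoly (p : ℕ) (H : Type) [Group H] : ℚ[X] :=
  ∑ d ∈ Finset.range ((Nat.card H).factorization p + 1), C (numDef p d H : ℚ) * X ^ d

theorem dpoly_coeff (p : ℕ) (H : Type) [Group H] (d : ℕ) :
    (dpoly p H).coeff d = numDef p d H := by
  unfold dpoly
  rw [finsetSum_coeff]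
  simp only [coeff_C_mul_X_pow]
  rw [Finset.sum_ite_eq]
  split_ifs with h
  · rfl
  · rw [Finset.mem_range, not_lt] at h
    have : IsEmpty {χ : H → ℂ // IsIrreducibleCharacter χ ∧
        ∃ n : ℕ, χ 1 = (n : ℂ) ∧ n.factorization p + d = (Nat.card H).factorization p} := by
      constructor
      rintro ⟨χ, _, n, _, h2⟩
      omega
    unfold numDef
    rw [Nat.card_of_isEmpty, Nat.cast_zero]

theorem coeff_sum_X {T : Type} (S : Finset T) (g : T → ℕ) (d : ℕ) :
    (∑ t ∈ S, (X : ℚ[X]) ^ g t).coeff d = ((S.filter (fun t => g t = d)).card : ℚ) := by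
  rw [finsetSum_coeff, Finset.card_filter, Nat.cast_sum]
  refine Finset.sum_congr rfl fun t _ => ?_
  rw [coeff_X_pow]
  by_cases h : g t = d
  · rw [if_pos h, if_pos h.symm, Nat.cast_one]
  · rw [if_neg h, if_neg (Ne.symm h), Nat.cast_zero]

theorem dpoly_sum (p : ℕ) (H : Type) [Group H] [Fintype H] :
    dpoly p H = ∑ χ ∈ Irr H, X ^ dfn p χ := by
  ext d
  rw [dpoly_coeff, coeff_sum_X, numDef_card]

theorem dpoly_congr (p : ℕ) {H K : Type} [Group H] [Group K] (e : H ≃* K) :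
    dpoly p H = dpoly p K := by
  ext d
  rw [dpoly_coeff, dpoly_coeff]
  congr 1
  unfold numDef
  change Nat.card {χ : H → ℂ // IsIrrChar χ ∧ _} = Nat.card {χ : K → ℂ // IsIrrChar χ ∧ _}
  rw [card_transport e]
  simp only [map_one, Nat.card_congr e.toEquiv]

theorem dfn_box {p : ℕ} {H K : Type} [Group H] [Group K] [Fintype H] [Fintype K]
    {θ : H → ℂ} {ψ : K → ℂ} (h1 : IsIrrChar θ) (h2 : IsIrrChar ψ) :
    dfn p (box θ ψ) = dfn p θ + dfn p ψ := by
  obtain ⟨m, hm0, hm⟩ := deg_pos h1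
  obtain ⟨n, hn0, hn⟩ := deg_pos h2
  have h3 := fac_le (p := p) h1 hm
  have h4 := fac_le (p := p) h2 hn
  have h5 : box θ ψ 1 = ((m * n : ℕ) : ℂ) := by
    change θ 1 * ψ 1 = _
    rw [hm, hn]; push_cast; rfl
  rw [dfn_eq p h5, dfn_eq p hm, dfn_eq p hn, Nat.card_prod,
    Nat.factorization_mul Nat.card_pos.ne' Nat.card_pos.ne', Nat.factorization_mul hm0.ne' hn0.ne']
  simp only [Finsupp.coe_add, Pi.add_apply]
  omega

theorem dpoly_prod (p : ℕ) (H K : Type) [Group H] [Group K] [Finite H] [Finite K] :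
    dpoly p (H × K) = dpoly p H * dpoly p K := by
  have := Fintype.ofFinite H
  have := Fintype.ofFinite K
  rw [dpoly_sum, dpoly_sum, dpoly_sum, sum_Irr_prod, Finset.sum_mul_sum, ← Finset.sum_product']
  refine Finset.sum_congr rfl fun t ht => ?_
  rw [Finset.mem_product, mem_Irr, mem_Irr] at ht
  rw [dfn_box ht.1 ht.2, pow_add]

section

variable {p : ℕ} [hp : Fact p.Prime]

theorem dfn_ext2 (hp2 : p ≠ 2) {H : Type} [Group H] [Fintype H] {ε : ℂ} {θ : H → ℂ}
    (h : IsIrrChar θ) : dfn p (ext2 ε θ) = 2 * dfn p θ := by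
  obtain ⟨d, hd0, hd⟩ := deg_pos h
  have h1 : ext2 ε θ 1 = ((d * d : ℕ) : ℂ) := by
    change θ 1 * θ 1 = _
    rw [hd]; push_cast; rfl
  have h2 := fac_le (p := p) h hd
  rw [dfn_eq p h1, dfn_eq p hd, fac_wr hp2, Nat.factorization_mul hd0.ne' hd0.ne']
  simp only [Finsupp.coe_add, Pi.add_apply]
  omega

theorem dfn_ind2 (hp2 : p ≠ 2) {H : Type} [Group H] [Fintype H] {θ₁ θ₂ : H → ℂ}
    (h1 : IsIrrChar θ₁) (h2 : IsIrrChar θ₂) :
    dfn p (ind2 θ₁ θ₂) = dfn p θ₁ + dfn p θ₂ := by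
  obtain ⟨d, hd0, hd⟩ := deg_pos h1
  obtain ⟨e, he0, he⟩ := deg_pos h2
  have h3 : ind2 θ₁ θ₂ 1 = ((2 * (d * e) : ℕ) : ℂ) := by
    change θ₁ 1 * θ₂ 1 + θ₂ 1 * θ₁ 1 = _
    rw [hd, he]; push_cast; ring
  have h4 := fac_le (p := p) h1 hd
  have h5 := fac_le (p := p) h2 he
  rw [dfn_eq p h3, dfn_eq p hd, dfn_eq p he, fac_wr hp2,
    Nat.factorization_mul two_ne_zero (Nat.mul_ne_zero hd0.ne' he0.ne'),
    Nat.factorization_mul hd0.ne' he0.ne']
  simp only [Finsupp.coe_add, Pi.add_apply]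
  rw [Nat.factorization_eq_zero_of_not_dvd (n := 2)]
  · omega
  · intro h
    exact hp2 ((Nat.prime_dvd_prime_iff_eq hp.out Nat.prime_two).mp h)

theorem dpoly_wr (hp2 : p ≠ 2) (H : Type) [Group H] [Finite H] :
    2 * dpoly p (Wr H) = dpoly p H ^ 2 + 3 * expand ℚ 2 (dpoly p H) := by
  have := Fintype.ofFinite H
  have e1 : expand ℚ 2 (dpoly p H) = ∑ θ ∈ Irr H, X ^ (2 * dfn p θ) := by
    rw [dpoly_sum, map_sum]
    refine Finset.sum_congr rfl fun θ _ => ?_
    rw [map_pow, expand_X, ← pow_mul]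
  have e2 : dpoly p H ^ 2 = ∑ t ∈ (Irr H).offDiag, X ^ (dfn p t.1 + dfn p t.2) +
      ∑ θ ∈ Irr H, X ^ (2 * dfn p θ) := by
    rw [dpoly_sum, pow_two, Finset.sum_mul_sum, ← Finset.sum_product',
      ← Finset.diag_union_offDiag, Finset.sum_union (Finset.disjoint_diag_offDiag _),
      Finset.sum_diag, add_comm]
    congr 1
    · exact Finset.sum_congr rfl fun t _ => (pow_add _ _ _).symm
    · exact Finset.sum_congr rfl fun t _ => by rw [← pow_add, two_mul]
  rw [e1, e2]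
  ext d
  have h := count (G := H) (fun χ => dfn p χ = d)
  have h1 : ∀ dd : DecidablePred (fun t : (H → ℂ) × (H → ℂ) => dfn p (ind2 t.1 t.2) = d),
      @Finset.filter _ _ dd ((Irr H).offDiag) =
        (Irr H).offDiag.filter (fun t => dfn p t.1 + dfn p t.2 = d) := by
    intro dd
    ext t
    simp only [Finset.mem_filter, Finset.mem_offDiag, mem_Irr]
    refine and_congr_right fun ht => ?_
    rw [dfn_ind2 hp2 ht.1 ht.2.1]
  have h2 : ∀ ε : ℂ, ∀ dd : DecidablePred (fun θ : H → ℂ => dfn p (ext2 ε θ) = d),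
      @Finset.filter _ _ dd (Irr H) = (Irr H).filter (fun θ => 2 * dfn p θ = d) := by
    intro ε dd
    ext θ
    simp only [Finset.mem_filter, mem_Irr]
    refine and_congr_right fun hθ => ?_
    rw [dfn_ext2 hp2 hθ]
  rw [h1, h2 1, h2 (-1)] at h
  replace h : 2 * numDef p d (Wr H) =
      ((Irr H).offDiag.filter (fun t => dfn p t.1 + dfn p t.2 = d)).card +
        2 * ((Irr H).filter (fun θ => 2 * dfn p θ = d)).card +
        2 * ((Irr H).filter (fun θ => 2 * dfn p θ = d)).card := by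
    rw [numDef_card]
    convert h
  have h3 : (2 * dpoly p (Wr H)).coeff d = 2 * (numDef p d (Wr H) : ℚ) := by
    rw [← dpoly_coeff]
    exact coeff_ofNat_mul
  have h4 : ∀ P : ℚ[X], (3 * P).coeff d = 3 * P.coeff d := fun P => coeff_ofNat_mul
  rw [h3, coeff_add, coeff_add, h4, coeff_sum_X, coeff_sum_X]
  have h5 : (2 * (numDef p d (Wr H) : ℚ)) = ((2 * numDef p d (Wr H) : ℕ) : ℚ) := by push_cast; rfl
  rw [h5, h]
  push_cast
  ring

end

end Pool.Agent.Q90.WR
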