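import Pool.Agent.Q90.WR.Dad

/-!
# Dade's alternating sums for wreath products and their parity
-/

set_option autoImplicit false

open scoped BigOperators Classical

noncomputable section

namespace Pool.Agent.Q90.WR

open Pool.Agent.Y63.KR Pool.Agent.Helper884.IC Polynomial
open Pool.Agent.Y63.AWC (IsIrreducibleCharacter)

section equivs

variable {G : Type} [Group G]

/-- `prd H K` is the direct product -/
def prdEquiv (H K : Subgroup G) : prd H K ≃* H × K where
  toFun x := (⟨x.1.a, x.2.2.1⟩, ⟨x.1.b, x.2.2.2⟩)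
  invFun y := ⟨⟨y.1.1, y.2.1, false⟩, rfl, y.1.2, y.2.2⟩
  left_inv := by
    rintro ⟨⟨a, b, s⟩, h1, h2, h3⟩
    simp only at h1
    subst h1
    rfl
  right_inv _ := rfl
  map_mul' := by
    rintro ⟨⟨a, b, s⟩, h1, h2, h3⟩ ⟨⟨c, d, t⟩, h4, h5, h6⟩
    simp only at h1 h4
    subst h1 h4
    rfl

/-- `wrS H` is the wreath product of `H` -/
def wrSEquiv (H : Subgroup G) : wrS H ≃* Wr H where
  toFun x := ⟨⟨x.1.a, x.2.1⟩, ⟨x.1.b, x.2.2⟩, x.1.s⟩
  invFun y := ⟨⟨y.a.1, y.b.1, y.s⟩, y.a.2, y.b.2⟩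
  left_inv _ := rfl
  right_inv _ := rfl
  map_mul' := by
    rintro ⟨⟨a, b, s⟩, h1, h2⟩ ⟨⟨c, d, t⟩, h4, h5⟩
    cases s <;> rfl

/-- conjugate subgroups are isomorphic -/
def conjEquiv (g : G) (H : Subgroup G) : H ≃* conjSub g H :=
  Subgroup.equivMapOfInjective _ _ (MulAut.conj g).injective

end equivs

section recursion

variable {G : Type} [Group G] [Fintype G] {p : ℕ} [hp : Fact p.Prime]
variable {R : Type} [CommRing R] [Algebra ℚ R]

/-- the sum over all chains, weighted with the orders of the stabilisers -/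
def wsum (p : ℕ) (G : Type) [Group G] [Finite G] (f : ∀ (H : Type) [Group H], R) : R :=
  ∑ σ : Ch p G, (-1 : R) ^ σ.1.ncard *
    ((Nat.card (chainStabilizer σ.1) : R) * f (chainStabilizer σ.1))

/-- **the recursion for arbitrary functions of the stabilisers** -/
theorem wsum_wr (hp2 : p ≠ 2) (f f2 : ∀ (H : Type) [Group H], R)
    (hiso : ∀ (H K : Type) [Group H] [Group K] [Finite H] [Finite K],
      Nonempty (H ≃* K) → f H = f K)
    (hprod : ∀ (H K : Type) [Group H] [Group K] [Finite H] [Finite K], f (H × K) = f H * f K)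
    (hwr : ∀ (H : Type) [Group H] [Finite H], 2 * f (Wr H) = f H ^ 2 + 3 * f2 H) :
    wsum p (Wr G) f = wsum p G f ^ 2 + 3 * ((Nat.card G : R) * wsum p G f2) := by
  unfold wsum
  rw [functional hp2 (fun H : Subgroup (Wr G) => (Nat.card H : R) * f H)]
  have e1 : ∀ H K : Subgroup G, (Nat.card (prd H K) : R) * f (prd H K) =
      ((Nat.card H : R) * f H) * ((Nat.card K : R) * f K) := by
    intro H K
    rw [hiso (prd H K) (H × K) ⟨prdEquiv H K⟩, hprod, Nat.card_congr (prdEquiv H K).toEquiv,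
      Nat.card_prod]
    push_cast
    ring
  have e2 : ∀ (b : G) (H : Subgroup G), (Nat.card (twS b H) : R) * f (twS b H) =
      (Nat.card H : R) ^ 2 * (f H ^ 2 + 3 * f2 H) := by
    intro b H
    have e : twS b H ≃* Wr H :=
      (conjEquiv (⟨1, b, false⟩ : Wr G) (wrS H)).symm.trans (wrSEquiv H)
    rw [hiso (twS b H) (Wr H) ⟨e⟩, Nat.card_congr e.toEquiv, Wr.card, ← hwr]
    push_cast
    ring
  have e3 : ∀ (b : G) (H : Subgroup G), (Nat.card (conjSub b H) : R) * f (conjSub b H) =
      (Nat.card H : R) * f H := by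
    intro b H
    rw [hiso (conjSub b H) H ⟨(conjEquiv b H).symm⟩, Nat.card_congr (conjEquiv b H).symm.toEquiv]
  have e4 : ∀ σ : Ch p G, ((Nat.card (chainStabilizer σ.1) : ℚ)⁻¹ • ∑ b : G,
      ((Nat.card (twS b (chainStabilizer σ.1)) : R) * f (twS b (chainStabilizer σ.1)) -
        (Nat.card (prd (chainStabilizer σ.1) (conjSub b (chainStabilizer σ.1))) : R) *
          f (prd (chainStabilizer σ.1) (conjSub b (chainStabilizer σ.1))))) =
      3 * ((Nat.card G : R) * ((Nat.card (chainStabilizer σ.1) : R) *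
        f2 (chainStabilizer σ.1))) := by
    intro σ
    have e5 : ∀ b : G, ((Nat.card (twS b (chainStabilizer σ.1)) : R) *
        f (twS b (chainStabilizer σ.1)) -
        (Nat.card (prd (chainStabilizer σ.1) (conjSub b (chainStabilizer σ.1))) : R) *
          f (prd (chainStabilizer σ.1) (conjSub b (chainStabilizer σ.1)))) =
        (Nat.card (chainStabilizer σ.1) : R) * (3 * ((Nat.card (chainStabilizer σ.1) : R) *
        f2 (chainStabilizer σ.1))) := by
      intro b
      rw [e2, e1, e3]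
      ring
    rw [Finset.sum_congr rfl fun b _ => e5 b, Finset.sum_const, Finset.card_univ,
      ← Nat.card_eq_fintype_card, nsmul_eq_mul]
    have hne : (Nat.card (chainStabilizer σ.1) : ℚ) ≠ 0 := by
      exact_mod_cast (Nat.card_pos (α := chainStabilizer σ.1)).ne'
    have h6 : ∀ r : R, (Nat.card (chainStabilizer σ.1) : R) * r =
        (Nat.card (chainStabilizer σ.1) : ℚ) • r := by
      intro r
      rw [Nat.cast_smul_eq_nsmul, nsmul_eq_mul]
    rw [mul_left_comm, h6, smul_smul, inv_mul_cancel₀ hne, one_smul]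
    ring
  congr 1
  · rw [pow_two, Finset.sum_mul_sum]
    refine Finset.sum_congr rfl fun σ _ => Finset.sum_congr rfl fun τ _ => ?_
    rw [e1]
    ring
  · rw [Finset.mul_sum, Finset.mul_sum]
    refine Finset.sum_congr rfl fun σ _ => ?_
    rw [e4]
    ring

end recursion

/-! ### Dade's sums -/

/-- The alternating sum `∑_σ (-1)^|σ| k^d(G_σ)` over representatives `σ` of the conjugacy classes of
chains of nontrivial `p`-subgroups of `G` (the empty chain included), where `k^d(H)` is the number of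
irreducible characters of `H` of `p`-defect `d`. -/
def dadeSum (p d : ℕ) (G : Type) [Group G] : ℤ :=
  alternatingSum p G (fun H => (numDef p d H : ℤ))

/-- The sum of the numbers of real-valued irreducible characters of `p`-defect `d` of the stabilisers
`G_σ`, over representatives `σ` of the conjugacy classes of chains of nontrivial `p`-subgroups of `G`,
the empty chain included. -/
def realDadeSum (p d : ℕ) (G : Type) [Group G] : ℕ :=
  ∑ᶠ c : Quotient (chainSetoid p G), numRealDef p d (chainStabilizer c.out.1)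

theorem numDef_congr (p d : ℕ) {H K : Type} [Group H] [Group K] (e : H ≃* K) :
    numDef p d H = numDef p d K := by
  have h := congrArg (fun P : ℚ[X] => P.coeff d) (dpoly_congr p e)
  simp only [dpoly_coeff] at h
  exact_mod_cast h

/-- the generating function of the alternating sums -/
def dadeP (p : ℕ) (G : Type) [Group G] [Finite G] : ℚ[X] :=
  (Nat.card G : ℚ)⁻¹ • wsum p G (dpoly p)

section

variable {p : ℕ} {G : Type} [Group G] [Fintype G]

theorem dadeP_coeff (d : ℕ) : (dadeP p G).coeff d = (dadeSum p d G : ℚ) := by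
  have h := card_mul_alternatingSum (p := p) (G := G) (fun H => (numDef p d H : ℤ))
    (fun H K ⟨e⟩ => by simp only [numDef_congr p d e])
  have h2 : (wsum p G (dpoly p)).coeff d = (Nat.card G : ℚ) * (dadeSum p d G : ℚ) := by
    unfold dadeSum
    have h3 : ((Nat.card G : ℚ) * (alternatingSum p G (fun H => (numDef p d H : ℤ)) : ℚ)) =
        (((Nat.card G : ℤ) * alternatingSum p G (fun H => (numDef p d H : ℤ)) : ℤ) : ℚ) := by
      push_cast; rfl
    rw [h3, h]
    unfold wsum
    rw [finsetSum_coeff, Int.cast_sum]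
    refine Finset.sum_congr rfl fun σ _ => ?_
    have h4 : ((-1 : ℚ[X]) ^ σ.1.ncard *
        ((Nat.card (chainStabilizer σ.1) : ℚ[X]) * dpoly p (chainStabilizer σ.1))) =
        C ((-1 : ℚ) ^ σ.1.ncard * (Nat.card (chainStabilizer σ.1) : ℚ)) *
          dpoly p (chainStabilizer σ.1) := by
      simp only [map_mul, map_pow, map_neg, map_one, map_natCast]
      ring
    rw [h4, coeff_C_mul, dpoly_coeff]
    push_cast
    ring
  unfold dadeP
  rw [coeff_smul, h2, smul_eq_mul, ← mul_assoc, inv_mul_cancel₀, one_mul]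
  exact_mod_cast (Nat.card_pos (α := G)).ne'

theorem wsum_expand : wsum p G (fun H _ => expand ℚ 2 (dpoly p H)) =
    expand ℚ 2 (wsum p G (dpoly p)) := by
  unfold wsum
  rw [map_sum]
  refine Finset.sum_congr rfl fun σ _ => ?_
  simp only [map_mul, map_pow, map_neg, map_one, map_natCast]

theorem dadeP_wr [hp : Fact p.Prime] (hp2 : p ≠ 2) :
    2 * dadeP p (Wr G) = dadeP p G ^ 2 + 3 * expand ℚ 2 (dadeP p G) := by
  have h := wsum_wr (p := p) (G := G) hp2 (fun H _ => dpoly p H)
    (fun H _ => expand ℚ 2 (dpoly p H)) (fun H K _ _ _ _ ⟨e⟩ => dpoly_congr p e)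
    (fun H K _ _ _ _ => dpoly_prod p H K) (fun H _ _ => dpoly_wr hp2 H)
  rw [wsum_expand] at h
  have hne : (Nat.card G : ℚ) ≠ 0 := by exact_mod_cast (Nat.card_pos (α := G)).ne'
  unfold dadeP
  rw [show (fun (H : Type) (_ : Group H) => dpoly p H) = @dpoly p from rfl] at h
  rw [h, Wr.card]
  have h5 : expand ℚ 2 ((Nat.card G : ℚ)⁻¹ • wsum p G (dpoly p)) =
      (Nat.card G : ℚ)⁻¹ • expand ℚ 2 (wsum p G (dpoly p)) := map_smul _ _ _
  rw [h5]
  simp only [smul_eq_C_mul]
  have h6 : (Nat.card G : ℚ[X]) = C (Nat.card G : ℚ) := by simp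
  rw [h6]
  push_cast
  have h7 : C ((2 * (Nat.card G : ℚ) ^ 2)⁻¹) * (2 : ℚ[X]) * C (Nat.card G : ℚ) =
      C (Nat.card G : ℚ)⁻¹ := by
    rw [show (2 : ℚ[X]) = C 2 from rfl, ← C_mul, ← C_mul]
    congr 1
    field_simp
  have h8 : C ((2 * (Nat.card G : ℚ) ^ 2)⁻¹) * (2 : ℚ[X]) =
      C (Nat.card G : ℚ)⁻¹ * C (Nat.card G : ℚ)⁻¹ := by
    rw [show (2 : ℚ[X]) = C 2 from rfl, ← C_mul, ← C_mul]
    congr 1
    field_simp
  linear_combination (wsum p G (dpoly p)) ^ 2 * h8 +
    3 * (expand ℚ 2 (wsum p G (dpoly p))) * h7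

/-- **the recursion for Dade's sums** -/
theorem dade_wr [hp : Fact p.Prime] (hp2 : p ≠ 2) (d : ℕ) :
    2 * dadeSum p d (Wr G) = ∑ t ∈ Finset.HasAntidiagonal.antidiagonal d, dadeSum p t.1 G * dadeSum p t.2 G +
      3 * (if 2 ∣ d then dadeSum p (d / 2) G else 0) := by
  have h := congrArg (fun P : ℚ[X] => P.coeff d) (dadeP_wr (p := p) (G := G) hp2)
  have h4 : ∀ P : ℚ[X], (3 * P).coeff d = 3 * P.coeff d := fun P => coeff_ofNat_mul
  have h5 : ∀ P : ℚ[X], (2 * P).coeff d = 2 * P.coeff d := fun P => coeff_ofNat_mul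
  simp only [h5, coeff_add, h4, pow_two, coeff_mul, coeff_expand (two_pos), dadeP_coeff] at h
  have h6 : (if 2 ∣ d then (dadeSum p (d / 2) G : ℚ) else 0) =
      ((if 2 ∣ d then dadeSum p (d / 2) G else 0 : ℤ) : ℚ) := by
    split_ifs <;> simp
  rw [h6] at h
  exact_mod_cast h

end

end Pool.Agent.Q90.WR
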