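import Pool.Agent.Q90.WR.Tower

/-!
# Degrees modulo `p` of the characters of the wreath product
-/

set_option autoImplicit false

open scoped BigOperators Classical

noncomputable section

namespace Pool.Agent.Q90.WR

open Pool.Agent.Helper884.IC

/-- the `e`-th power of the degree modulo `p` -/
def lab (p e : ℕ) {G : Type} [Group G] (χ : G → ℂ) : ZMod p := ((⌊(χ 1).re⌋₊ : ℕ) : ZMod p) ^ e

theorem lab_eq {p e : ℕ} {G : Type} [Group G] {χ : G → ℂ} {n : ℕ} (h : (n : ℂ) = χ 1) :
    lab p e χ = (n : ZMod p) ^ e := by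
  unfold lab
  rw [← h, Complex.natCast_re, Nat.floor_natCast]

/-- the number of irreducible characters with a given label -/
def numLab (p e : ℕ) (k : ZMod p) (G : Type) [Group G] : ℕ :=
  Nat.card {χ : G → ℂ // IsIrrChar χ ∧ lab p e χ = k}

theorem numLab_congr {H K : Type} [Group H] [Group K] (f : H ≃* K) (p e : ℕ) (k : ZMod p) :
    numLab p e k H = numLab p e k K := by
  unfold numLab
  rw [card_transport f]
  congr 1
  have : ∀ χ : K → ℂ, lab p e (fun g => χ (f g)) = lab p e χ := by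
    intro χ
    unfold lab
    simp only [map_one]
  simp_rw [this]

theorem numLab_le (p e : ℕ) (k : ZMod p) (G : Type) [Group G] [Finite G] :
    numLab p e k G ≤ Nat.card G := by
  have := Fintype.ofFinite G
  unfold numLab
  rw [card_filter_eq]
  exact (Finset.card_filter_le _ _).trans (card_Irr_le G)

section

variable {G : Type} [Group G] [Fintype G] {p e : ℕ}

theorem lab_ext2 {ε : ℂ} {θ : G → ℂ} (h : IsIrrChar θ) : lab p e (ext2 ε θ) = lab p e θ ^ 2 := by
  obtain ⟨d, -, hd⟩ := deg_pos h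
  have h1 : ((d * d : ℕ) : ℂ) = ext2 ε θ 1 := by
    change _ = θ 1 * θ 1
    rw [hd]; push_cast; rfl
  rw [lab_eq h1, lab_eq hd.symm]
  push_cast
  ring

theorem lab_ind2 {θ₁ θ₂ : G → ℂ} (h1 : IsIrrChar θ₁) (h2 : IsIrrChar θ₂) :
    lab p e (ind2 θ₁ θ₂) = 2 ^ e * (lab p e θ₁ * lab p e θ₂) := by
  obtain ⟨d, -, hd⟩ := deg_pos h1
  obtain ⟨f, -, he⟩ := deg_pos h2
  have h3 : ((2 * (d * f) : ℕ) : ℂ) = ind2 θ₁ θ₂ 1 := by
    change _ = θ₁ 1 * θ₂ 1 + θ₂ 1 * θ₁ 1
    rw [hd, he]; push_cast; ring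
  rw [lab_eq h3, lab_eq hd.symm, lab_eq he.symm]
  push_cast
  ring

variable [hp : Fact p.Prime]

/-- counting by labels -/
theorem card_by_lab {X : Type} (S : Finset X) (l : X → ZMod p) (r : ZMod p → Prop)
    [DecidablePred r] :
    (S.filter fun x => r (l x)).card =
      ∑ i ∈ Finset.univ.filter r, (S.filter fun x => l x = i).card := by
  rw [Finset.card_eq_sum_card_fiberwise (f := l) (t := Finset.univ.filter r)]
  · refine Finset.sum_congr rfl fun i hi => ?_
    congr 1
    ext x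
    simp only [Finset.mem_filter, Finset.mem_univ, true_and] at hi ⊢
    constructor
    · rintro ⟨⟨h1, -⟩, h2⟩
      exact ⟨h1, h2⟩
    · rintro ⟨h1, h2⟩
      exact ⟨⟨h1, h2 ▸ hi⟩, h2⟩
  · intro x hx
    simpa using (Finset.mem_filter.mp hx).2

theorem card_pairs {X : Type} (S : Finset X) (l : X → ZMod p) {t k : ZMod p} (ht : t ≠ 0)
    (hk : k ≠ 0) :
    ((S ×ˢ S).filter fun x => t * (l x.1 * l x.2) = k).card =
      ∑ i ∈ Finset.univ.filter (fun i : ZMod p => i ≠ 0), (S.filter fun x => l x = i).card *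
        (S.filter fun x => l x = k * t⁻¹ * i⁻¹).card := by
  rw [Finset.card_eq_sum_card_fiberwise (f := fun x => l x.1)
    (t := Finset.univ.filter (fun i : ZMod p => i ≠ 0))]
  · refine Finset.sum_congr rfl fun i hi => ?_
    rw [← Finset.card_product]
    congr 1
    ext ⟨x, y⟩
    simp only [Finset.mem_filter, Finset.mem_univ, true_and, Finset.mem_product] at hi ⊢
    constructor
    · rintro ⟨⟨⟨h1, h2⟩, h3⟩, h4⟩
      subst h4
      refine ⟨⟨h1, rfl⟩, h2, ?_⟩
      rw [← h3]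
      field_simp
    · rintro ⟨⟨h1, rfl⟩, h2, h3⟩
      refine ⟨⟨⟨h1, h2⟩, ?_⟩, rfl⟩
      rw [h3]
      field_simp
  · intro x hx
    simp only [Finset.coe_filter, Finset.mem_univ, true_and, Set.mem_ofPred_eq]
    intro h
    have h2 := (Finset.mem_filter.mp hx).2
    rw [h, zero_mul, mul_zero] at h2
    exact hk h2.symm

/-- the numbers of characters of the wreath product by label -/
theorem numLab_wr (hp2 : p ≠ 2) {k : ZMod p} (hk : k ≠ 0) :
    2 * (numLab p e k (Wr G) : ℤ) =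
      ∑ i ∈ Finset.univ.filter (fun i : ZMod p => i ≠ 0), (numLab p e i G : ℤ) *
        numLab p e (k * (2 ^ e)⁻¹ * i⁻¹) G -
      ∑ i ∈ Finset.univ.filter (fun i : ZMod p => 2 ^ e * (i * i) = k), (numLab p e i G : ℤ) +
      4 * ∑ i ∈ Finset.univ.filter (fun i : ZMod p => i ^ 2 = k), (numLab p e i G : ℤ) := by
  have ht : (2 ^ e : ZMod p) ≠ 0 := by
    apply pow_ne_zero
    intro h
    have h1 : ((2 : ℕ) : ZMod p) = 0 := by exact_mod_cast h
    rw [ZMod.natCast_eq_zero_iff] at h1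
    exact hp2 ((Nat.prime_dvd_prime_iff_eq hp.out Nat.prime_two).mp h1)
  have h := count (G := G) (fun χ => lab p e χ = k)
  rw [← card_filter_eq] at h
  have h1 : ∀ d : DecidablePred (fun t : (G → ℂ) × (G → ℂ) => lab p e (ind2 t.1 t.2) = k),
      (@Finset.filter _ _ d ((Irr G).offDiag)).card +
        ((Irr G).filter fun θ => 2 ^ e * (lab p e θ * lab p e θ) = k).card =
      (((Irr G) ×ˢ (Irr G)).filter
        fun x => 2 ^ e * (lab p e x.1 * lab p e x.2) = k).card := by
    intro d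
    rw [← Finset.diag_union_offDiag, Finset.filter_union, Finset.card_union_of_disjoint
      (Finset.disjoint_filter_filter (Finset.disjoint_diag_offDiag _)), add_comm]
    congr 1
    · symm
      refine Finset.card_bij (fun x _ => x.1) ?_ ?_ ?_
      · intro x hx
        rw [Finset.mem_filter, Finset.mem_diag] at hx
        obtain ⟨⟨h1, h2⟩, h3⟩ := hx
        rw [Finset.mem_filter]
        rw [← h2] at h3
        exact ⟨h1, h3⟩
      · intro x hx y hy h
        rw [Finset.mem_filter, Finset.mem_diag] at hx hy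
        exact Prod.ext h (by rw [← hx.1.2, ← hy.1.2]; exact h)
      · intro θ hθ
        rw [Finset.mem_filter] at hθ
        exact ⟨(θ, θ), by rw [Finset.mem_filter, Finset.mem_diag]; exact ⟨⟨hθ.1, rfl⟩, hθ.2⟩, rfl⟩
    · congr 1
      ext x
      simp only [Finset.mem_filter, Finset.mem_offDiag, mem_Irr]
      refine and_congr_right fun hx => ?_
      rw [lab_ind2 hx.1 hx.2.1]
  have h2 : ∀ ε : ℂ, ∀ d : DecidablePred (fun θ : G → ℂ => lab p e (ext2 ε θ) = k),
      @Finset.filter _ _ d (Irr G) = (Irr G).filter fun θ => (lab p e θ) ^ 2 = k := by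
    intro ε d
    ext θ
    simp only [Finset.mem_filter, mem_Irr]
    refine and_congr_right fun hθ => ?_
    rw [lab_ext2 hθ]
  rw [h2 1, h2 (-1)] at h
  have h3 := h1 (fun t => Classical.propDecidable _)
  rw [card_pairs _ _ ht hk, card_by_lab (Irr G) (lab p e) (fun i => 2 ^ e * (i * i) = k)] at h3
  rw [card_by_lab (Irr G) (lab p e) (fun i => i ^ 2 = k)] at h
  have h4 : ∀ i : ZMod p, ((Irr G).filter fun x => lab p e x = i).card = numLab p e i G :=
    fun i => (card_filter_eq _).symm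
  simp_rw [h4] at h h3
  change 2 * numLab p e k (Wr G) = _ at h
  zify at h h3
  rw [h]
  linear_combination h3

end

/-- the arithmetic step, with labels -/
theorem lab_step {p : ℕ} [hp : Fact p.Prime] {a : ℕ} {t : ZMod p} (ht : t ≠ 0)
    {c c' w w' : ZMod p → ℤ} {k : ZMod p} (hk : k ≠ 0)
    (h1 : 2 * w k = ∑ i ∈ Finset.univ.filter (fun i : ZMod p => i ≠ 0), c i * c (k * t⁻¹ * i⁻¹) -
      ∑ i ∈ Finset.univ.filter (fun i : ZMod p => t * (i * i) = k), c i +
      4 * ∑ i ∈ Finset.univ.filter (fun i : ZMod p => i ^ 2 = k), c i)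
    (h2 : 2 * w' k = ∑ i ∈ Finset.univ.filter (fun i : ZMod p => i ≠ 0), c' i * c' (k * t⁻¹ * i⁻¹) -
      ∑ i ∈ Finset.univ.filter (fun i : ZMod p => t * (i * i) = k), c' i +
      4 * ∑ i ∈ Finset.univ.filter (fun i : ZMod p => i ^ 2 = k), c' i)
    (h : ∀ i : ZMod p, i ≠ 0 → (2 : ℤ) ^ (a + 1) ∣ c i - c' i)
    (hw : (2 : ℤ) ^ (a + 1) ∣ w k - w' k) :
    (2 : ℤ) ^ (a + 2) ∣
      ∑ i ∈ Finset.univ.filter (fun i : ZMod p => t * (i * i) = k), (c i - c' i) := by
  have e1 : ∑ i ∈ Finset.univ.filter (fun i : ZMod p => i ≠ 0), c i * c (k * t⁻¹ * i⁻¹) -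
      ∑ i ∈ Finset.univ.filter (fun i : ZMod p => i ≠ 0), c' i * c' (k * t⁻¹ * i⁻¹) =
      2 * ∑ i ∈ Finset.univ.filter (fun i : ZMod p => i ≠ 0),
        (c i - c' i) * c (k * t⁻¹ * i⁻¹) -
      ∑ i ∈ Finset.univ.filter (fun i : ZMod p => i ≠ 0),
        (c i - c' i) * (c (k * t⁻¹ * i⁻¹) - c' (k * t⁻¹ * i⁻¹)) := by
    have e2 : ∑ i ∈ Finset.univ.filter (fun i : ZMod p => i ≠ 0),
        (c i - c' i) * c (k * t⁻¹ * i⁻¹) =
        ∑ i ∈ Finset.univ.filter (fun i : ZMod p => i ≠ 0),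
        (c (k * t⁻¹ * i⁻¹) - c' (k * t⁻¹ * i⁻¹)) * c i := by
      refine Finset.sum_nbij' (fun i => k * t⁻¹ * i⁻¹) (fun i => k * t⁻¹ * i⁻¹) ?_ ?_ ?_ ?_ ?_
      · intro i hi
        simp only [Finset.mem_filter, Finset.mem_univ, true_and] at hi ⊢
        exact mul_ne_zero (mul_ne_zero hk (inv_ne_zero ht)) (inv_ne_zero hi)
      · intro i hi
        simp only [Finset.mem_filter, Finset.mem_univ, true_and] at hi ⊢
        exact mul_ne_zero (mul_ne_zero hk (inv_ne_zero ht)) (inv_ne_zero hi)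
      · intro i hi
        simp only [Finset.mem_filter, Finset.mem_univ, true_and] at hi
        field_simp
      · intro i hi
        simp only [Finset.mem_filter, Finset.mem_univ, true_and] at hi
        field_simp
      · intro i hi
        simp only [Finset.mem_filter, Finset.mem_univ, true_and] at hi
        have : k * t⁻¹ * (k * t⁻¹ * i⁻¹)⁻¹ = i := by field_simp
        rw [this]
    rw [two_mul, e2, ← Finset.sum_sub_distrib]
    nth_rewrite 1 [← e2]
    rw [← Finset.sum_add_distrib, ← Finset.sum_sub_distrib]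
    refine Finset.sum_congr rfl fun i _ => ?_
    ring
  have e3 : ∑ i ∈ Finset.univ.filter (fun i : ZMod p => t * (i * i) = k), (c i - c' i) =
      2 * ∑ i ∈ Finset.univ.filter (fun i : ZMod p => i ≠ 0),
        (c i - c' i) * c (k * t⁻¹ * i⁻¹) -
      ∑ i ∈ Finset.univ.filter (fun i : ZMod p => i ≠ 0),
        (c i - c' i) * (c (k * t⁻¹ * i⁻¹) - c' (k * t⁻¹ * i⁻¹)) +
      4 * ∑ i ∈ Finset.univ.filter (fun i : ZMod p => i ^ 2 = k), (c i - c' i) -
      2 * (w k - w' k) := by
    rw [Finset.sum_sub_distrib, Finset.sum_sub_distrib (s := Finset.univ.filter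
      (fun i : ZMod p => i ^ 2 = k))]
    linear_combination h1 - h2 + e1
  rw [e3]
  have d2 : ∀ x : ℤ, (2 : ℤ) ^ (a + 1) ∣ x → (2 : ℤ) ^ (a + 2) ∣ 2 * x := by
    intro x hx
    rw [pow_succ, mul_comm]
    exact mul_dvd_mul_left 2 hx
  refine dvd_sub (dvd_add (dvd_sub (d2 _ ?_) ?_) ?_) (d2 _ hw)
  · refine Finset.dvd_sum fun i hi => ?_
    simp only [Finset.mem_filter, Finset.mem_univ, true_and] at hi
    exact (h i hi).mul_right _
  · refine Finset.dvd_sum fun i hi => ?_
    simp only [Finset.mem_filter, Finset.mem_univ, true_and] at hi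
    have h3 := mul_dvd_mul (h i hi) (h _ (mul_ne_zero (mul_ne_zero hk (inv_ne_zero ht))
      (inv_ne_zero hi)))
    refine (pow_dvd_pow 2 ?_).trans (by rw [← pow_add] at h3; exact h3)
    omega
  · have h3 : (2 : ℤ) ^ (a + 1) ∣
        ∑ i ∈ Finset.univ.filter (fun i : ZMod p => i ^ 2 = k), (c i - c' i) := by
      refine Finset.dvd_sum fun i hi => h i ?_
      rintro rfl
      simp only [Finset.mem_filter, Finset.mem_univ, true_and] at hi
      rw [zero_pow two_ne_zero] at hi
      exact hk hi.symm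
    have h4 := d2 _ h3
    rw [show (4 : ℤ) * ∑ i ∈ Finset.univ.filter (fun i : ZMod p => i ^ 2 = k), (c i - c' i) =
      2 * (2 * ∑ i ∈ Finset.univ.filter (fun i : ZMod p => i ^ 2 = k), (c i - c' i)) by ring]
    exact h4.mul_left 2

end Pool.Agent.Q90.WR
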