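import Pool.Agent.Q90.WR.Gal

/-!
# Fixed points of field automorphisms on characters of degree prime to `p`
-/

set_option autoImplicit false

open scoped BigOperators Classical

noncomputable section

namespace Pool.Agent.Q90.WR

open Pool.Agent.Helper884.IC

/-- The degree of `χ` is prime to `p`. -/
def PrimeDeg (p : ℕ) {G : Type} [Group G] (χ : G → ℂ) : Prop := ∃ n : ℕ, (n : ℂ) = χ 1 ∧ ¬ p ∣ n

/-- `χ` is fixed by the field automorphism `σ`. -/
def FixedBy (σ : ℂ ≃+* ℂ) {G : Type} (χ : G → ℂ) : Prop := ∀ g, σ (χ g) = χ g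

/-- The number of irreducible characters of `G` of degree prime to `p` fixed by `σ`. -/
def numFixed (p : ℕ) (σ : ℂ ≃+* ℂ) (G : Type) [Group G] : ℕ :=
  Nat.card {χ : G → ℂ // IsIrrChar χ ∧ PrimeDeg p χ ∧ FixedBy σ χ}

/-- The permutation of the irreducible characters of `G` induced by `σ` has odd order. -/
def OddOn (σ : ℂ ≃+* ℂ) (G : Type) [Group G] : Prop :=
  ∃ m : ℕ, Odd m ∧ ∀ χ : G → ℂ, IsIrrChar χ → FixedBy (σ ^ m) χ

theorem fixedBy_pow {σ : ℂ ≃+* ℂ} {G : Type} {χ : G → ℂ} (h : FixedBy σ χ) (n : ℕ) :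
    FixedBy (σ ^ n) χ := by
  intro g
  induction n with
  | zero => rfl
  | succ n ih =>
    rw [pow_succ, RingAut.mul_apply, h g, ih]

/-- a permutation of odd order whose square fixes a character fixes the character -/
theorem fixed_of_sq {σ : ℂ ≃+* ℂ} {G : Type} {χ : G → ℂ} {m : ℕ} (hm : Odd m)
    (h : FixedBy (σ ^ m) χ) (h2 : FixedBy (σ ^ 2) χ) : FixedBy σ χ := by
  obtain ⟨k, rfl⟩ := hm
  intro g
  have h3 := h g
  rw [pow_succ', RingAut.mul_apply, pow_mul, fixedBy_pow h2 k g] at h3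
  exact h3

section

variable {G : Type} [Group G] [Fintype G] {p : ℕ} {σ : ℂ ≃+* ℂ}

theorem gal_ind2 (θ₁ θ₂ : G → ℂ) (x : Wr G) :
    σ (ind2 θ₁ θ₂ x) = ind2 (fun g => σ (θ₁ g)) (fun g => σ (θ₂ g)) x := by
  obtain ⟨a, b, s⟩ := x
  cases s
  · simp [ind2]
  · simp [ind2]

theorem gal_ext2 {ε : ℂ} (hε : σ ε = ε) (θ : G → ℂ) (x : Wr G) :
    σ (ext2 ε θ x) = ext2 ε (fun g => σ (θ g)) x := by
  obtain ⟨a, b, s⟩ := x
  cases s
  · simp [ext2]
  · simp [ext2, hε]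

theorem fixedBy_iff {χ : G → ℂ} : FixedBy σ χ ↔ (fun g => σ (χ g)) = χ :=
  funext_iff.symm

theorem fixed_ext2 {ε : ℂ} (hε : ε * ε = 1) (hσ : σ ε = ε) {θ : G → ℂ} (h : IsIrrChar θ) :
    FixedBy σ (ext2 ε θ) ↔ FixedBy σ θ := by
  rw [fixedBy_iff]
  constructor
  · intro h1
    have h2 : ext2 ε (fun g => σ (θ g)) = ext2 ε θ := by
      rw [← h1]
      funext x
      exact (gal_ext2 hσ θ x).symm
    exact fixedBy_iff.mpr (ext2_inj (irr_gal σ h) h hε hε h2).1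
  · intro h1
    funext x
    rw [gal_ext2 hσ, fixedBy_iff.mp h1]

theorem fixed_ind2 {θ₁ θ₂ : G → ℂ} (h1 : IsIrrChar θ₁) (h2 : IsIrrChar θ₂) (hne : θ₁ ≠ θ₂)
    {m : ℕ} (hm : Odd m) (hf : ∀ χ : G → ℂ, IsIrrChar χ → FixedBy (σ ^ m) χ) :
    FixedBy σ (ind2 θ₁ θ₂) ↔ FixedBy σ θ₁ ∧ FixedBy σ θ₂ := by
  rw [fixedBy_iff]
  constructor
  · intro h
    have h3 : ind2 θ₁ θ₂ = ind2 (fun g => σ (θ₁ g)) (fun g => σ (θ₂ g)) := by
      conv_lhs => rw [← h]
      funext x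
      exact gal_ind2 θ₁ θ₂ x
    rcases ind2_inj h1 h2 (irr_gal σ h1) (irr_gal σ h2) hne h3 with ⟨h4, h5⟩ | ⟨h4, h5⟩
    · exact ⟨fixedBy_iff.mpr h4.symm, fixedBy_iff.mpr h5.symm⟩
    · exfalso
      have h6 : FixedBy (σ ^ 2) θ₁ := by
        intro g
        rw [pow_two, RingAut.mul_apply]
        have e1 : σ (θ₁ g) = θ₂ g := (congrFun h5 g).symm
        have e2 : σ (θ₂ g) = θ₁ g := (congrFun h4 g).symm
        rw [e1, e2]
      have h7 := fixed_of_sq hm (hf θ₁ h1) h6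
      exact hne ((fixedBy_iff.mp h7).symm.trans h5.symm)
  · rintro ⟨h3, h4⟩
    funext x
    rw [gal_ind2, fixedBy_iff.mp h3, fixedBy_iff.mp h4]

theorem prime_ext2 (hp : p.Prime) {ε : ℂ} {θ : G → ℂ} (h : IsIrrChar θ) :
    PrimeDeg p (ext2 ε θ) ↔ PrimeDeg p θ := by
  obtain ⟨d, -, hd⟩ := deg_pos h
  have h1 : ext2 ε θ 1 = ((d * d : ℕ) : ℂ) := by
    change θ 1 * θ 1 = _
    rw [hd]; push_cast; rfl
  unfold PrimeDeg
  rw [h1, hd]
  constructor
  · rintro ⟨n, hn, hpn⟩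
    have : n = d * d := by exact_mod_cast hn
    refine ⟨d, rfl, fun h => hpn (this ▸ h.mul_right d)⟩
  · rintro ⟨n, hn, hpn⟩
    have : n = d := by exact_mod_cast hn
    subst this
    exact ⟨n * n, rfl, fun h => hpn ((hp.dvd_mul.mp h).elim id id)⟩

theorem prime_ind2 (hp : p.Prime) (hp2 : p ≠ 2) {θ₁ θ₂ : G → ℂ} (h1 : IsIrrChar θ₁)
    (h2 : IsIrrChar θ₂) : PrimeDeg p (ind2 θ₁ θ₂) ↔ PrimeDeg p θ₁ ∧ PrimeDeg p θ₂ := by
  obtain ⟨d, -, hd⟩ := deg_pos h1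
  obtain ⟨e, -, he⟩ := deg_pos h2
  have h3 : ind2 θ₁ θ₂ 1 = ((2 * (d * e) : ℕ) : ℂ) := by
    change θ₁ 1 * θ₂ 1 + θ₂ 1 * θ₁ 1 = _
    rw [hd, he]; push_cast; ring
  unfold PrimeDeg
  rw [h3, hd, he]
  constructor
  · rintro ⟨n, hn, hpn⟩
    have : n = 2 * (d * e) := by exact_mod_cast hn
    subst this
    exact ⟨⟨d, rfl, fun h => hpn ((h.mul_right e).mul_left 2)⟩,
      ⟨e, rfl, fun h => hpn ((h.mul_left d).mul_left 2)⟩⟩
  · rintro ⟨⟨n, hn, hpn⟩, ⟨k, hk, hpk⟩⟩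
    have e1 : n = d := by exact_mod_cast hn
    have e2 : k = e := by exact_mod_cast hk
    subst e1 e2
    refine ⟨2 * (n * k), rfl, fun h => ?_⟩
    rcases hp.dvd_mul.mp h with h | h
    · exact hp2 ((Nat.prime_dvd_prime_iff_eq hp Nat.prime_two).mp h)
    · rcases hp.dvd_mul.mp h with h | h
      · exact hpn h
      · exact hpk h

/-- the number of fixed characters of the wreath product -/
theorem numFixed_wr (hp : p.Prime) (hp2 : p ≠ 2) (ho : OddOn σ G) :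
    2 * (numFixed p σ (Wr G) : ℤ) = (numFixed p σ G : ℤ) ^ 2 + 3 * numFixed p σ G := by
  obtain ⟨m, hm, hf⟩ := ho
  have h := count (G := G) (fun χ => PrimeDeg p χ ∧ FixedBy σ χ)
  rw [← card_filter_eq] at h
  have h1 : ∀ d : DecidablePred (fun t : (G → ℂ) × (G → ℂ) =>
      PrimeDeg p (ind2 t.1 t.2) ∧ FixedBy σ (ind2 t.1 t.2)),
      @Finset.filter _ _ d ((Irr G).offDiag) =
      ((Irr G).filter fun χ => PrimeDeg p χ ∧ FixedBy σ χ).offDiag := by
    intro d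
    ext t
    simp only [Finset.mem_filter, Finset.mem_offDiag, mem_Irr]
    constructor
    · rintro ⟨⟨a1, a2, hne⟩, a3, a4⟩
      rw [prime_ind2 hp hp2 a1 a2] at a3
      rw [fixed_ind2 a1 a2 hne hm hf] at a4
      exact ⟨⟨a1, a3.1, a4.1⟩, ⟨a2, a3.2, a4.2⟩, hne⟩
    · rintro ⟨⟨a1, a3, a4⟩, ⟨a2, a5, a6⟩, hne⟩
      exact ⟨⟨a1, a2, hne⟩, (prime_ind2 hp hp2 a1 a2).mpr ⟨a3, a5⟩,
        (fixed_ind2 a1 a2 hne hm hf).mpr ⟨a4, a6⟩⟩
  have h2 : ∀ ε : ℂ, ε * ε = 1 → σ ε = ε →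
      ∀ d : DecidablePred (fun θ : G → ℂ => PrimeDeg p (ext2 ε θ) ∧ FixedBy σ (ext2 ε θ)),
      @Finset.filter _ _ d (Irr G) =
      (Irr G).filter fun χ => PrimeDeg p χ ∧ FixedBy σ χ := by
    intro ε hε hσ d
    ext θ
    simp only [Finset.mem_filter, mem_Irr]
    refine and_congr_right fun hθ => ?_
    rw [prime_ext2 hp hθ, fixed_ext2 hε hσ hθ]
  rw [h1, h2 1 (by norm_num) (map_one σ), h2 (-1) (by norm_num) (by simp),
    Finset.offDiag_card, ← card_filter_eq] at h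
  change 2 * numFixed p σ (Wr G) = numFixed p σ G * numFixed p σ G - numFixed p σ G +
    2 * numFixed p σ G + 2 * numFixed p σ G at h
  have h3 : numFixed p σ G ≤ numFixed p σ G * numFixed p σ G := Nat.le_mul_self _
  zify [h3] at h
  linear_combination h

theorem oddOn_wr (ho : OddOn σ G) : OddOn σ (Wr G) := by
  obtain ⟨m, hm, hf⟩ := ho
  refine ⟨m, hm, fun χ hχ => ?_⟩
  rcases cover hχ with ⟨θ₁, θ₂, h1, h2, -, rfl⟩ | ⟨θ, h1, rfl⟩ | ⟨θ, h1, rfl⟩
  · intro x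
    rw [gal_ind2, fixedBy_iff.mp (hf θ₁ h1), fixedBy_iff.mp (hf θ₂ h2)]
  · exact (fixed_ext2 (by norm_num) (map_one _) h1).mpr (hf θ h1)
  · exact (fixed_ext2 (by norm_num) (by simp) h1).mpr (hf θ h1)

end

theorem oddOn_congr {H K : Type} [Group H] [Group K] (e : H ≃* K) {σ : ℂ ≃+* ℂ}
    (ho : OddOn σ K) : OddOn σ H := by
  obtain ⟨m, hm, hf⟩ := ho
  refine ⟨m, hm, fun χ hχ g => ?_⟩
  have h := hf (fun k => χ (e.symm k)) (irr_comp e.symm hχ) (e g)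
  simpa using h

theorem numFixed_congr {H K : Type} [Group H] [Group K] (e : H ≃* K) (p : ℕ) (σ : ℂ ≃+* ℂ) :
    numFixed p σ H = numFixed p σ K := by
  unfold numFixed
  rw [card_transport e]
  congr 1
  have : ∀ χ : K → ℂ, (IsIrrChar χ ∧ PrimeDeg p (fun g => χ (e g)) ∧
      FixedBy σ (fun g => χ (e g))) ↔ (IsIrrChar χ ∧ PrimeDeg p χ ∧ FixedBy σ χ) := by
    intro χ
    have h1 : PrimeDeg p (fun g => χ (e g)) ↔ PrimeDeg p χ := by
      unfold PrimeDeg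
      simp
    have h2 : FixedBy σ (fun g => χ (e g)) ↔ FixedBy σ χ := by
      constructor
      · intro h k
        simpa using h (e.symm k)
      · intro h g
        exact h (e g)
    rw [h1, h2]
  simp_rw [this]

/-- the arithmetic step -/
theorem step {a : ℕ} {x y x' y' : ℤ} (hx : 2 * x' = x ^ 2 + 3 * x) (hy : 2 * y' = y ^ 2 + 3 * y)
    (h : (2 : ℤ) ^ (a + 1) ∣ x - y) (h' : (2 : ℤ) ^ (a + 1) ∣ x' - y') :
    (2 : ℤ) ^ (a + 2) ∣ x - y := by
  have h1 : (x - y) * (x + y + 3) = 2 * (x' - y') := by linear_combination hy - hx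
  have h2 : (2 : ℤ) ^ (a + 2) ∣ (x - y) * (x + y + 3) := by
    rw [h1, pow_succ, mul_comm]
    exact mul_dvd_mul_left 2 h'
  have h3 : Odd (x + y + 3) := by
    have h4 : (2 : ℤ) ∣ x - y := (dvd_pow_self 2 (Nat.succ_ne_zero a)).trans h
    obtain ⟨k, hk⟩ := h4
    exact ⟨k + y + 1, by linear_combination hk⟩
  have h5 : IsCoprime ((2 : ℤ) ^ (a + 2)) (x + y + 3) := by
    apply IsCoprime.pow_left
    obtain ⟨k, hk⟩ := h3
    exact ⟨-k, 1, by rw [hk]; ring⟩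
  exact h5.dvd_of_dvd_mul_right h2

theorem eq_of_all {x y : ℤ} (h : ∀ a : ℕ, (2 : ℤ) ^ (a + 1) ∣ x - y) : x = y := by
  by_contra hne
  have h1 : x - y ≠ 0 := sub_ne_zero.mpr hne
  have h2 := Int.natAbs_dvd_natAbs.mpr (h (x - y).natAbs)
  rw [Int.natAbs_pow] at h2
  have h3 := Nat.le_of_dvd (Int.natAbs_pos.mpr h1) h2
  have h4 : (x - y).natAbs < 2 ^ (x - y).natAbs := Nat.lt_two_pow_self
  have h5 : 2 ^ (x - y).natAbs ≤ 2 ^ ((x - y).natAbs + 1) := Nat.pow_le_pow_right (by norm_num) (by omega)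
  have h6 : (2 : ℤ).natAbs = 2 := rfl
  rw [h6] at h3
  omega

/-- parity of the numbers of fixed characters for all groups implies equality -/
theorem parity {p : ℕ} [hp : Fact p.Prime] (hp2 : p ≠ 2) (σ : ℂ ≃+* ℂ)
    (H : ∀ (G : Type) [Group G] [Finite G] (P : Sylow p G), OddOn σ G →
      OddOn σ (Subgroup.normalizer ((P : Subgroup G) : Set G)) →
      numFixed p σ G ≡ numFixed p σ (Subgroup.normalizer ((P : Subgroup G) : Set G)) [MOD 2])
    (G : Type) [Group G] [Finite G] (P : Sylow p G) (h1 : OddOn σ G)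
    (h2 : OddOn σ (Subgroup.normalizer ((P : Subgroup G) : Set G))) :
    numFixed p σ G = numFixed p σ (Subgroup.normalizer ((P : Subgroup G) : Set G)) := by
  have key : ∀ (a : ℕ) (G : Type) [Group G] [Finite G] (P : Sylow p G), OddOn σ G →
      OddOn σ (Subgroup.normalizer ((P : Subgroup G) : Set G)) →
      (2 : ℤ) ^ (a + 1) ∣ (numFixed p σ G : ℤ) -
        numFixed p σ (Subgroup.normalizer ((P : Subgroup G) : Set G)) := by
    intro a
    induction a with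
    | zero =>
      intro G _ _ P h1 h2
      rw [zero_add, pow_one]
      exact (Nat.modEq_iff_dvd.mp (H G P h1 h2).symm)
    | succ a ih =>
      intro G _ _ P h1 h2
      have := Fintype.ofFinite G
      have := Fintype.ofFinite (Subgroup.normalizer ((P : Subgroup G) : Set G))
      obtain ⟨Q, hQ⟩ := exists_sylow hp2 P
      have e : Nonempty (Subgroup.normalizer ((Q : Subgroup (Wr G)) : Set (Wr G)) ≃*
          Wr (Subgroup.normalizer ((P : Subgroup G) : Set G))) := by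
        rw [hQ]
        exact ⟨normEquiv _⟩
      obtain ⟨e⟩ := e
      have h3 := ih (Wr G) Q (oddOn_wr h1) (oddOn_congr e (oddOn_wr h2))
      rw [numFixed_congr e] at h3
      exact step (numFixed_wr hp.out hp2 h1) (numFixed_wr hp.out hp2 h2) (ih G P h1 h2) h3
  exact_mod_cast eq_of_all fun a => key a G P h1 h2

end Pool.Agent.Q90.WR
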