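import Mathlib

/-!
# The wreath product `G ≀ C₂`
-/

set_option autoImplicit false

namespace Pool.Agent.Q90.WR

/-- The wreath product of `G` with a group of order two: triples `(a, b, s)`, where `s` tells
whether the two factors are swapped. -/
@[ext]
structure Wr (G : Type) : Type where
  /-- first coordinate -/
  a : G
  /-- second coordinate -/
  b : G
  /-- swap -/
  s : Bool

namespace Wr

variable {G : Type}

/-- as a set, the wreath product is `G × G × Bool` -/
def eqv : Wr G ≃ G × G × Bool where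
  toFun x := (x.a, x.b, x.s)
  invFun x := ⟨x.1, x.2.1, x.2.2⟩
  left_inv _ := rfl
  right_inv _ := rfl

instance [Finite G] : Finite (Wr G) := Finite.of_equiv _ eqv.symm

instance [Fintype G] : Fintype (Wr G) := Fintype.ofEquiv _ eqv.symm

variable [Group G]

instance : Mul (Wr G) := ⟨fun x y =>
  match x.s with
  | false => ⟨x.a * y.a, x.b * y.b, y.s⟩
  | true => ⟨x.a * y.b, x.b * y.a, !y.s⟩⟩

instance : One (Wr G) := ⟨⟨1, 1, false⟩⟩

instance : Inv (Wr G) := ⟨fun x =>
  match x.s with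
  | false => ⟨x.a⁻¹, x.b⁻¹, false⟩
  | true => ⟨x.b⁻¹, x.a⁻¹, true⟩⟩

theorem mk_false_mul (a b : G) (y : Wr G) : (⟨a, b, false⟩ : Wr G) * y = ⟨a * y.a, b * y.b, y.s⟩ :=
  rfl

theorem mk_true_mul (a b : G) (y : Wr G) : (⟨a, b, true⟩ : Wr G) * y = ⟨a * y.b, b * y.a, !y.s⟩ :=
  rfl

theorem one_def : (1 : Wr G) = ⟨1, 1, false⟩ := rfl

theorem inv_false (a b : G) : (⟨a, b, false⟩ : Wr G)⁻¹ = ⟨a⁻¹, b⁻¹, false⟩ := rfl

theorem inv_true (a b : G) : (⟨a, b, true⟩ : Wr G)⁻¹ = ⟨b⁻¹, a⁻¹, true⟩ := rfl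

instance : Group (Wr G) where
  mul_assoc := by
    rintro ⟨a, b, s⟩ ⟨a', b', s'⟩ ⟨a'', b'', s''⟩
    cases s <;> cases s' <;>
      simp [mk_false_mul, mk_true_mul, mul_assoc]
  one_mul := by
    rintro ⟨a, b, s⟩
    simp [one_def, mk_false_mul]
  mul_one := by
    rintro ⟨a, b, s⟩
    cases s <;> simp [one_def, mk_false_mul, mk_true_mul]
  inv_mul_cancel := by
    rintro ⟨a, b, s⟩
    cases s <;> simp [one_def, inv_false, inv_true, mk_false_mul, mk_true_mul]

theorem card [Finite G] : Nat.card (Wr G) = 2 * Nat.card G ^ 2 := by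
  rw [Nat.card_congr eqv, Nat.card_prod, Nat.card_prod, Nat.card_eq_fintype_card (α := Bool),
    Fintype.card_bool]
  ring

theorem sum_eq [Fintype G] {M : Type} [AddCommMonoid M] (f : Wr G → M) :
    ∑ x, f x = ∑ a, ∑ b, f ⟨a, b, false⟩ + ∑ a, ∑ b, f ⟨a, b, true⟩ := by
  rw [Fintype.sum_equiv eqv f (fun x => f ⟨x.1, x.2.1, x.2.2⟩) (fun _ => rfl),
    Fintype.sum_prod_type]
  simp_rw [Fintype.sum_prod_type, Fintype.sum_bool]
  rw [← Finset.sum_add_distrib]
  refine Finset.sum_congr rfl fun a _ => ?_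
  rw [← Finset.sum_add_distrib]
  exact Finset.sum_congr rfl fun b _ => add_comm _ _

/-- the inclusion of the base group -/
def base (G : Type) [Group G] : G × G →* Wr G where
  toFun x := ⟨x.1, x.2, false⟩
  map_one' := rfl
  map_mul' _ _ := rfl

end Wr

end Pool.Agent.Q90.WR
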