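import Pool.Agent.Q90.WR.Pos
import Pool.Agent.Q90.WR.Grp
import Pool.Agent.Y63.KR.Levels

/-!
# Invariant `p`-subgroups of wreath products and the Knörr–Robinson sum
-/

set_option autoImplicit false

open scoped BigOperators Classical

noncomputable section

namespace Pool.Agent.Q90.WR

open Pool.Agent.Y63.KR

section general

variable {G : Type} [Group G] [Finite G] {p : ℕ}

/-- the `p`-subgroups normalised by `K` -/
def inv (p : ℕ) (K : Set G) : Finset (Subgroup G) :=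
  (Set.toFinite {P : Subgroup G | IsPGroup p P ∧ ∀ x ∈ K, conjSub x P = P}).toFinset

theorem mem_inv {K : Set G} {P : Subgroup G} :
    P ∈ inv p K ↔ IsPGroup p P ∧ ∀ x ∈ K, conjSub x P = P := by
  simp [inv]

omit [Finite G] in
theorem conjSub_bot (x : G) : conjSub x (⊥ : Subgroup G) = ⊥ := by
  unfold conjSub
  exact Subgroup.map_bot _

theorem bot_mem (K : Set G) : (⊥ : Subgroup G) ∈ inv p K :=
  mem_inv.mpr ⟨IsPGroup.of_bot, fun x _ => conjSub_bot x⟩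

theorem W_cs (K : Set G) : W p K = cs ((inv p K).filter (⊥ < ·)) := by
  have h1 : Fintype {σ : Set (Subgroup G) // IsPChain p σ} := Fintype.ofFinite _
  unfold W cs
  rw [finsum_eq_sum_of_fintype]
  have e1 : ∀ σ : {σ : Set (Subgroup G) // IsPChain p σ},
      (-1 : ℤ) ^ σ.1.ncard * (if ∀ P ∈ σ.1, ∀ x ∈ K, conjSub x P = P then 1 else 0) =
      if ∀ P ∈ σ.1, ∀ x ∈ K, conjSub x P = P then (-1 : ℤ) ^ σ.1.ncard else 0 := by
    intro σ
    split_ifs <;> simp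
  simp only [e1]
  rw [← Finset.sum_filter]
  refine Finset.sum_bij (fun σ _ => (Set.toFinite σ.1).toFinset) ?_ ?_ ?_ ?_
  · intro σ hσ
    have h2 := (Finset.mem_filter.mp hσ).2
    rw [Finset.mem_filter, Finset.mem_powerset]
    refine ⟨?_, ?_⟩
    · intro P hP
      rw [Set.Finite.mem_toFinset] at hP
      rw [Finset.mem_filter, mem_inv]
      exact ⟨⟨σ.2.isPGroup P hP, h2 P hP⟩, bot_lt_iff_ne_bot.mpr (σ.2.ne_bot P hP)⟩
    · rw [Set.Finite.coe_toFinset]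
      exact σ.2.chain
  · intro σ _ τ _ h
    apply Subtype.ext
    rw [← Set.Finite.coe_toFinset (Set.toFinite σ.1), ← Set.Finite.coe_toFinset (Set.toFinite τ.1), h]
  · intro τ hτ
    rw [Finset.mem_filter, Finset.mem_powerset] at hτ
    have h2 : ∀ P ∈ τ, (IsPGroup p P ∧ ∀ x ∈ K, conjSub x P = P) ∧ ⊥ < P := by
      intro P hP
      have := hτ.1 hP
      rwa [Finset.mem_filter, mem_inv] at this
    refine ⟨⟨(τ : Set (Subgroup G)), hτ.2, fun P hP => (h2 P hP).1.1,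
      fun P hP => (h2 P hP).2.ne'⟩, ?_, ?_⟩
    · rw [Finset.mem_filter]
      exact ⟨Finset.mem_univ _, fun P hP => (h2 P hP).1.2⟩
    · ext P
      simp
  · intro σ _
    rw [Set.ncard_eq_toFinset_card _ (Set.toFinite σ.1)]

/-- a coweighting of the poset of invariant `p`-subgroups, at the trivial subgroup -/
theorem W_of_weight {K : Set G} {f : Subgroup G → ℤ}
    (hf : ∀ P ∈ inv p K, ∑ Q ∈ (inv p K).filter (P ≤ ·), f Q = 1) : W p K = f ⊥ := by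
  rw [W_cs]
  exact (weight_eq hf ⊥ (bot_mem K)).symm

theorem exists_weight (p : ℕ) (K : Set G) : ∃ f : Subgroup G → ℤ, f ⊥ = W p K ∧
    ∀ P ∈ inv p K, ∑ Q ∈ (inv p K).filter (P ≤ ·), f Q = 1 :=
  ⟨fun Q => cs ((inv p K).filter (Q < ·)), (W_cs K).symm, weight_exists _⟩

omit [Finite G] in
theorem W_congr {K K' : Set G}
    (h : ∀ P : Subgroup G, (∀ x ∈ K, conjSub x P = P) ↔ (∀ x ∈ K', conjSub x P = P)) :
    W p K = W p K' := by
  unfold W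
  refine finsum_congr fun σ => ?_
  congr 1
  have : (∀ P ∈ σ.1, ∀ x ∈ K, conjSub x P = P) ↔ (∀ P ∈ σ.1, ∀ x ∈ K', conjSub x P = P) :=
    forall₂_congr fun P _ => h P
  simp only [this]

end general

section wreath

variable {G : Type} [Group G] {p : ℕ}

/-- the subgroup `P₁ × P₂` of the base -/
def prd (P₁ P₂ : Subgroup G) : Subgroup (Wr G) where
  carrier := {x | x.s = false ∧ x.a ∈ P₁ ∧ x.b ∈ P₂}
  one_mem' := ⟨rfl, P₁.one_mem, P₂.one_mem⟩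
  mul_mem' := by
    rintro ⟨a, b, s⟩ ⟨a', b', s'⟩ ⟨h1, h2, h3⟩ ⟨h4, h5, h6⟩
    simp only at h1 h2 h3 h4 h5 h6
    subst h1 h4
    exact ⟨rfl, P₁.mul_mem h2 h5, P₂.mul_mem h3 h6⟩
  inv_mem' := by
    rintro ⟨a, b, s⟩ ⟨h1, h2, h3⟩
    simp only at h1 h2 h3
    subst h1
    exact ⟨rfl, P₁.inv_mem h2, P₂.inv_mem h3⟩

theorem mem_prd {P₁ P₂ : Subgroup G} {x : Wr G} :
    x ∈ prd P₁ P₂ ↔ x.s = false ∧ x.a ∈ P₁ ∧ x.b ∈ P₂ := Iff.rfl

/-- the first projection of the part in the base -/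
def pr1 (P : Subgroup (Wr G)) : Subgroup G where
  carrier := {g | ∃ b, (⟨g, b, false⟩ : Wr G) ∈ P}
  one_mem' := ⟨1, P.one_mem⟩
  mul_mem' := by
    rintro g h ⟨b, hb⟩ ⟨c, hc⟩
    exact ⟨b * c, P.mul_mem hb hc⟩
  inv_mem' := by
    rintro g ⟨b, hb⟩
    exact ⟨b⁻¹, P.inv_mem hb⟩

/-- the second projection of the part in the base -/
def pr2 (P : Subgroup (Wr G)) : Subgroup G where
  carrier := {g | ∃ a, (⟨a, g, false⟩ : Wr G) ∈ P}
  one_mem' := ⟨1, P.one_mem⟩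
  mul_mem' := by
    rintro g h ⟨b, hb⟩ ⟨c, hc⟩
    exact ⟨b * c, P.mul_mem hb hc⟩
  inv_mem' := by
    rintro g ⟨b, hb⟩
    exact ⟨b⁻¹, P.inv_mem hb⟩

theorem mem_pr1 {P : Subgroup (Wr G)} {g : G} : g ∈ pr1 P ↔ ∃ b, (⟨g, b, false⟩ : Wr G) ∈ P :=
  Iff.rfl

theorem mem_pr2 {P : Subgroup (Wr G)} {g : G} : g ∈ pr2 P ↔ ∃ a, (⟨a, g, false⟩ : Wr G) ∈ P :=
  Iff.rfl

theorem pow_false (a b : G) (k : ℕ) : (⟨a, b, false⟩ : Wr G) ^ k = ⟨a ^ k, b ^ k, false⟩ := by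
  induction k with
  | zero => simp [Wr.one_def]
  | succ k ih => rw [pow_succ, ih, Wr.mk_false_mul, pow_succ, pow_succ]

theorem isPGroup_prd {P₁ P₂ : Subgroup G} (h1 : IsPGroup p P₁) (h2 : IsPGroup p P₂) :
    IsPGroup p (prd P₁ P₂) := by
  rintro ⟨⟨a, b, s⟩, h3, h4, h5⟩
  simp only at h3 h4 h5
  subst h3
  obtain ⟨m, hm⟩ := h1 ⟨a, h4⟩
  obtain ⟨n, hn⟩ := h2 ⟨b, h5⟩
  refine ⟨m + n, ?_⟩
  apply Subtype.ext
  have ha : a ^ p ^ m = 1 := congrArg Subtype.val hm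
  have hb : b ^ p ^ n = 1 := congrArg Subtype.val hn
  change (⟨a, b, false⟩ : Wr G) ^ p ^ (m + n) = 1
  rw [pow_false, pow_add, pow_mul, ha, one_pow, mul_comm, pow_mul, hb, one_pow]
  rfl

theorem isPGroup_pr1 {P : Subgroup (Wr G)} (h : IsPGroup p P) : IsPGroup p (pr1 P) := by
  rintro ⟨g, b, hb⟩
  obtain ⟨m, hm⟩ := h ⟨_, hb⟩
  refine ⟨m, Subtype.ext ?_⟩
  have h1 : (⟨g, b, false⟩ : Wr G) ^ p ^ m = 1 := congrArg Subtype.val hm
  rw [pow_false] at h1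
  exact congrArg Wr.a h1

theorem isPGroup_pr2 {P : Subgroup (Wr G)} (h : IsPGroup p P) : IsPGroup p (pr2 P) := by
  rintro ⟨g, b, hb⟩
  obtain ⟨m, hm⟩ := h ⟨_, hb⟩
  refine ⟨m, Subtype.ext ?_⟩
  have h1 : (⟨b, g, false⟩ : Wr G) ^ p ^ m = 1 := congrArg Subtype.val hm
  rw [pow_false] at h1
  exact congrArg Wr.b h1

theorem s_mul (x y : Wr G) : (x * y).s = xor x.s y.s := by
  obtain ⟨a, b, s⟩ := x
  obtain ⟨c, d, t⟩ := y
  cases s <;> cases t <;> rfl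

/-- the sign homomorphism -/
def sgn : Wr G →* Multiplicative (ZMod 2) where
  toFun x := if x.s then Multiplicative.ofAdd 1 else 1
  map_one' := rfl
  map_mul' x y := by
    rw [s_mul]
    cases x.s <;> cases y.s <;> decide

/-- for odd `p` the `p`-subgroups lie in the base -/
theorem s_eq [hp : Fact p.Prime] (hp2 : p ≠ 2) {P : Subgroup (Wr G)} (h : IsPGroup p P) {x : Wr G}
    (hx : x ∈ P) : x.s = false := by
  obtain ⟨m, hm⟩ := h ⟨x, hx⟩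
  have h1 : x ^ p ^ m = 1 := congrArg Subtype.val hm
  have h2 := congrArg sgn h1
  rw [map_pow, map_one] at h2
  have hodd : Odd (p ^ m) := (hp.out.odd_of_ne_two hp2).pow
  obtain ⟨k, hk⟩ := hodd
  by_contra hs
  rw [Bool.not_eq_false] at hs
  have h3 : sgn x = Multiplicative.ofAdd 1 := by
    change (if x.s then Multiplicative.ofAdd 1 else 1) = _
    rw [hs]; rfl
  rw [h3, hk, pow_succ, pow_mul] at h2
  have h4 : (Multiplicative.ofAdd 1 : Multiplicative (ZMod 2)) ^ 2 = 1 := by decide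
  rw [h4, one_pow, one_mul] at h2
  exact absurd h2 (by decide)

theorem le_prd [hp : Fact p.Prime] (hp2 : p ≠ 2) {P : Subgroup (Wr G)} (h : IsPGroup p P)
    {P₁ P₂ : Subgroup G} : P ≤ prd P₁ P₂ ↔ pr1 P ≤ P₁ ∧ pr2 P ≤ P₂ := by
  constructor
  · intro h1
    refine ⟨?_, ?_⟩
    · rintro g ⟨b, hb⟩
      exact (h1 hb).2.1
    · rintro g ⟨b, hb⟩
      exact (h1 hb).2.2
  · rintro ⟨h1, h2⟩ x hx
    have hs := s_eq hp2 h hx
    obtain ⟨a, b, s⟩ := x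
    simp only at hs
    subst hs
    exact ⟨rfl, h1 ⟨b, hx⟩, h2 ⟨a, hx⟩⟩

theorem pr1_prd (P₁ P₂ : Subgroup G) : pr1 (prd P₁ P₂) = P₁ := by
  ext g
  rw [mem_pr1]
  constructor
  · rintro ⟨b, hb⟩
    exact hb.2.1
  · intro hg
    exact ⟨1, rfl, hg, P₂.one_mem⟩

theorem pr2_prd (P₁ P₂ : Subgroup G) : pr2 (prd P₁ P₂) = P₂ := by
  ext g
  rw [mem_pr2]
  constructor
  · rintro ⟨b, hb⟩
    exact hb.2.2
  · intro hg
    exact ⟨1, rfl, P₁.one_mem, hg⟩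

theorem prd_bot : prd (⊥ : Subgroup G) ⊥ = ⊥ := by
  ext ⟨a, b, s⟩
  rw [mem_prd, Subgroup.mem_bot, Subgroup.mem_bot, Subgroup.mem_bot, Wr.one_def]
  constructor
  · rintro ⟨rfl, rfl, rfl⟩
    rfl
  · intro h
    rw [Wr.mk.injEq] at h
    exact ⟨h.2.2, h.1, h.2.1⟩

theorem pr1_bot : pr1 (⊥ : Subgroup (Wr G)) = ⊥ := by rw [← prd_bot, pr1_prd]

theorem pr2_bot : pr2 (⊥ : Subgroup (Wr G)) = ⊥ := by rw [← prd_bot, pr2_prd]

theorem conj_false (x₁ x₂ : G) (P : Subgroup (Wr G)) :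
    pr1 (conjSub ⟨x₁, x₂, false⟩ P) = conjSub x₁ (pr1 P) ∧
      pr2 (conjSub ⟨x₁, x₂, false⟩ P) = conjSub x₂ (pr2 P) := by
  constructor
  · ext g
    rw [mem_pr1, mem_conjSub, mem_pr1]
    constructor
    · rintro ⟨b, hb⟩
      rw [mem_conjSub] at hb
      exact ⟨x₂⁻¹ * b * x₂, hb⟩
    · rintro ⟨b, hb⟩
      refine ⟨x₂ * b * x₂⁻¹, ?_⟩
      rw [mem_conjSub]
      convert hb using 1
      rw [Wr.inv_false, Wr.mk_false_mul, Wr.mk_false_mul]
      simp only [Wr.mk.injEq, true_and, and_true]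
      group
  · ext g
    rw [mem_pr2, mem_conjSub, mem_pr2]
    constructor
    · rintro ⟨b, hb⟩
      rw [mem_conjSub] at hb
      exact ⟨x₁⁻¹ * b * x₁, hb⟩
    · rintro ⟨b, hb⟩
      refine ⟨x₁ * b * x₁⁻¹, ?_⟩
      rw [mem_conjSub]
      convert hb using 1
      rw [Wr.inv_false, Wr.mk_false_mul, Wr.mk_false_mul]
      simp only [Wr.mk.injEq, and_true]
      group

theorem conj_true (x₁ x₂ : G) (P : Subgroup (Wr G)) :
    pr1 (conjSub ⟨x₁, x₂, true⟩ P) = conjSub x₁ (pr2 P) ∧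
      pr2 (conjSub ⟨x₁, x₂, true⟩ P) = conjSub x₂ (pr1 P) := by
  have key : ∀ g h : G, (⟨x₁, x₂, true⟩ : Wr G)⁻¹ * ⟨g, h, false⟩ * ⟨x₁, x₂, true⟩ =
      ⟨x₂⁻¹ * h * x₂, x₁⁻¹ * g * x₁, false⟩ := by
    intro g h
    simp [Wr.inv_true, Wr.mk_true_mul]
  constructor
  · ext g
    rw [mem_pr1, mem_conjSub, mem_pr2]
    constructor
    · rintro ⟨b, hb⟩
      rw [mem_conjSub, key] at hb
      exact ⟨x₂⁻¹ * b * x₂, hb⟩
    · rintro ⟨b, hb⟩
      refine ⟨x₂ * b * x₂⁻¹, ?_⟩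
      rw [mem_conjSub, key]
      convert hb using 1
      simp only [Wr.mk.injEq, and_true]
      group
  · ext g
    rw [mem_pr2, mem_conjSub, mem_pr1]
    constructor
    · rintro ⟨b, hb⟩
      rw [mem_conjSub, key] at hb
      exact ⟨x₁⁻¹ * b * x₁, hb⟩
    · rintro ⟨b, hb⟩
      refine ⟨x₁ * b * x₁⁻¹, ?_⟩
      rw [mem_conjSub, key]
      convert hb using 1
      simp only [Wr.mk.injEq, true_and, and_true]
      group

theorem conj_prd_false (x₁ x₂ : G) (P₁ P₂ : Subgroup G) :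
    conjSub ⟨x₁, x₂, false⟩ (prd P₁ P₂) = prd (conjSub x₁ P₁) (conjSub x₂ P₂) := by
  ext ⟨a, b, s⟩
  rw [mem_conjSub, mem_prd, mem_prd, mem_conjSub, mem_conjSub]
  cases s <;> simp [Wr.inv_false, Wr.mk_false_mul, Wr.mk_true_mul]

theorem conj_prd_true (x₁ x₂ : G) (P₁ P₂ : Subgroup G) :
    conjSub ⟨x₁, x₂, true⟩ (prd P₁ P₂) = prd (conjSub x₁ P₂) (conjSub x₂ P₁) := by
  ext ⟨a, b, s⟩
  rw [mem_conjSub, mem_prd, mem_prd, mem_conjSub, mem_conjSub]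
  cases s
  · simp only [Wr.inv_true, Wr.mk_true_mul, Bool.not_false, Bool.not_true, true_and]
    exact and_comm
  · simp [Wr.inv_true, Wr.mk_true_mul, Wr.mk_false_mul]

variable [Finite G]

/-- pairs in the base group -/
theorem W_base [hp : Fact p.Prime] (hp2 : p ≠ 2) (x₁ x₂ y₁ y₂ : G) :
    W p ({⟨x₁, x₂, false⟩, ⟨y₁, y₂, false⟩} : Set (Wr G)) =
      W p ({x₁, y₁} : Set G) * W p ({x₂, y₂} : Set G) := by
  obtain ⟨f₁, h1, hf₁⟩ := exists_weight p ({x₁, y₁} : Set G)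
  obtain ⟨f₂, h2, hf₂⟩ := exists_weight p ({x₂, y₂} : Set G)
  rw [W_of_weight (f := fun P => if P = prd (pr1 P) (pr2 P) then f₁ (pr1 P) * f₂ (pr2 P) else 0)]
  · simp only [pr1_bot, pr2_bot, prd_bot, if_true, h1, h2]
  · intro P hP
    have hP' := mem_inv.mp hP
    have hPi : ∀ Q : Subgroup (Wr G), Q ∈ inv p ({⟨x₁, x₂, false⟩, ⟨y₁, y₂, false⟩} : Set (Wr G)) →
        pr1 Q ∈ inv p ({x₁, y₁} : Set G) ∧ pr2 Q ∈ inv p ({x₂, y₂} : Set G) := by
      intro Q hQ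
      rw [mem_inv] at hQ
      rw [mem_inv, mem_inv]
      have e1 := hQ.2 ⟨x₁, x₂, false⟩ (by simp)
      have e2 := hQ.2 ⟨y₁, y₂, false⟩ (by simp)
      refine ⟨⟨isPGroup_pr1 hQ.1, ?_⟩, isPGroup_pr2 hQ.1, ?_⟩
      · rintro z (rfl | rfl)
        · rw [← (conj_false z x₂ Q).1, e1]
        · rw [← (conj_false z y₂ Q).1, e2]
      · rintro z (rfl | rfl)
        · rw [← (conj_false x₁ z Q).2, e1]
        · rw [← (conj_false y₁ z Q).2, e2]
    rw [← Finset.sum_filter]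
    have e : ∑ Q ∈ ((inv p ({⟨x₁, x₂, false⟩, ⟨y₁, y₂, false⟩} : Set (Wr G))).filter
        (P ≤ ·)).filter (fun Q => Q = prd (pr1 Q) (pr2 Q)), f₁ (pr1 Q) * f₂ (pr2 Q) =
        ∑ R ∈ ((inv p ({x₁, y₁} : Set G)).filter (pr1 P ≤ ·)) ×ˢ
          ((inv p ({x₂, y₂} : Set G)).filter (pr2 P ≤ ·)), f₁ R.1 * f₂ R.2 := by
      refine Finset.sum_bij' (fun Q _ => (pr1 Q, pr2 Q)) (fun R _ => prd R.1 R.2) ?_ ?_ ?_ ?_ ?_
      · intro Q hQ
        rw [Finset.mem_filter, Finset.mem_filter] at hQ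
        obtain ⟨⟨a1, a2⟩, a3⟩ := hQ
        rw [a3] at a2
        have a4 := (le_prd hp2 hP'.1).mp a2
        rw [Finset.mem_product, Finset.mem_filter, Finset.mem_filter]
        exact ⟨⟨(hPi Q a1).1, a4.1⟩, (hPi Q a1).2, a4.2⟩
      · rintro ⟨R₁, R₂⟩ hR
        rw [Finset.mem_product, Finset.mem_filter, Finset.mem_filter] at hR
        obtain ⟨⟨a1, a2⟩, a3, a4⟩ := hR
        simp only at a1 a2 a3 a4
        rw [mem_inv] at a1 a3
        rw [Finset.mem_filter, Finset.mem_filter, mem_inv, pr1_prd, pr2_prd, le_prd hp2 hP'.1]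
        refine ⟨⟨⟨isPGroup_prd a1.1 a3.1, ?_⟩, a2, a4⟩, rfl⟩
        rintro z (rfl | rfl)
        · rw [conj_prd_false, a1.2 x₁ (by simp), a3.2 x₂ (by simp)]
        · rw [conj_prd_false, a1.2 y₁ (by simp), a3.2 y₂ (by simp)]
      · intro Q hQ
        rw [Finset.mem_filter] at hQ
        exact hQ.2.symm
      · rintro ⟨R₁, R₂⟩ _
        exact Prod.ext (pr1_prd _ _) (pr2_prd _ _)
      · intro Q _
        rfl
    rw [e, Finset.sum_product]
    simp only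
    rw [← Finset.sum_mul_sum, hf₁ _ (hPi P hP).1, hf₂ _ (hPi P hP).2, one_mul]

/-- pairs with one element outside the base group -/
theorem W_swap [hp : Fact p.Prime] (hp2 : p ≠ 2) {x₁ x₂ a b : G} (h2 : x₂ * b = b * x₁) :
    W p ({⟨x₁, x₂, false⟩, ⟨a, b, true⟩} : Set (Wr G)) = W p ({x₁, a * b} : Set G) := by
  obtain ⟨f₁, h3, hf₁⟩ := exists_weight p ({x₁, a * b} : Set G)
  rw [W_of_weight (f := fun P => if P = prd (pr1 P) (conjSub b (pr1 P)) then f₁ (pr1 P) else 0)]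
  · simp only [pr1_bot, conjSub_bot, prd_bot, if_true, h3]
  · intro P hP
    have hP' := mem_inv.mp hP
    have hPi : ∀ Q : Subgroup (Wr G), Q ∈ inv p ({⟨x₁, x₂, false⟩, ⟨a, b, true⟩} : Set (Wr G)) →
        pr1 Q ∈ inv p ({x₁, a * b} : Set G) ∧ pr2 Q = conjSub b (pr1 Q) := by
      intro Q hQ
      rw [mem_inv] at hQ
      rw [mem_inv]
      have e1 := hQ.2 ⟨x₁, x₂, false⟩ (by simp)
      have e2 := hQ.2 ⟨a, b, true⟩ (by simp)
      have e3 : pr2 Q = conjSub b (pr1 Q) := by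
        rw [← (conj_true a b Q).2, e2]
      have e4 : pr1 Q = conjSub a (pr2 Q) := by
        rw [← (conj_true a b Q).1, e2]
      refine ⟨⟨isPGroup_pr1 hQ.1, ?_⟩, e3⟩
      rintro z (rfl | rfl)
      · rw [← (conj_false z x₂ Q).1, e1]
      · rw [conjSub_mul, ← e3, ← e4]
    rw [← Finset.sum_filter]
    have e : ∑ Q ∈ ((inv p ({⟨x₁, x₂, false⟩, ⟨a, b, true⟩} : Set (Wr G))).filter
        (P ≤ ·)).filter (fun Q => Q = prd (pr1 Q) (conjSub b (pr1 Q))), f₁ (pr1 Q) =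
        ∑ R ∈ (inv p ({x₁, a * b} : Set G)).filter (pr1 P ≤ ·), f₁ R := by
      refine Finset.sum_bij' (fun Q _ => pr1 Q) (fun R _ => prd R (conjSub b R)) ?_ ?_ ?_ ?_ ?_
      · intro Q hQ
        rw [Finset.mem_filter, Finset.mem_filter] at hQ
        obtain ⟨⟨a1, a2⟩, a3⟩ := hQ
        rw [a3] at a2
        rw [Finset.mem_filter]
        exact ⟨(hPi Q a1).1, ((le_prd hp2 hP'.1).mp a2).1⟩
      · intro R hR
        rw [Finset.mem_filter] at hR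
        obtain ⟨a1, a2⟩ := hR
        rw [mem_inv] at a1
        rw [Finset.mem_filter, Finset.mem_filter, mem_inv, pr1_prd, le_prd hp2 hP'.1]
        refine ⟨⟨⟨isPGroup_prd a1.1 (a1.1.map _), ?_⟩, a2, ?_⟩, rfl⟩
        · rintro z (rfl | rfl)
          · rw [conj_prd_false, a1.2 x₁ (by simp), ← conjSub_mul, h2, conjSub_mul,
              a1.2 x₁ (by simp)]
          · rw [conj_prd_true, ← conjSub_mul, a1.2 (a * b) (by simp)]
        · rw [(hPi P hP).2]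
          exact conjSub_le a2
      · intro Q hQ
        rw [Finset.mem_filter] at hQ
        exact hQ.2.symm
      · intro R _
        exact pr1_prd _ _
      · intro Q _
        rfl
    rw [e, hf₁ _ (hPi P hP).1]

/-- the sum over the commuting pairs -/
def kap (p : ℕ) (G : Type) [Group G] [Fintype G] : ℤ :=
  ∑ x : G, ∑ y : G, if x * y = y * x then W p ({x, y} : Set G) else 0

omit [Finite G]

variable [Fintype G]

theorem kap_base [hp : Fact p.Prime] (hp2 : p ≠ 2) :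
    ∑ x₁ : G, ∑ x₂ : G, ∑ y₁ : G, ∑ y₂ : G,
      (if (⟨x₁, x₂, false⟩ : Wr G) * ⟨y₁, y₂, false⟩ = ⟨y₁, y₂, false⟩ * ⟨x₁, x₂, false⟩ then
        W p ({⟨x₁, x₂, false⟩, ⟨y₁, y₂, false⟩} : Set (Wr G)) else 0) = kap p G ^ 2 := by
  have h1 : ∀ x₁ x₂ y₁ y₂ : G,
      (if (⟨x₁, x₂, false⟩ : Wr G) * ⟨y₁, y₂, false⟩ = ⟨y₁, y₂, false⟩ * ⟨x₁, x₂, false⟩ then
        W p ({⟨x₁, x₂, false⟩, ⟨y₁, y₂, false⟩} : Set (Wr G)) else 0) =
      (if x₁ * y₁ = y₁ * x₁ then W p ({x₁, y₁} : Set G) else 0) *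
        (if x₂ * y₂ = y₂ * x₂ then W p ({x₂, y₂} : Set G) else 0) := by
    intro x₁ x₂ y₁ y₂
    rw [W_base hp2]
    have h2 : (⟨x₁, x₂, false⟩ : Wr G) * ⟨y₁, y₂, false⟩ = ⟨y₁, y₂, false⟩ * ⟨x₁, x₂, false⟩ ↔
        x₁ * y₁ = y₁ * x₁ ∧ x₂ * y₂ = y₂ * x₂ := by
      rw [Wr.mk_false_mul, Wr.mk_false_mul]
      simp
    by_cases c1 : x₁ * y₁ = y₁ * x₁
    · by_cases c2 : x₂ * y₂ = y₂ * x₂
      · rw [if_pos (h2.mpr ⟨c1, c2⟩), if_pos c1, if_pos c2]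
      · rw [if_neg (fun h => c2 (h2.mp h).2), if_neg c2, mul_zero]
    · rw [if_neg (fun h => c1 (h2.mp h).1), if_neg c1, zero_mul]
  simp_rw [h1]
  rw [pow_two]
  unfold kap
  rw [Finset.sum_mul_sum]
  refine Finset.sum_congr rfl fun x₁ _ => Finset.sum_congr rfl fun x₂ _ => ?_
  rw [Finset.sum_mul_sum]

theorem kap_swap [hp : Fact p.Prime] (hp2 : p ≠ 2) :
    ∑ x₁ : G, ∑ x₂ : G, ∑ a : G, ∑ b : G,
      (if (⟨x₁, x₂, false⟩ : Wr G) * ⟨a, b, true⟩ = ⟨a, b, true⟩ * ⟨x₁, x₂, false⟩ then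
        W p ({⟨x₁, x₂, false⟩, ⟨a, b, true⟩} : Set (Wr G)) else 0) =
      (Nat.card G : ℤ) * kap p G := by
  have h1 : ∀ x₁ x₂ a b : G,
      (if (⟨x₁, x₂, false⟩ : Wr G) * ⟨a, b, true⟩ = ⟨a, b, true⟩ * ⟨x₁, x₂, false⟩ then
        W p ({⟨x₁, x₂, false⟩, ⟨a, b, true⟩} : Set (Wr G)) else 0) =
      if x₂ = a⁻¹ * x₁ * a then
        (if x₁ * (a * b) = (a * b) * x₁ then W p ({x₁, a * b} : Set G) else 0) else 0 := by
    intro x₁ x₂ a b
    have h2 : (⟨x₁, x₂, false⟩ : Wr G) * ⟨a, b, true⟩ = ⟨a, b, true⟩ * ⟨x₁, x₂, false⟩ ↔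
        x₁ * a = a * x₂ ∧ x₂ * b = b * x₁ := by
      rw [Wr.mk_false_mul, Wr.mk_true_mul]
      simp
    by_cases c1 : x₂ = a⁻¹ * x₁ * a
    · rw [if_pos c1]
      have e1 : x₁ * a = a * x₂ := by rw [c1]; group
      by_cases c2 : x₂ * b = b * x₁
      · have c3 : x₁ * (a * b) = (a * b) * x₁ := by
          rw [← mul_assoc, e1, mul_assoc, c2, mul_assoc]
        rw [if_pos (h2.mpr ⟨e1, c2⟩), if_pos c3, W_swap hp2 c2]
      · have c3 : ¬ x₁ * (a * b) = (a * b) * x₁ := by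
          intro h
          apply c2
          rw [← mul_assoc, e1, mul_assoc, mul_assoc] at h
          exact mul_left_cancel h
        rw [if_neg (fun h => c2 (h2.mp h).2), if_neg c3]
    · rw [if_neg c1, if_neg]
      intro h
      apply c1
      have := (h2.mp h).1
      rw [mul_assoc, this]
      group
  simp_rw [h1]
  have h3 : ∀ x₁ : G, ∑ x₂ : G, ∑ a : G, ∑ b : G, (if x₂ = a⁻¹ * x₁ * a then
        (if x₁ * (a * b) = (a * b) * x₁ then W p ({x₁, a * b} : Set G) else 0) else 0) =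
      (Nat.card G : ℤ) * ∑ y : G, if x₁ * y = y * x₁ then W p ({x₁, y} : Set G) else 0 := by
    intro x₁
    rw [Finset.sum_comm]
    have h4 : ∀ a : G, ∑ x₂ : G, ∑ b : G, (if x₂ = a⁻¹ * x₁ * a then
        (if x₁ * (a * b) = (a * b) * x₁ then W p ({x₁, a * b} : Set G) else 0) else 0) =
        ∑ y : G, if x₁ * y = y * x₁ then W p ({x₁, y} : Set G) else 0 := by
      intro a
      rw [Finset.sum_comm]
      simp only [Finset.sum_ite_eq', Finset.mem_univ, if_true]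
      exact Fintype.sum_equiv (Equiv.mulLeft a) _ _ fun b => rfl
    simp_rw [h4]
    rw [Finset.sum_const, Finset.card_univ, nsmul_eq_mul, Nat.card_eq_fintype_card]
  simp_rw [h3]
  rw [← Finset.mul_sum]
  rfl

/-- the recursion for the wreath product -/
theorem kap_wr [hp : Fact p.Prime] (hp2 : p ≠ 2) :
    kap p (Wr G) = kap p G ^ 2 + 3 * ((Nat.card G : ℤ) * kap p G) := by
  have h1 : kap p (Wr G) =
      (∑ x₁ : G, ∑ x₂ : G, ∑ y₁ : G, ∑ y₂ : G,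
      (if (⟨x₁, x₂, false⟩ : Wr G) * ⟨y₁, y₂, false⟩ = ⟨y₁, y₂, false⟩ * ⟨x₁, x₂, false⟩ then
        W p ({⟨x₁, x₂, false⟩, ⟨y₁, y₂, false⟩} : Set (Wr G)) else 0) +
      ∑ x₁ : G, ∑ x₂ : G, ∑ a : G, ∑ b : G,
      (if (⟨x₁, x₂, false⟩ : Wr G) * ⟨a, b, true⟩ = ⟨a, b, true⟩ * ⟨x₁, x₂, false⟩ then
        W p ({⟨x₁, x₂, false⟩, ⟨a, b, true⟩} : Set (Wr G)) else 0)) +
      (∑ a : G, ∑ b : G, ∑ x₁ : G, ∑ x₂ : G,
      (if (⟨a, b, true⟩ : Wr G) * ⟨x₁, x₂, false⟩ = ⟨x₁, x₂, false⟩ * ⟨a, b, true⟩ then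
        W p ({⟨a, b, true⟩, ⟨x₁, x₂, false⟩} : Set (Wr G)) else 0) +
      ∑ a : G, ∑ b : G, ∑ c : G, ∑ d : G,
      (if (⟨a, b, true⟩ : Wr G) * ⟨c, d, true⟩ = ⟨c, d, true⟩ * ⟨a, b, true⟩ then
        W p ({⟨a, b, true⟩, ⟨c, d, true⟩} : Set (Wr G)) else 0)) := by
    unfold kap
    rw [Wr.sum_eq]
    simp_rw [Wr.sum_eq, Finset.sum_add_distrib]
  have h2 : (∑ a : G, ∑ b : G, ∑ x₁ : G, ∑ x₂ : G,
      (if (⟨a, b, true⟩ : Wr G) * ⟨x₁, x₂, false⟩ = ⟨x₁, x₂, false⟩ * ⟨a, b, true⟩ then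
        W p ({⟨a, b, true⟩, ⟨x₁, x₂, false⟩} : Set (Wr G)) else 0)) =
      ∑ x₁ : G, ∑ x₂ : G, ∑ a : G, ∑ b : G,
      (if (⟨x₁, x₂, false⟩ : Wr G) * ⟨a, b, true⟩ = ⟨a, b, true⟩ * ⟨x₁, x₂, false⟩ then
        W p ({⟨x₁, x₂, false⟩, ⟨a, b, true⟩} : Set (Wr G)) else 0) := by
    have e1 : ∀ F : G → G → G → G → ℤ, ∑ a : G, ∑ b : G, ∑ x : G, ∑ y : G, F a b x y =
        ∑ x : G, ∑ y : G, ∑ a : G, ∑ b : G, F a b x y := by
      intro F
      have e2 : ∀ a : G, ∑ b : G, ∑ x : G, ∑ y : G, F a b x y =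
          ∑ x : G, ∑ y : G, ∑ b : G, F a b x y := by
        intro a
        rw [Finset.sum_comm]
        exact Finset.sum_congr rfl fun x _ => Finset.sum_comm
      simp_rw [e2]
      rw [Finset.sum_comm]
      exact Finset.sum_congr rfl fun x _ => Finset.sum_comm
    rw [e1]
    refine Finset.sum_congr rfl fun x₁ _ => Finset.sum_congr rfl fun x₂ _ =>
      Finset.sum_congr rfl fun a _ => Finset.sum_congr rfl fun b _ => ?_
    rw [Set.pair_comm]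
    by_cases c : (⟨a, b, true⟩ : Wr G) * ⟨x₁, x₂, false⟩ = ⟨x₁, x₂, false⟩ * ⟨a, b, true⟩
    · rw [if_pos c, if_pos c.symm]
    · rw [if_neg c, if_neg (fun h => c h.symm)]
  have h3 : ∑ a : G, ∑ b : G, ∑ c : G, ∑ d : G,
      (if (⟨a, b, true⟩ : Wr G) * ⟨c, d, true⟩ = ⟨c, d, true⟩ * ⟨a, b, true⟩ then
        W p ({⟨a, b, true⟩, ⟨c, d, true⟩} : Set (Wr G)) else 0) =
      ∑ x₁ : G, ∑ x₂ : G, ∑ a : G, ∑ b : G,
      (if (⟨x₁, x₂, false⟩ : Wr G) * ⟨a, b, true⟩ = ⟨a, b, true⟩ * ⟨x₁, x₂, false⟩ then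
        W p ({⟨x₁, x₂, false⟩, ⟨a, b, true⟩} : Set (Wr G)) else 0) := by
    have e1 : ∀ F : G → G → G → G → ℤ, ∑ a : G, ∑ b : G, ∑ x : G, ∑ y : G, F a b x y =
        ∑ x : G, ∑ y : G, ∑ a : G, ∑ b : G, F a b x y := by
      intro F
      have e2 : ∀ a : G, ∑ b : G, ∑ x : G, ∑ y : G, F a b x y =
          ∑ x : G, ∑ y : G, ∑ b : G, F a b x y := by
        intro a
        rw [Finset.sum_comm]
        exact Finset.sum_congr rfl fun x _ => Finset.sum_comm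
      simp_rw [e2]
      rw [Finset.sum_comm]
      exact Finset.sum_congr rfl fun x _ => Finset.sum_comm
    rw [e1, e1 (fun x₁ x₂ a b =>
      if (⟨x₁, x₂, false⟩ : Wr G) * ⟨a, b, true⟩ = ⟨a, b, true⟩ * ⟨x₁, x₂, false⟩ then
        W p ({⟨x₁, x₂, false⟩, ⟨a, b, true⟩} : Set (Wr G)) else 0)]
    refine Finset.sum_congr rfl fun c _ => Finset.sum_congr rfl fun d _ => ?_
    refine Fintype.sum_equiv (Equiv.mulRight d) _ _ fun a => ?_
    refine Fintype.sum_equiv (Equiv.mulRight c) _ _ fun b => ?_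
    change _ = (if (⟨a * d, b * c, false⟩ : Wr G) * ⟨c, d, true⟩ =
      ⟨c, d, true⟩ * ⟨a * d, b * c, false⟩ then
        W p ({⟨a * d, b * c, false⟩, ⟨c, d, true⟩} : Set (Wr G)) else 0)
    have hXY : (⟨a * d, b * c, false⟩ : Wr G) = ⟨a, b, true⟩ * ⟨c, d, true⟩ := rfl
    rw [hXY]
    set X : Wr G := ⟨a, b, true⟩ with hX
    set Y : Wr G := ⟨c, d, true⟩ with hY
    have hiff : X * Y = Y * X ↔ X * Y * Y = Y * (X * Y) := by
      rw [← mul_assoc Y X Y, mul_left_inj]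
    have hW : W p ({X, Y} : Set (Wr G)) = W p ({X * Y, Y} : Set (Wr G)) := by
      apply W_congr
      intro P
      constructor
      · rintro h z (rfl | rfl)
        · rw [conjSub_mul, h Y (by simp), h X (by simp)]
        · exact h _ (by simp)
      · intro h z hz
        rcases hz with hz | hz
        · have h1 := h (X * Y) (by simp)
          rw [conjSub_mul, h Y (by simp)] at h1
          rw [hz]
          exact h1
        · exact h _ (Or.inr hz)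
    by_cases c : X * Y = Y * X
    · rw [if_pos c, if_pos (hiff.mp c), hW]
    · rw [if_neg c, if_neg (fun h => c (hiff.mpr h))]
  rw [h1, h2, h3, kap_base hp2, kap_swap hp2]
  ring

end wreath

end Pool.Agent.Q90.WR
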