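import Pool.Agent.Q90.WR.Deg
import Pool.Agent.Q90.WR.Nav

/-!
# Bijections with degrees congruent up to elements of 2-power order
-/

set_option autoImplicit false

open scoped BigOperators Classical

noncomputable section

namespace Pool.Agent.Q90.WR

open Pool.Agent.Helper884.IC

/-- `m` and `n` agree modulo `p` up to a factor of 2-power order. -/
def Close (p m n : ℕ) : Prop := ∃ a : ℕ, (m : ZMod p) ^ 2 ^ a = (n : ZMod p) ^ 2 ^ a

/-- The number of irreducible characters of `G` whose degree is close to `d`. -/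
def numClose (p d : ℕ) (G : Type) [Group G] : ℕ :=
  Nat.card {χ : G → ℂ // IsIrrChar χ ∧ ∃ n : ℕ, (n : ℂ) = χ 1 ∧ Close p n d}

/-- There is a bijection from the irreducible characters of `G` of degree prime to `p` onto those
of `H` that preserves degrees modulo `p` up to factors of 2-power order. -/
def CloseBijection (p : ℕ) (G H : Type) [Group G] [Group H] : Prop :=
  ∃ f : IrrPrime p G ≃ IrrPrime p H, ∀ (χ : IrrPrime p G) (m n : ℕ), (m : ℂ) = (χ : G → ℂ) 1 →
    (n : ℂ) = (f χ : H → ℂ) 1 → Close p m n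

variable {p : ℕ} [hp : Fact p.Prime]

/-- the exponent: the 2-part of `p - 1` -/
def ex (p : ℕ) : ℕ := 2 ^ (p - 1).factorization 2

theorem ex_spec : ∃ m, Odd m ∧ p - 1 = ex p * m := by
  have h0 : p - 1 ≠ 0 := by have := hp.out.two_le; omega
  refine ⟨(p - 1) / 2 ^ (p - 1).factorization 2, ?_, ?_⟩
  · rw [← Nat.not_even_iff_odd, even_iff_two_dvd]
    exact Nat.not_dvd_ordCompl Nat.prime_two h0
  · exact (Nat.ordProj_mul_ordCompl_eq_self (p - 1) 2).symm

omit hp in
theorem ex_pos : 0 < ex p := by unfold ex; positivity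

theorem neg_one_ne (hp2 : p ≠ 2) : (1 : ZMod p) ≠ -1 := by
  intro h
  have h1 : ((2 : ℕ) : ZMod p) = 0 := by
    push_cast
    linear_combination h
  rw [ZMod.natCast_eq_zero_iff] at h1
  exact hp2 ((Nat.prime_dvd_prime_iff_eq hp.out Nat.prime_two).mp h1)

/-- the negative of a nonzero `e`-th power is not an `e`-th power -/
theorem neg_pow_ne (hp2 : p ≠ 2) {u v : ZMod p} (hu : u ≠ 0) (h : v ^ ex p = -u ^ ex p) : False := by
  obtain ⟨m, hm, he⟩ := ex_spec (p := p)
  have hue : u ^ ex p ≠ 0 := pow_ne_zero _ hu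
  have hv : v ≠ 0 := by
    rintro rfl
    rw [zero_pow ex_pos.ne'] at h
    exact neg_ne_zero.mpr hue h.symm
  have h1 := congrArg (fun z => z ^ m) h
  simp only [hm.neg_pow, ← pow_mul, ← he] at h1
  rw [ZMod.pow_card_sub_one_eq_one hu, ZMod.pow_card_sub_one_eq_one hv] at h1
  exact neg_one_ne hp2 h1

theorem close_iff {m n : ℕ} (hn : (n : ZMod p) ≠ 0) :
    Close p m n ↔ (m : ZMod p) ^ ex p = (n : ZMod p) ^ ex p := by
  constructor
  · rintro ⟨a, ha⟩
    have h1 : ((m : ZMod p) / n) ^ 2 ^ a = 1 := by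
      rw [div_pow, ha, div_self (pow_ne_zero _ hn)]
    have hm0 : (m : ZMod p) / n ≠ 0 := by
      intro h
      rw [h, zero_pow (by positivity)] at h1
      exact zero_ne_one h1
    have h2 := ZMod.pow_card_sub_one_eq_one hm0
    obtain ⟨k, hk, he⟩ := ex_spec (p := p)
    have h3 : orderOf ((m : ZMod p) / n) ∣ ex p := by
      have d1 := orderOf_dvd_of_pow_eq_one h1
      have d2 := orderOf_dvd_of_pow_eq_one h2
      rw [he] at d2
      obtain ⟨r, -, hr⟩ := (Nat.dvd_prime_pow Nat.prime_two).mp d1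
      rw [hr] at d2 ⊢
      refine Nat.Coprime.dvd_of_dvd_mul_right ?_ d2
      exact Nat.Coprime.pow_left _ (Nat.coprime_two_left.mpr hk)
    have h4 : ((m : ZMod p) / n) ^ ex p = 1 := orderOf_dvd_iff_pow_eq_one.mp h3
    rw [div_pow, div_eq_one_iff_eq (pow_ne_zero _ hn)] at h4
    exact h4
  · exact fun h => ⟨_, h⟩

theorem numClose_eq {d : ℕ} (hd : ¬ p ∣ d) (G : Type) [Group G] :
    numClose p d G = numLab p (ex p) ((d : ZMod p) ^ ex p) G := by
  have hd' : (d : ZMod p) ≠ 0 := by rwa [Ne, ZMod.natCast_eq_zero_iff]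
  unfold numClose numLab
  refine Nat.card_congr (Equiv.subtypeEquivRight fun χ => ?_)
  refine and_congr_right fun hχ => ?_
  constructor
  · rintro ⟨n, hn, hc⟩
    rw [lab_eq hn]
    exact (close_iff hd').mp hc
  · intro h
    obtain ⟨V, _, _, _, ρ, hρ, rfl⟩ := hχ
    refine ⟨Module.finrank ℂ V, ?_, ?_⟩
    · exact (Representation.char_one ρ).symm
    · rw [lab_eq (Representation.char_one ρ).symm] at h
      exact (close_iff hd').mpr h

theorem numLab_supp {e : ℕ} {k : ZMod p} {G : Type} [Group G] (h : numLab p e k G ≠ 0) :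
    ∃ n : ℕ, k = (n : ZMod p) ^ e := by
  by_contra hcon
  push Not at hcon
  apply h
  unfold numLab
  have : IsEmpty {χ : G → ℂ // IsIrrChar χ ∧ lab p e χ = k} :=
    ⟨fun χ => hcon ⌊(χ.1 1).re⌋₊ χ.2.2.symm⟩
  exact Nat.card_of_isEmpty

theorem lab_pair (hp2 : p ≠ 2) (e : ℕ) (G : Type) [Group G] [Finite G] (P : Sylow p G) :
    ∃ Q : Sylow p (Wr G), ∀ k,
      numLab p e k (Subgroup.normalizer ((Q : Subgroup (Wr G)) : Set (Wr G))) =
        numLab p e k (Wr (Subgroup.normalizer ((P : Subgroup G) : Set G))) := by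
  have := Fintype.ofFinite G
  have := Fintype.ofFinite (Subgroup.normalizer ((P : Subgroup G) : Set G))
  obtain ⟨Q, hQ⟩ := exists_sylow hp2 P
  have e' : Nonempty (Subgroup.normalizer ((Q : Subgroup (Wr G)) : Set (Wr G)) ≃*
      Wr (Subgroup.normalizer ((P : Subgroup G) : Set G))) := by
    rw [hQ]
    exact ⟨normEquiv _⟩
  obtain ⟨e'⟩ := e'
  exact ⟨Q, fun k => numLab_congr e' p e k⟩

theorem two_ne (hp2 : p ≠ 2) : (2 : ZMod p) ≠ 0 := by
  intro h
  have h1 : ((2 : ℕ) : ZMod p) = 0 := by exact_mod_cast h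
  rw [ZMod.natCast_eq_zero_iff] at h1
  exact hp2 ((Nat.prime_dvd_prime_iff_eq hp.out Nat.prime_two).mp h1)

/-- the step for the numbers of characters with given label -/
theorem lab_dvd_step (hp2 : p ≠ 2) {a : ℕ} {G N : Type} [Group G] [Fintype G] [Group N] [Fintype N]
    (h : ∀ k : ZMod p, k ≠ 0 → (2 : ℤ) ^ (a + 1) ∣ (numLab p (ex p) k G : ℤ) - numLab p (ex p) k N)
    (hw : ∀ k : ZMod p, k ≠ 0 →
      (2 : ℤ) ^ (a + 1) ∣ (numLab p (ex p) k (Wr G) : ℤ) - numLab p (ex p) k (Wr N))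
    (k : ZMod p) (hk : k ≠ 0) :
    (2 : ℤ) ^ (a + 2) ∣ (numLab p (ex p) k G : ℤ) - numLab p (ex p) k N := by
  by_cases hz : (numLab p (ex p) k G : ℤ) - numLab p (ex p) k N = 0
  · rw [hz]
    exact dvd_zero _
  have hu : ∃ u : ℕ, k = (u : ZMod p) ^ ex p := by
    by_cases h1 : numLab p (ex p) k G = 0
    · have h2 : numLab p (ex p) k N ≠ 0 := by
        intro h2
        apply hz
        rw [h1, h2, sub_self]
      exact numLab_supp h2
    · exact numLab_supp h1
  obtain ⟨u, rfl⟩ := hu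
  have hu0 : (u : ZMod p) ≠ 0 := by
    intro h0
    rw [h0, zero_pow ex_pos.ne'] at hk
    exact hk rfl
  have ht : (2 ^ ex p : ZMod p) ≠ 0 := pow_ne_zero _ (two_ne hp2)
  set K : ZMod p := 2 ^ ex p * ((u : ZMod p) ^ ex p * (u : ZMod p) ^ ex p) with hK
  have hK0 : K ≠ 0 := mul_ne_zero ht (mul_ne_zero hk hk)
  have h3 := lab_step (a := a) ht hK0
    (c := fun i => (numLab p (ex p) i G : ℤ)) (c' := fun i => (numLab p (ex p) i N : ℤ))
    (w := fun i => (numLab p (ex p) i (Wr G) : ℤ)) (w' := fun i => (numLab p (ex p) i (Wr N) : ℤ))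
    (numLab_wr hp2 hK0) (numLab_wr hp2 hK0) h (hw K hK0)
  have h4 : ∑ i ∈ Finset.univ.filter (fun i : ZMod p => 2 ^ ex p * (i * i) = K),
      ((numLab p (ex p) i G : ℤ) - numLab p (ex p) i N) =
      (numLab p (ex p) ((u : ZMod p) ^ ex p) G : ℤ) - numLab p (ex p) ((u : ZMod p) ^ ex p) N := by
    apply Finset.sum_eq_single_of_mem
    · simp only [Finset.mem_filter, Finset.mem_univ, true_and, hK]
    · intro i hi hne
      simp only [Finset.mem_filter, Finset.mem_univ, true_and, hK] at hi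
      have h5 := mul_left_cancel₀ ht hi
      have h6 : i = -(u : ZMod p) ^ ex p := (mul_self_eq_mul_self_iff.mp h5).resolve_left hne
      have h7 : ∀ M : Type, ∀ _ : Group M, numLab p (ex p) i M = 0 := by
        intro M _
        by_contra hcon
        obtain ⟨v, hv⟩ := numLab_supp hcon
        exact neg_pow_ne hp2 hu0 (hv.symm.trans h6)
      rw [h7 G, h7 N, sub_self]
  rw [← h4]
  exact h3

theorem lab_dvd_levels (hp2 : p ≠ 2) : ∀ (a : ℕ) (G : Type) [Group G] [Finite G] (P : Sylow p G),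
    (∀ j ≤ a, ∀ k : ZMod p, k ≠ 0 → ∀ Q : Sylow p (WrN j G), numLab p (ex p) k (WrN j G) ≡
      numLab p (ex p) k (Subgroup.normalizer ((Q : Subgroup (WrN j G)) : Set (WrN j G))) [MOD 2]) →
    ∀ k : ZMod p, k ≠ 0 → (2 : ℤ) ^ (a + 1) ∣ (numLab p (ex p) k G : ℤ) -
      numLab p (ex p) k (Subgroup.normalizer ((P : Subgroup G) : Set G)) := by
  intro a
  induction a with
  | zero =>
    intro G _ _ P H k hk
    rw [zero_add, pow_one]
    exact Nat.modEq_iff_dvd.mp (H 0 le_rfl k hk P).symm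
  | succ a ih =>
    intro G _ _ P H
    have := Fintype.ofFinite G
    have := Fintype.ofFinite (Subgroup.normalizer ((P : Subgroup G) : Set G))
    obtain ⟨Q, hQ⟩ := lab_pair hp2 (ex p) G P
    have h3 := ih (Wr G) Q fun j hj k hk R => H (j + 1) (by omega) k hk R
    simp_rw [hQ] at h3
    exact lab_dvd_step hp2 (ih G P fun j hj k hk R => H j (by omega) k hk R) h3

theorem lab_eq_levels (hp2 : p ≠ 2) : ∀ (a : ℕ) (G : Type) [Group G] [Finite G] (P : Sylow p G),
    (∀ k : ZMod p, k ≠ 0 → numLab p (ex p) k G =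
      numLab p (ex p) k (Subgroup.normalizer ((P : Subgroup G) : Set G))) →
    ∀ Q : Sylow p (WrN a G), ∀ k : ZMod p, k ≠ 0 → numLab p (ex p) k (WrN a G) =
      numLab p (ex p) k (Subgroup.normalizer ((Q : Subgroup (WrN a G)) : Set (WrN a G))) := by
  intro a
  induction a with
  | zero =>
    intro G _ _ P H Q k hk
    obtain ⟨e⟩ := norm_equiv P Q
    exact (H k hk).trans (numLab_congr e p _ k)
  | succ a ih =>
    intro G _ _ P H Q k hk
    have := Fintype.ofFinite G
    have := Fintype.ofFinite (Subgroup.normalizer ((P : Subgroup G) : Set G))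
    obtain ⟨R, hR⟩ := lab_pair hp2 (ex p) G P
    refine ih (Wr G) R ?_ Q k hk
    intro k hk
    rw [hR]
    have h1 := numLab_wr (G := G) (e := ex p) hp2 hk
    have h2 := numLab_wr (G := Subgroup.normalizer ((P : Subgroup G) : Set G)) (e := ex p) hp2 hk
    have ht : (2 ^ ex p : ZMod p) ≠ 0 := pow_ne_zero _ (two_ne hp2)
    have e1 : ∀ i ∈ Finset.univ.filter (fun i : ZMod p => i ≠ 0), (numLab p (ex p) i G : ℤ) *
        numLab p (ex p) (k * (2 ^ ex p)⁻¹ * i⁻¹) G =
        (numLab p (ex p) i (Subgroup.normalizer ((P : Subgroup G) : Set G)) : ℤ) *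
        numLab p (ex p) (k * (2 ^ ex p)⁻¹ * i⁻¹)
          (Subgroup.normalizer ((P : Subgroup G) : Set G)) := by
      intro i hi
      simp only [Finset.mem_filter, Finset.mem_univ, true_and] at hi
      rw [H i hi, H _ (mul_ne_zero (mul_ne_zero hk (inv_ne_zero ht)) (inv_ne_zero hi))]
    have e2 : ∀ r : ZMod p → Prop, [DecidablePred r] → ¬ r 0 →
        ∑ i ∈ Finset.univ.filter r, (numLab p (ex p) i G : ℤ) =
        ∑ i ∈ Finset.univ.filter r,
          (numLab p (ex p) i (Subgroup.normalizer ((P : Subgroup G) : Set G)) : ℤ) := by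
      intro r _ hr
      refine Finset.sum_congr rfl fun i hi => ?_
      rw [H i]
      rintro rfl
      exact hr (Finset.mem_filter.mp hi).2
    rw [Finset.sum_congr rfl e1,
      e2 (fun i => 2 ^ ex p * (i * i) = k) (by simpa using hk.symm),
      e2 (fun i => i ^ 2 = k) (by simpa using hk.symm), ← h2] at h1
    have h3 : (numLab p (ex p) k (Wr G) : ℤ) =
        numLab p (ex p) k (Wr (Subgroup.normalizer ((P : Subgroup G) : Set G))) := by linarith
    exact_mod_cast h3

theorem lab_criterion (hp2 : p ≠ 2) (G : Type) [Group G] [Finite G] (P : Sylow p G)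
    (H : ∀ j, 2 ^ j ≤ Nat.card G → ∀ k : ZMod p, k ≠ 0 → ∀ Q : Sylow p (WrN j G),
      numLab p (ex p) k (WrN j G) ≡
      numLab p (ex p) k (Subgroup.normalizer ((Q : Subgroup (WrN j G)) : Set (WrN j G))) [MOD 2])
    (k : ZMod p) (hk : k ≠ 0) :
    numLab p (ex p) k G = numLab p (ex p) k (Subgroup.normalizer ((P : Subgroup G) : Set G)) := by
  have hG : 0 < Nat.card G := Nat.card_pos
  set a := Nat.log 2 (Nat.card G) with ha
  have h3 : ∀ j ≤ a, 2 ^ j ≤ Nat.card G := fun j hj =>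
    (Nat.pow_le_pow_right (by norm_num) hj).trans (Nat.pow_log_le_self 2 hG.ne')
  have h4 := lab_dvd_levels hp2 a G P (fun j hj => H j (h3 j hj)) k hk
  have h5 : Nat.card G < 2 ^ (a + 1) := Nat.lt_pow_succ_log_self (by norm_num) _
  have h6 := numLab_le p (ex p) k G
  have h7 := (numLab_le p (ex p) k (Subgroup.normalizer ((P : Subgroup G) : Set G))).trans
    (Subgroup.card_le_card_group _)
  have h8 : |(numLab p (ex p) k G : ℤ) -
      numLab p (ex p) k (Subgroup.normalizer ((P : Subgroup G) : Set G))| < 2 ^ (a + 1) := by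
    have h9 : (Nat.card G : ℤ) < 2 ^ (a + 1) := by exact_mod_cast h5
    rw [abs_lt]
    constructor <;> omega
  have h9 := Int.eq_zero_of_abs_lt_dvd h4 h8
  omega

omit hp in
theorem lab_prime {G : Type} [Group G] {χ : G → ℂ} (h : PrimeDeg p χ) [Fact p.Prime] (e : ℕ) :
    lab p e χ ≠ 0 := by
  obtain ⟨n, hn, hpn⟩ := h
  rw [lab_eq hn]
  apply pow_ne_zero
  rwa [Ne, ZMod.natCast_eq_zero_iff]

/-- the fibres of the label on the characters of degree prime to `p` -/
def fibre (e : ℕ) (G : Type) [Group G] (k : ZMod p) (hk : k ≠ 0) (he : e ≠ 0) :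
    {χ : IrrPrime p G // lab p e (χ : G → ℂ) = k} ≃ {χ : G → ℂ // IsIrrChar χ ∧ lab p e χ = k} where
  toFun χ := ⟨χ.1.1, χ.1.2.1, χ.2⟩
  invFun χ := ⟨⟨χ.1, χ.2.1, by
    obtain ⟨h1, h2⟩ := χ.2
    obtain ⟨V, _, _, _, ρ, hρ, h3⟩ := h1
    refine ⟨Module.finrank ℂ V, ?_, ?_⟩
    · rw [h3]
      exact (Representation.char_one ρ).symm
    · intro h4
      rw [h3, lab_eq (Representation.char_one ρ).symm, (ZMod.natCast_eq_zero_iff _ _).mpr h4,
        zero_pow he] at h2
      exact hk h2.symm⟩, χ.2.2⟩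
  left_inv χ := rfl
  right_inv χ := rfl

theorem close_bij_iff (G H : Type) [Group G] [Finite G] [Group H] [Finite H] :
    CloseBijection p G H ↔
      ∀ k : ZMod p, k ≠ 0 → numLab p (ex p) k G = numLab p (ex p) k H := by
  have hc : ∀ (χ : IrrPrime p G) (ψ : IrrPrime p H),
      (∀ m n : ℕ, (m : ℂ) = (χ : G → ℂ) 1 → (n : ℂ) = (ψ : H → ℂ) 1 → Close p m n) ↔
      lab p (ex p) (ψ : H → ℂ) = lab p (ex p) (χ : G → ℂ) := by
    rintro ⟨χ, h1, m, hm, hpm⟩ ⟨ψ, h2, n, hn, hpn⟩
    rw [lab_eq hm, lab_eq hn]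
    have hn0 : (n : ZMod p) ≠ 0 := by rwa [Ne, ZMod.natCast_eq_zero_iff]
    constructor
    · intro h
      exact ((close_iff hn0).mp (h m n hm hn)).symm
    · intro h m' n' hm' hn'
      have e1 : m' = m := by exact_mod_cast hm'.trans hm.symm
      have e2 : n' = n := by exact_mod_cast hn'.trans hn.symm
      subst e1 e2
      exact (close_iff hn0).mpr h.symm
  constructor
  · rintro ⟨f, hf⟩ k hk
    unfold numLab
    rw [← Nat.card_congr (fibre (ex p) G k hk ex_pos.ne'),
      ← Nat.card_congr (fibre (ex p) H k hk ex_pos.ne')]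
    refine Nat.card_congr (Equiv.subtypeEquiv f fun χ => ?_)
    rw [(hc χ (f χ)).mp (hf χ)]
  · intro h
    have e : ∀ k : ZMod p, Nonempty ({χ : IrrPrime p G // lab p (ex p) (χ : G → ℂ) = k} ≃
        {χ : IrrPrime p H // lab p (ex p) (χ : H → ℂ) = k}) := by
      intro k
      by_cases hk : k = 0
      · subst hk
        have i1 : IsEmpty {χ : IrrPrime p G // lab p (ex p) (χ : G → ℂ) = 0} :=
          ⟨fun χ => lab_prime χ.1.2.2 _ χ.2⟩
        have i2 : IsEmpty {χ : IrrPrime p H // lab p (ex p) (χ : H → ℂ) = 0} :=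
          ⟨fun χ => lab_prime χ.1.2.2 _ χ.2⟩
        exact ⟨Equiv.equivOfIsEmpty _ _⟩
      · have fin : ∀ (K : Type) [Group K] [Finite K],
            Finite {χ : K → ℂ // IsIrrChar χ ∧ lab p (ex p) χ = k} := by
          intro K _ _
          have := Fintype.ofFinite K
          have : Finite {χ : K → ℂ // χ ∈ Irr K} := inferInstance
          exact Finite.of_injective
            (fun χ : {χ : K → ℂ // IsIrrChar χ ∧ lab p (ex p) χ = k} =>
              (⟨χ.1, mem_Irr.mpr χ.2.1⟩ : {χ : K → ℂ // χ ∈ Irr K}))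
            (fun a b hab => Subtype.ext (congrArg (fun z : {χ : K → ℂ // χ ∈ Irr K} => z.1) hab))
        have := fin G
        have := fin H
        obtain ⟨e0⟩ := (Finite.card_eq.mp (h k hk))
        exact ⟨((fibre (ex p) G k hk ex_pos.ne').trans e0).trans
          (fibre (ex p) H k hk ex_pos.ne').symm⟩
    have e := fun k => Classical.choice (e k)
    refine ⟨Equiv.ofFiberEquiv (f := fun χ : IrrPrime p G => lab p (ex p) (χ : G → ℂ))
      (g := fun χ : IrrPrime p H => lab p (ex p) (χ : H → ℂ)) e, fun χ => ?_⟩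
    rw [hc]
    exact Equiv.ofFiberEquiv_map e χ

theorem exists_nat {k : ZMod p} (hk : k ≠ 0) : ∃ d : ℕ, ¬ p ∣ d ∧ (d : ZMod p) = k :=
  ⟨k.val, fun h => hk (by rw [← ZMod.natCast_zmod_val k, (ZMod.natCast_eq_zero_iff _ _).mpr h]),
    ZMod.natCast_zmod_val k⟩

theorem lab_mod_of_close {G H : Type} [Group G] [Group H]
    (h : ∀ d : ℕ, ¬ p ∣ d → numClose p d G ≡ numClose p d H [MOD 2]) (k : ZMod p) (hk : k ≠ 0) :
    numLab p (ex p) k G ≡ numLab p (ex p) k H [MOD 2] := by
  by_cases h1 : ∃ n : ℕ, k = (n : ZMod p) ^ ex p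
  · obtain ⟨n, rfl⟩ := h1
    have hn : ¬ p ∣ n := by
      intro h2
      rw [(ZMod.natCast_eq_zero_iff _ _).mpr h2, zero_pow ex_pos.ne'] at hk
      exact hk rfl
    rw [← numClose_eq hn, ← numClose_eq hn]
    exact h n hn
  · have h2 : ∀ M : Type, ∀ _ : Group M, numLab p (ex p) k M = 0 := by
      intro M _
      by_contra hcon
      exact h1 (numLab_supp hcon)
    rw [h2 G, h2 H]

/-- the criterion for one group -/
theorem close_one (hp2 : p ≠ 2) (G : Type) [Group G] [Finite G] (P : Sylow p G) :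
    CloseBijection p G (Subgroup.normalizer ((P : Subgroup G) : Set G)) ↔
      ∀ j d : ℕ, 2 ^ j ≤ Nat.card G → ¬ p ∣ d → ∀ Q : Sylow p (WrN j G),
        numClose p d (WrN j G) ≡
          numClose p d (Subgroup.normalizer ((Q : Subgroup (WrN j G)) : Set (WrN j G)))
          [MOD 2] := by
  rw [close_bij_iff]
  constructor
  · intro h j d _ hd Q
    rw [numClose_eq hd, numClose_eq hd]
    have hd' : (d : ZMod p) ≠ 0 := by rwa [Ne, ZMod.natCast_eq_zero_iff]
    rw [lab_eq_levels hp2 j G P h Q _ (pow_ne_zero _ hd')]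
  · intro h
    exact lab_criterion hp2 G P fun j hj k hk Q =>
      lab_mod_of_close (fun d hd => h j d hj hd Q) k hk

theorem close_all (hp2 : p ≠ 2) :
    (∀ (G : Type) [Group G] [Finite G] (P : Sylow p G),
      CloseBijection p G (Subgroup.normalizer ((P : Subgroup G) : Set G))) ↔
    (∀ (G : Type) [Group G] [Finite G] (P : Sylow p G) (d : ℕ), ¬ p ∣ d →
      numClose p d G ≡
        numClose p d (Subgroup.normalizer ((P : Subgroup G) : Set G)) [MOD 2]) := by
  constructor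
  · intro H G _ _ P d hd
    have hd' : (d : ZMod p) ≠ 0 := by rwa [Ne, ZMod.natCast_eq_zero_iff]
    rw [numClose_eq hd, numClose_eq hd, (close_bij_iff _ _).mp (H G P) _ (pow_ne_zero _ hd')]
  · intro H G _ _ P
    rw [close_one hp2 G P]
    intro j d _ hd Q
    exact H (WrN j G) Q d hd

/-- for `p` congruent to 3 modulo 4 -/
theorem close_three (h3 : p % 4 = 3) {m n : ℕ} (hn : ¬ p ∣ n) :
    Close p m n ↔ (m : ℤ) ≡ n [ZMOD p] ∨ (m : ℤ) ≡ -n [ZMOD p] := by
  have hn0 : (n : ZMod p) ≠ 0 := by rwa [Ne, ZMod.natCast_eq_zero_iff]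
  have hex : ex p = 2 := by
    obtain ⟨m, hm, he⟩ := ex_spec (p := p)
    have h5 : ex p = 2 ^ (p - 1).factorization 2 := rfl
    obtain ⟨r, hr⟩ : ∃ r, (p - 1).factorization 2 = r := ⟨_, rfl⟩
    rw [hr] at h5
    rcases r with _ | _ | r
    · rw [h5] at he
      obtain ⟨k, rfl⟩ := hm
      omega
    · exact h5
    · exfalso
      rw [h5] at he
      have : p - 1 = 4 * (2 ^ r * m) := by rw [he]; ring
      omega
  rw [close_iff hn0, hex, sq_eq_sq_iff_eq_or_eq_neg, ← ZMod.intCast_eq_intCast_iff,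
    ← ZMod.intCast_eq_intCast_iff]
  push_cast
  rfl

end Pool.Agent.Q90.WR
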