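import Pool.Agent.Q90.WR.Cls

/-!
# Subgroups `P × P` of the wreath product, their normalizers
-/

set_option autoImplicit false

open scoped BigOperators Classical

noncomputable section

namespace Pool.Agent.Q90.WR

variable {G : Type} [Group G]

/-- the subgroup `P × P` of the base -/
def dbl (P : Subgroup G) : Subgroup (Wr G) where
  carrier := {x | x.s = false ∧ x.a ∈ P ∧ x.b ∈ P}
  one_mem' := ⟨rfl, P.one_mem, P.one_mem⟩
  mul_mem' := by
    rintro ⟨a, b, s⟩ ⟨a', b', s'⟩ ⟨h1, h2, h3⟩ ⟨h4, h5, h6⟩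
    simp only at h1 h2 h3 h4 h5 h6
    subst h1 h4
    exact ⟨rfl, P.mul_mem h2 h5, P.mul_mem h3 h6⟩
  inv_mem' := by
    rintro ⟨a, b, s⟩ ⟨h1, h2, h3⟩
    simp only at h1 h2 h3
    subst h1
    exact ⟨rfl, P.inv_mem h2, P.inv_mem h3⟩

theorem mem_dbl {P : Subgroup G} {x : Wr G} :
    x ∈ dbl P ↔ x.s = false ∧ x.a ∈ P ∧ x.b ∈ P := Iff.rfl

/-- `P × P` as a set -/
def dblEquiv (P : Subgroup G) : dbl P ≃ P × P where
  toFun x := (⟨x.1.a, x.2.2.1⟩, ⟨x.1.b, x.2.2.2⟩)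
  invFun y := ⟨⟨y.1, y.2, false⟩, rfl, y.1.2, y.2.2⟩
  left_inv := by
    rintro ⟨⟨a, b, s⟩, h1, h2, h3⟩
    simp only at h1
    subst h1
    rfl
  right_inv _ := rfl

theorem card_dbl (P : Subgroup G) : Nat.card (dbl P) = Nat.card P ^ 2 := by
  rw [Nat.card_congr (dblEquiv P), Nat.card_prod, pow_two]

theorem index_dbl [Finite G] (P : Subgroup G) : (dbl P).index = 2 * P.index ^ 2 := by
  have h1 := (dbl P).card_mul_index
  have h2 := P.card_mul_index
  rw [card_dbl, Wr.card, ← h2] at h1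
  have h3 : 0 < Nat.card P ^ 2 := pow_pos Nat.card_pos _
  apply Nat.eq_of_mul_eq_mul_left h3
  rw [h1]
  ring

theorem isPGroup_dbl {p : ℕ} {P : Subgroup G} (h : IsPGroup p P) : IsPGroup p (dbl P) := by
  rintro ⟨x, h1, h2, h3⟩
  obtain ⟨a, b, s⟩ := x
  simp only at h1 h2 h3
  subst h1
  obtain ⟨m, hm⟩ := h ⟨a, h2⟩
  obtain ⟨n, hn⟩ := h ⟨b, h3⟩
  refine ⟨m + n, ?_⟩
  have hpow : ∀ k : ℕ, (⟨a, b, false⟩ : Wr G) ^ k = ⟨a ^ k, b ^ k, false⟩ := by
    intro k
    induction k with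
    | zero => simp [Wr.one_def]
    | succ k ih => rw [pow_succ, ih, Wr.mk_false_mul, pow_succ, pow_succ]
  apply Subtype.ext
  have ha : a ^ p ^ m = 1 := congrArg Subtype.val hm
  have hb : b ^ p ^ n = 1 := congrArg Subtype.val hn
  change (⟨a, b, false⟩ : Wr G) ^ p ^ (m + n) = 1
  rw [hpow, pow_add, pow_mul, ha, one_pow, mul_comm, pow_mul, hb, one_pow]
  rfl

theorem conj_dbl {P : Subgroup G} (x : Wr G) (a b : G) :
    x * ⟨a, b, false⟩ * x⁻¹ ∈ dbl P ↔
      (x.s = false ∧ x.a * a * x.a⁻¹ ∈ P ∧ x.b * b * x.b⁻¹ ∈ P) ∨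
        (x.s = true ∧ x.a * b * x.a⁻¹ ∈ P ∧ x.b * a * x.b⁻¹ ∈ P) := by
  obtain ⟨c, d, s⟩ := x
  cases s
  · simp [mem_dbl, Wr.mk_false_mul, Wr.inv_false]
  · simp [mem_dbl, Wr.mk_true_mul, Wr.inv_true]

theorem mem_normalizer {P : Subgroup G} {x : G} :
    x ∈ Subgroup.normalizer (P : Set G) ↔ ∀ h, h ∈ P ↔ x * h * x⁻¹ ∈ P := Iff.rfl

theorem mem_normalizer_dbl {P : Subgroup G} {x : Wr G} :
    x ∈ Subgroup.normalizer (dbl P : Set (Wr G)) ↔
      x.a ∈ Subgroup.normalizer (P : Set G) ∧ x.b ∈ Subgroup.normalizer (P : Set G) := by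
  obtain ⟨c, d, s⟩ := x
  rw [mem_normalizer, mem_normalizer, mem_normalizer]
  constructor
  · intro h
    cases s
    · constructor
      · intro g
        have h1 := h ⟨g, 1, false⟩
        rw [conj_dbl] at h1
        simpa [mem_dbl] using h1
      · intro g
        have h1 := h ⟨1, g, false⟩
        rw [conj_dbl] at h1
        simpa [mem_dbl] using h1
    · constructor
      · intro g
        have h1 := h ⟨1, g, false⟩
        rw [conj_dbl] at h1
        simpa [mem_dbl] using h1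
      · intro g
        have h1 := h ⟨g, 1, false⟩
        rw [conj_dbl] at h1
        simpa [mem_dbl] using h1
  · rintro ⟨h1, h2⟩ ⟨a, b, t⟩
    cases t
    · rw [conj_dbl]
      cases s
      · simp only [mem_dbl, true_and, h1 a, h2 b, reduceCtorEq, false_and, or_false]
      · simp only [mem_dbl, true_and, reduceCtorEq, false_and, false_or]
        rw [← h1 b, ← h2 a, and_comm]
    · cases s <;> simp [mem_dbl, Wr.mk_false_mul, Wr.mk_true_mul, Wr.inv_false, Wr.inv_true]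

/-- the normalizer of `P × P` is the wreath product of the normalizer of `P` -/
def normEquiv (P : Subgroup G) : Subgroup.normalizer (dbl P : Set (Wr G)) ≃*
    Wr (Subgroup.normalizer (P : Set G)) where
  toFun x := ⟨⟨x.1.a, (mem_normalizer_dbl.mp x.2).1⟩, ⟨x.1.b, (mem_normalizer_dbl.mp x.2).2⟩, x.1.s⟩
  invFun y := ⟨⟨y.a, y.b, y.s⟩, mem_normalizer_dbl.mpr ⟨y.a.2, y.b.2⟩⟩
  left_inv _ := rfl
  right_inv _ := rfl
  map_mul' := by
    rintro ⟨⟨a, b, s⟩, h⟩ ⟨⟨a', b', s'⟩, h'⟩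
    cases s <;> rfl

/-- the Sylow subgroup `P × P`, for odd `p` -/
theorem exists_sylow {p : ℕ} [hp : Fact p.Prime] (hodd : p ≠ 2) [Finite G] (P : Sylow p G) :
    ∃ Q : Sylow p (Wr G), (Q : Subgroup (Wr G)) = dbl (P : Subgroup G) := by
  refine ⟨(isPGroup_dbl P.isPGroup').toSylow ?_, rfl⟩
  rw [index_dbl]
  intro h
  rcases (Nat.Prime.dvd_mul hp.out).mp h with h | h
  · exact hodd ((Nat.prime_dvd_prime_iff_eq hp.out Nat.prime_two).mp h)
  · exact P.not_dvd_index (hp.out.dvd_of_dvd_pow h)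

end Pool.Agent.Q90.WR
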