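import Mathlib

/-!
# Coweightings of finite posets and alternating sums over chains
-/

set_option autoImplicit false

open scoped BigOperators Classical

noncomputable section

namespace Pool.Agent.Q90.WR

variable {α : Type} [PartialOrder α]

/-- the alternating sum over the chains contained in `A` (the empty chain included) -/
def cs (A : Finset α) : ℤ :=
  ∑ σ ∈ A.powerset.filter (fun σ : Finset α => IsChain (· ≤ ·) (σ : Set α)), (-1) ^ σ.card

theorem exists_min {σ : Finset α} (hσ : IsChain (· ≤ ·) (σ : Set α)) (hne : σ.Nonempty) :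
    ∃ Q ∈ σ, ∀ R ∈ σ, Q ≤ R := by
  obtain ⟨Q, hQ⟩ := σ.exists_minimal hne
  refine ⟨Q, hQ.1, fun R hR => ?_⟩
  rcases hσ.total hQ.1 hR with h | h
  · exact h
  · exact hQ.2 hR h

/-- the recursion by the smallest member of the chain -/
theorem cs_eq (A : Finset α) : cs A = 1 - ∑ Q ∈ A, cs (A.filter (Q < ·)) := by
  have h1 : cs A = 1 + ∑ σ ∈ A.powerset.filter
      (fun σ : Finset α => IsChain (· ≤ ·) (σ : Set α) ∧ σ.Nonempty), (-1) ^ σ.card := by
    unfold cs
    have e : A.powerset.filter (fun σ : Finset α => IsChain (· ≤ ·) (σ : Set α)) =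
        insert ∅ (A.powerset.filter (fun σ : Finset α => IsChain (· ≤ ·) (σ : Set α) ∧ σ.Nonempty)) := by
      ext σ
      simp only [Finset.mem_filter, Finset.mem_powerset, Finset.mem_insert]
      constructor
      · rintro ⟨h1, h2⟩
        rcases σ.eq_empty_or_nonempty with h3 | h3
        · exact Or.inl h3
        · exact Or.inr ⟨h1, h2, h3⟩
      · rintro (rfl | ⟨h1, h2, -⟩)
        · exact ⟨Finset.empty_subset _, by simp⟩
        · exact ⟨h1, h2⟩
    rw [e, Finset.sum_insert (by simp)]
    simp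
  have h2 : ∀ σ ∈ A.powerset.filter (fun σ : Finset α => IsChain (· ≤ ·) (σ : Set α) ∧ σ.Nonempty),
      (-1 : ℤ) ^ σ.card = ∑ Q ∈ A, if Q ∈ σ ∧ ∀ R ∈ σ, Q ≤ R then (-1 : ℤ) ^ σ.card else 0 := by
    intro σ hσ
    simp only [Finset.mem_filter, Finset.mem_powerset] at hσ
    obtain ⟨hA, hc, hne⟩ := hσ
    obtain ⟨Q, hQ, hmin⟩ := exists_min hc hne
    rw [Finset.sum_eq_single_of_mem Q (hA hQ), if_pos ⟨hQ, hmin⟩]
    intro R _ hne'
    rw [if_neg]
    rintro ⟨hR, hR'⟩
    exact hne' (le_antisymm (hR' Q hQ) (hmin R hR))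
  rw [h1, Finset.sum_congr rfl h2, Finset.sum_comm, sub_eq_add_neg, ← Finset.sum_neg_distrib]
  congr 1
  refine Finset.sum_congr rfl fun Q hQ => ?_
  rw [← Finset.sum_filter]
  unfold cs
  rw [← Finset.sum_neg_distrib]
  refine Finset.sum_bij' (fun σ _ => σ.erase Q) (fun τ _ => insert Q τ) ?_ ?_ ?_ ?_ ?_
  · intro σ hσ
    simp only [Finset.mem_filter, Finset.mem_powerset] at hσ ⊢
    obtain ⟨⟨hA, hc, hne⟩, hQσ, hmin⟩ := hσ
    refine ⟨?_, hc.mono (by simpa using Finset.erase_subset Q σ)⟩
    intro R hR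
    rw [Finset.mem_erase] at hR
    rw [Finset.mem_filter]
    exact ⟨hA hR.2, lt_of_le_of_ne (hmin R hR.2) (Ne.symm hR.1)⟩
  · intro τ hτ
    simp only [Finset.mem_filter, Finset.mem_powerset] at hτ ⊢
    obtain ⟨hA, hc⟩ := hτ
    have hlt : ∀ R ∈ τ, Q < R := fun R hR => (Finset.mem_filter.mp (hA hR)).2
    refine ⟨⟨?_, ?_, Finset.insert_nonempty _ _⟩, Finset.mem_insert_self _ _, ?_⟩
    · intro R hR
      rcases Finset.mem_insert.mp hR with rfl | hR
      · exact hQ
      · exact (Finset.mem_filter.mp (hA hR)).1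
    · rw [Finset.coe_insert]
      exact hc.insert fun R hR _ => Or.inl (hlt R (by simpa using hR)).le
    · intro R hR
      rcases Finset.mem_insert.mp hR with rfl | hR
      · exact le_rfl
      · exact (hlt R hR).le
  · intro σ hσ
    simp only [Finset.mem_filter, Finset.mem_powerset] at hσ
    exact Finset.insert_erase hσ.2.1
  · intro τ hτ
    simp only [Finset.mem_filter, Finset.mem_powerset] at hτ
    refine Finset.erase_insert fun h => ?_
    exact lt_irrefl Q (Finset.mem_filter.mp (hτ.1 h)).2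
  · intro σ hσ
    simp only [Finset.mem_filter, Finset.mem_powerset] at hσ
    have h3 := Finset.card_erase_add_one hσ.2.1
    rw [← h3, pow_succ]
    ring

/-- a coweighting of `S` is given by alternating sums over chains -/
theorem weight_eq {S : Finset α} {f : α → ℤ}
    (hf : ∀ P ∈ S, ∑ Q ∈ S.filter (P ≤ ·), f Q = 1) :
    ∀ P ∈ S, f P = cs (S.filter (P < ·)) := by
  have key : ∀ n : ℕ, ∀ P ∈ S, (S.filter (P < ·)).card = n → f P = cs (S.filter (P < ·)) := by
    intro n
    induction n using Nat.strong_induction_on with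
    | _ n ih =>
      intro P hP hn
      have h1 := hf P hP
      have e : S.filter (P ≤ ·) = insert P (S.filter (P < ·)) := by
        ext Q
        simp only [Finset.mem_filter, Finset.mem_insert]
        constructor
        · rintro ⟨h2, h3⟩
          rcases h3.eq_or_lt with h4 | h4
          · exact Or.inl h4.symm
          · exact Or.inr ⟨h2, h4⟩
        · rintro (rfl | ⟨h2, h3⟩)
          · exact ⟨hP, le_rfl⟩
          · exact ⟨h2, h3.le⟩
      rw [e, Finset.sum_insert (by simp)] at h1
      rw [cs_eq]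
      have h2 : ∑ Q ∈ S.filter (P < ·), f Q =
          ∑ Q ∈ S.filter (P < ·), cs ((S.filter (P < ·)).filter (Q < ·)) := by
        refine Finset.sum_congr rfl fun Q hQ => ?_
        obtain ⟨hQS, hPQ⟩ := Finset.mem_filter.mp hQ
        have e2 : (S.filter (P < ·)).filter (Q < ·) = S.filter (Q < ·) := by
          ext R
          simp only [Finset.mem_filter]
          constructor
          · rintro ⟨⟨a, _⟩, c⟩
            exact ⟨a, c⟩
          · rintro ⟨a, c⟩
            exact ⟨⟨a, hPQ.trans c⟩, c⟩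
        rw [e2]
        refine ih _ ?_ Q hQS rfl
        rw [← hn]
        apply Finset.card_lt_card
        rw [Finset.ssubset_iff_of_subset]
        · exact ⟨Q, hQ, by simp⟩
        · intro R hR
          rw [Finset.mem_filter] at hR ⊢
          exact ⟨hR.1, hPQ.trans hR.2⟩
      rw [← h2]
      linarith
  exact fun P hP => key _ P hP rfl

/-- the coweighting exists -/
theorem weight_exists (S : Finset α) :
    ∀ P ∈ S, ∑ Q ∈ S.filter (P ≤ ·), cs (S.filter (Q < ·)) = 1 := by
  intro P hP
  have e : S.filter (P ≤ ·) = insert P (S.filter (P < ·)) := by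
    ext Q
    simp only [Finset.mem_filter, Finset.mem_insert]
    constructor
    · rintro ⟨h2, h3⟩
      rcases h3.eq_or_lt with h4 | h4
      · exact Or.inl h4.symm
      · exact Or.inr ⟨h2, h4⟩
    · rintro (rfl | ⟨h2, h3⟩)
      · exact ⟨hP, le_rfl⟩
      · exact ⟨h2, h3.le⟩
  rw [e, Finset.sum_insert (by simp), cs_eq (S.filter (P < ·))]
  have h2 : ∑ Q ∈ S.filter (P < ·), cs ((S.filter (P < ·)).filter (Q < ·)) =
      ∑ Q ∈ S.filter (P < ·), cs (S.filter (Q < ·)) := by
    refine Finset.sum_congr rfl fun Q hQ => ?_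
    obtain ⟨hQS, hPQ⟩ := Finset.mem_filter.mp hQ
    congr 1
    ext R
    simp only [Finset.mem_filter]
    constructor
    · rintro ⟨⟨a, _⟩, c⟩
      exact ⟨a, c⟩
    · rintro ⟨a, c⟩
      exact ⟨⟨a, hPQ.trans c⟩, c⟩
  rw [h2]
  ring

end Pool.Agent.Q90.WR
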