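import Pool.Agent.Q90.WR.Grp
import Pool.Agent.Helper884.IC.Compl

/-!
# Characters of the wreath product `G ≀ C₂`: integrality and norms
-/

set_option autoImplicit false

open scoped BigOperators Classical TensorProduct

noncomputable section

namespace Pool.Agent.Q90.WR

open Pool.Agent.Helper884.IC Representation

section swap

variable {V : Type} [AddCommGroup V] [Module ℂ V] [FiniteDimensional ℂ V]

/-- the swap of `V ⊗ V` -/
def sw (V : Type) [AddCommGroup V] [Module ℂ V] : V ⊗[ℂ] V →ₗ[ℂ] V ⊗[ℂ] V :=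
  (TensorProduct.comm ℂ V V).toLinearMap

theorem sw_map (f g : V →ₗ[ℂ] V) :
    sw V ∘ₗ TensorProduct.map f g = TensorProduct.map g f ∘ₗ sw V := by
  refine TensorProduct.ext' fun x y => ?_
  simp [sw]

theorem sw_sw : sw V ∘ₗ sw V = LinearMap.id := by
  refine TensorProduct.ext' fun x y => ?_
  simp [sw]

theorem trace_swap (f g : V →ₗ[ℂ] V) :
    LinearMap.trace ℂ (V ⊗[ℂ] V) (TensorProduct.map f g ∘ₗ sw V) =
      LinearMap.trace ℂ V (f ∘ₗ g) := by
  let b := Module.finBasis ℂ V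
  rw [LinearMap.trace_eq_matrix_trace ℂ (b.tensorProduct b), LinearMap.trace_eq_matrix_trace ℂ b,
    LinearMap.toMatrix_comp b b b, Matrix.trace, Matrix.trace, Fintype.sum_prod_type]
  refine Finset.sum_congr rfl fun i _ => ?_
  rw [Matrix.diag_apply, Matrix.mul_apply]
  refine Finset.sum_congr rfl fun j _ => ?_
  rw [Matrix.diag_apply, LinearMap.toMatrix_apply, LinearMap.toMatrix_apply,
    LinearMap.toMatrix_apply, Module.Basis.tensorProduct_apply]
  simp [sw, mul_comm]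

end swap

variable {G : Type} [Group G] [Fintype G]

theorem irr_nontrivial {V : Type} [AddCommGroup V] [Module ℂ V] [FiniteDimensional ℂ V]
    (rho : Representation ℂ G V) (hirr : rho.IsIrreducible) : Nontrivial V := by
  by_contra hn
  rw [not_nontrivial_iff_subsingleton] at hn
  have : Subsingleton (Subrepresentation rho) := by
    constructor
    intro a b
    ext x
    have : x = 0 := Subsingleton.elim _ _
    subst this
    simp
  have h5 := hirr.toNontrivial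
  exact not_subsingleton (Subrepresentation rho) this

/-- degrees -/
theorem deg_pos {χ : G → ℂ} (h : IsIrrChar χ) : ∃ n : ℕ, 0 < n ∧ χ 1 = n := by
  obtain ⟨V, _, _, _, ρ, hr, rfl⟩ := h
  haveI := irr_nontrivial ρ hr
  exact ⟨Module.finrank ℂ V, Module.finrank_pos, ρ.char_one⟩

/-- the inner product of two characters is a natural number -/
theorem B_nat {V W : Type} [AddCommGroup V] [Module ℂ V] [FiniteDimensional ℂ V]
    [AddCommGroup W] [Module ℂ W] [FiniteDimensional ℂ W]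
    (ρ : Representation ℂ G V) (σ : Representation ℂ G W) :
    ∃ n : ℕ, B ρ.character σ.character = n := by
  haveI : Invertible (Nat.card G : ℂ) := invertibleOfNonzero cardG_ne
  exact ⟨_, card_inv_mul_sum_char_mul_char_eq_finrank σ ρ⟩

/-- a class function of norm one whose coefficients are integers and whose degree is positive is
an irreducible character -/
theorem irr_of_norm {f : G → ℂ} (hf : IsClass f)
    (hn : ∀ χ, IsIrrChar χ → ∃ n : ℤ, B f χ = n) (h1 : B f f = 1)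
    (hpos : ∃ d : ℕ, f 1 = d) : IsIrrChar f := by
  choose! n hn' using hn
  have h2 := B_expand f f hf
  rw [h1] at h2
  have h3 : (1 : ℂ) = ∑ χ ∈ Irr G, ((n χ ^ 2 : ℤ) : ℂ) := by
    rw [h2]
    refine Finset.sum_congr rfl fun χ hχ => ?_
    rw [B_comm χ f, hn' χ (mem_Irr.mp hχ)]
    push_cast
    ring
  have h4 : (1 : ℤ) = ∑ χ ∈ Irr G, n χ ^ 2 := by exact_mod_cast h3
  have h5 : ∃ χ ∈ Irr G, n χ ≠ 0 := by
    by_contra h
    push Not at h
    rw [Finset.sum_eq_zero fun χ hχ => by rw [h χ hχ]; rfl] at h4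
    exact one_ne_zero h4
  obtain ⟨χ, hχ, hne⟩ := h5
  have h6 : 1 ≤ n χ ^ 2 := by
    have := sq_nonneg (n χ)
    have h7 : n χ ^ 2 ≠ 0 := pow_ne_zero _ hne
    omega
  have h8 : ∀ ψ ∈ Irr G, ψ ≠ χ → n ψ = 0 := by
    intro ψ hψ hψχ
    by_contra h
    have h9 : 1 ≤ n ψ ^ 2 := by
      have := sq_nonneg (n ψ)
      have h7 : n ψ ^ 2 ≠ 0 := pow_ne_zero _ h
      omega
    have h10 : n ψ ^ 2 + n χ ^ 2 ≤ ∑ χ ∈ Irr G, n χ ^ 2 := by
      rw [← Finset.sum_pair hψχ (f := fun χ => n χ ^ 2)]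
      refine Finset.sum_le_sum_of_subset_of_nonneg ?_ fun _ _ _ => sq_nonneg _
      intro x hx
      rcases Finset.mem_insert.mp hx with rfl | hx
      · exact hψ
      · rw [Finset.mem_singleton.mp hx]; exact hχ
    omega
  have h9 : f = (n χ : ℂ) • χ := by
    conv_lhs => rw [expand f hf]
    rw [Finset.sum_eq_single χ]
    · rw [hn' χ (mem_Irr.mp hχ)]
    · intro ψ hψ hne'
      rw [hn' ψ (mem_Irr.mp hψ), h8 ψ hψ hne']
      simp
    · intro h; exact absurd hχ h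
  have h10 : n χ ^ 2 = 1 := by
    rw [Finset.sum_eq_single χ] at h4
    · exact h4.symm
    · intro ψ hψ hne'
      rw [h8 ψ hψ hne']; rfl
    · intro h; exact absurd hχ h
  have h11 : n χ = 1 ∨ n χ = -1 := by
    have h12 : (n χ - 1) * (n χ + 1) = 0 := by linear_combination h10
    rcases mul_eq_zero.mp h12 with h | h
    · left; omega
    · right; omega
  rcases h11 with h11 | h11
  · rw [h9, h11]
    simpa using mem_Irr.mp hχ
  · exfalso
    obtain ⟨d, hd⟩ := hpos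
    obtain ⟨V, _, _, _, ρ, hρ, rfl⟩ := mem_Irr.mp hχ
    rw [h9, h11] at hd
    simp only [Pi.smul_apply, smul_eq_mul, char_one] at hd
    have h12 : (-(Module.finrank ℂ V : ℤ) : ℤ) = d := by
      have : ((-(Module.finrank ℂ V : ℤ) : ℤ) : ℂ) = ((d : ℤ) : ℂ) := by
        push_cast at hd ⊢
        rw [← hd]; ring
      exact_mod_cast this
    have h13 : Nontrivial V := irr_nontrivial ρ hρ
    have h14 := Module.finrank_pos (R := ℂ) (M := V)
    omega


/-! ### the characters of the wreath product -/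

/-- the induced character of `θ₁ ⊗ θ₂` -/
def ind2 (θ₁ θ₂ : G → ℂ) (x : Wr G) : ℂ :=
  match x.s with
  | false => θ₁ x.a * θ₂ x.b + θ₂ x.a * θ₁ x.b
  | true => 0

/-- the extension of `θ ⊗ θ`, multiplied by `ε = ±1` outside the base -/
def ext2 (ε : ℂ) (θ : G → ℂ) (x : Wr G) : ℂ :=
  match x.s with
  | false => θ x.a * θ x.b
  | true => ε * θ (x.a * x.b)

section

variable {V : Type} [AddCommGroup V] [Module ℂ V] [FiniteDimensional ℂ V]

/-- the tensor square, extended to the wreath product -/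
def extRep (ρ : Representation ℂ G V) (ε : ℂ) (hε : ε * ε = 1) :
    Representation ℂ (Wr G) (V ⊗[ℂ] V) where
  toFun x := match x.s with
    | false => TensorProduct.map (ρ x.a) (ρ x.b)
    | true => ε • (TensorProduct.map (ρ x.a) (ρ x.b) ∘ₗ sw V)
  map_one' := by
    simp only [Wr.one_def, map_one]
    exact TensorProduct.map_one
  map_mul' := by
    rintro ⟨a, b, s⟩ ⟨a', b', s'⟩
    cases s <;> cases s'
    · simp only [Wr.mk_false_mul, map_mul]
      exact TensorProduct.map_mul _ _ _ _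
    · simp only [Wr.mk_false_mul, map_mul, TensorProduct.map_mul]
      refine TensorProduct.ext' fun x y => ?_
      simp [sw]
    · simp only [Wr.mk_true_mul, map_mul, TensorProduct.map_mul, Bool.not_false]
      refine TensorProduct.ext' fun x y => ?_
      simp [sw]
    · simp only [Wr.mk_true_mul, map_mul, TensorProduct.map_mul, Bool.not_true]
      refine TensorProduct.ext' fun x y => ?_
      simp [sw, smul_smul, hε]

theorem extRep_char (ρ : Representation ℂ G V) (ε : ℂ) (hε : ε * ε = 1) :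
    (extRep ρ ε hε).character = ext2 ε ρ.character := by
  funext x
  obtain ⟨a, b, s⟩ := x
  cases s
  · change LinearMap.trace ℂ _ (TensorProduct.map (ρ a) (ρ b)) = ρ.character a * ρ.character b
    rw [LinearMap.trace_tensorProduct']
    rfl
  · change LinearMap.trace ℂ _ (ε • (TensorProduct.map (ρ a) (ρ b) ∘ₗ sw V)) =
      ε * ρ.character (a * b)
    rw [map_smul, trace_swap, smul_eq_mul, character, map_mul]
    rfl

end

/-- conjugation by the swap -/
theorem class_swap {f : Wr G → ℂ} (hf : IsClass f) (a b : G) : f ⟨b, a, false⟩ = f ⟨a, b, false⟩ := by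
  have h := hf ⟨a, b, false⟩ ⟨1, 1, true⟩
  simpa [Wr.inv_true, Wr.mk_true_mul] using h

theorem class_conj {f : Wr G → ℂ} (hf : IsClass f) (a b c d : G) (s : Bool) :
    f (⟨c, d, false⟩ * ⟨a, b, s⟩ * ⟨c, d, false⟩⁻¹) = f ⟨a, b, s⟩ := hf _ _

theorem class_true {f : Wr G → ℂ} (hf : IsClass f) (a b : G) :
    f ⟨a, b, true⟩ = f ⟨a * b, 1, true⟩ := by
  have h := hf ⟨a, b, true⟩ ⟨1, b⁻¹, false⟩
  rw [← h]
  simp [Wr.inv_false, Wr.mk_true_mul, Wr.mk_false_mul]

theorem ind2_class {θ₁ θ₂ : G → ℂ} (h1 : IsClass θ₁) (h2 : IsClass θ₂) :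
    IsClass (ind2 θ₁ θ₂) := by
  rintro ⟨a, b, s⟩ ⟨c, d, t⟩
  cases s <;> cases t
  · simp only [Wr.mk_false_mul, Wr.inv_false, ind2]
    rw [h1, h2, h1, h2]
  · simp only [Wr.mk_true_mul, Wr.inv_true, ind2, Bool.not_false, Bool.not_true]
    rw [h1, h2, h1, h2]
    ring
  · simp [Wr.mk_false_mul, Wr.mk_true_mul, Wr.inv_false, ind2]
  · simp [Wr.mk_true_mul, Wr.inv_true, Wr.mk_false_mul, ind2]

/-- the bilinear form on the wreath product -/
theorem B_wr (f h : Wr G → ℂ) : 2 * (Nat.card G : ℂ) ^ 2 * B f h =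
    ∑ a : G, ∑ b : G, f ⟨a, b, false⟩ * h ⟨a⁻¹, b⁻¹, false⟩ +
      ∑ a : G, ∑ b : G, f ⟨a, b, true⟩ * h ⟨b⁻¹, a⁻¹, true⟩ := by
  unfold B
  rw [Wr.sum_eq, Wr.card]
  have := cardG_ne (G := G)
  push_cast
  field_simp
  rfl

theorem sum_prod (φ₁ φ₂ ψ₁ ψ₂ : G → ℂ) :
    ∑ a : G, ∑ b : G, φ₁ a * φ₂ b * (ψ₁ a⁻¹ * ψ₂ b⁻¹) =
      (Nat.card G : ℂ) ^ 2 * (B φ₁ ψ₁ * B φ₂ ψ₂) := by
  unfold B
  have := cardG_ne (G := G)
  have h : (Nat.card G : ℂ) ^ 2 * ((Nat.card G : ℂ)⁻¹ * ∑ g : G, φ₁ g * ψ₁ g⁻¹ *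
      ((Nat.card G : ℂ)⁻¹ * ∑ g : G, φ₂ g * ψ₂ g⁻¹)) =
      (∑ g : G, φ₁ g * ψ₁ g⁻¹) * ∑ g : G, φ₂ g * ψ₂ g⁻¹ := by
    simp_rw [← Finset.sum_mul]
    field_simp
  have h' : (Nat.card G : ℂ)⁻¹ * (∑ g : G, φ₁ g * ψ₁ g⁻¹) *
      ((Nat.card G : ℂ)⁻¹ * ∑ g : G, φ₂ g * ψ₂ g⁻¹) = ((Nat.card G : ℂ) ^ 2)⁻¹ *
      ((∑ g : G, φ₁ g * ψ₁ g⁻¹) * ∑ g : G, φ₂ g * ψ₂ g⁻¹) := by
    field_simp
  rw [h', mul_inv_cancel_left₀ (pow_ne_zero _ this), Finset.sum_mul_sum]
  exact Finset.sum_congr rfl fun a _ => Finset.sum_congr rfl fun b _ => by ring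

theorem sum_conv (φ ψ : G → ℂ) :
    ∑ a : G, ∑ b : G, φ (a * b) * ψ (b⁻¹ * a⁻¹) = (Nat.card G : ℂ) ^ 2 * B φ ψ := by
  have h : ∀ a : G, ∑ b : G, φ (a * b) * ψ (b⁻¹ * a⁻¹) = ∑ c : G, φ c * ψ c⁻¹ := by
    intro a
    refine Fintype.sum_equiv (Equiv.mulLeft a) _ _ fun b => ?_
    simp
  simp_rw [h]
  rw [Finset.sum_const, Finset.card_univ, ← Nat.card_eq_fintype_card, nsmul_eq_mul]
  unfold B
  have := cardG_ne (G := G)
  field_simp

end Pool.Agent.Q90.WR
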